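import Pool.Agent.Lib.PTr.Defs

/-!
# Theorem T, module BTc: Brun-Titchmarsh bound for the weighted primes in a class
-/

set_option autoImplicit false

namespace Pool.Agent.PTr

open Finset Pool.Agent.GapSieve Pool.Agent.PosProp

private lemma BTc_wp_le (φ : ℝ → ℝ) (hφ : Hoh.Bump φ) (X : ℝ) (n : ℕ) (h1 : 1 ≤ n)
    (h2 : (n : ℝ) ≤ 4 * X) : wp φ X n ≤ Real.log (4 * X) := by
  have hn1 : (1 : ℝ) ≤ n := by exact_mod_cast h1
  have hlog0 : 0 ≤ Real.log n := Real.log_nonneg hn1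
  have hlog : Real.log n ≤ Real.log (4 * X) := Real.log_le_log (by linarith) h2
  unfold wp
  split_ifs
  · have ha := hφ.le_one (Real.log (n / X))
    calc Real.log n * φ (Real.log (n / X)) ≤ Real.log n * 1 :=
          mul_le_mul_of_nonneg_left ha hlog0
      _ ≤ Real.log (4 * X) := by linarith
  · linarith

theorem BTc_p (h1 : Lnk.BTq) (h2 : PXleStmt) : BTcStmt := by
  intro φ hφ
  obtain ⟨C, hC, h⟩ := h1
  refine ⟨4 * C, 1, by linarith, ?_⟩
  intro X hX c hc hcop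
  have hX0 : (0 : ℝ) < X := by linarith
  have hPpos : 0 < PX X := lt_of_le_of_lt (Nat.zero_le _) hc
  have hP1 : (1 : ℝ) ≤ (PX X : ℝ) := by exact_mod_cast hPpos
  have hPle : (PX X : ℝ) ≤ X ^ ((1 : ℝ) / 32) := h2 X hX
  have hPsq : ((PX X : ℕ) : ℝ) ^ 2 ≤ 4 * X := by
    have ha : ((PX X : ℕ) : ℝ) ^ 2 ≤ (X ^ ((1 : ℝ) / 32)) ^ 2 :=
      pow_le_pow_left₀ (by linarith) hPle 2
    have hb : (X ^ ((1 : ℝ) / 32)) ^ 2 = X ^ ((1 : ℝ) / 16) := by
      rw [← Real.rpow_natCast, ← Real.rpow_mul hX0.le]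
      norm_num
    have hc' : X ^ ((1 : ℝ) / 16) ≤ X ^ (1 : ℝ) :=
      Real.rpow_le_rpow_of_exponent_le hX (by norm_num)
    rw [Real.rpow_one] at hc'
    rw [hb] at ha
    linarith
  have hunit : IsUnit ((c : ℕ) : ZMod (PX X)) := (ZMod.isUnit_iff_coprime c (PX X)).2 hcop
  have hcard := h (PX X) ((c : ℕ) : ZMod (PX X)) 0 (4 * X) hPpos hunit le_rfl (by linarith) hPsq
  have hlogpos : 0 < Real.log (4 * X) := Real.log_pos (by linarith)
  have htot : 0 < ((PX X).totient : ℝ) := by exact_mod_cast Nat.totient_pos.2 hPpos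
  have hsub : (PA X).filter (fun n => n % PX X = c) ⊆
      (Finset.Ioc ⌊(0 : ℝ)⌋₊ ⌊(0 : ℝ) + 4 * X⌋₊).filter
        (fun p : ℕ => p.Prime ∧ ((p : ℕ) : ZMod (PX X)) = ((c : ℕ) : ZMod (PX X))) := by
    intro n hn
    rw [Finset.mem_filter] at hn
    obtain ⟨hn1, hn2⟩ := hn
    unfold PA NX at hn1
    rw [Finset.mem_filter, Finset.mem_Icc] at hn1
    obtain ⟨⟨hn3, hn4⟩, hn5, _⟩ := hn1
    rw [Finset.mem_filter, Finset.mem_Ioc]
    refine ⟨⟨?_, ?_⟩, hn5, ?_⟩
    · rw [Nat.floor_zero]; omega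
    · rw [zero_add]; exact hn4
    · rw [ZMod.natCast_eq_natCast_iff', hn2, Nat.mod_eq_of_lt hc]
  have hcard2 : (((PA X).filter (fun n => n % PX X = c)).card : ℝ) ≤
      C * (4 * X) / ((PX X).totient * Real.log (4 * X)) := by
    refine le_trans ?_ hcard
    exact_mod_cast Finset.card_le_card hsub
  have hsum : ∑ n ∈ (PA X).filter (fun n => n % PX X = c), wp φ X n ≤
      (((PA X).filter (fun n => n % PX X = c)).card : ℝ) * Real.log (4 * X) := by
    have hs := Finset.sum_le_card_nsmul ((PA X).filter (fun n => n % PX X = c)) (wp φ X)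
      (Real.log (4 * X)) (by
        intro n hn
        rw [Finset.mem_filter] at hn
        obtain ⟨hn1, _⟩ := hn
        unfold PA NX at hn1
        rw [Finset.mem_filter, Finset.mem_Icc] at hn1
        obtain ⟨⟨hn3, hn4⟩, _, _⟩ := hn1
        refine BTc_wp_le φ hφ X n hn3 ?_
        have h4 : ((⌊4 * X⌋₊ : ℕ) : ℝ) ≤ 4 * X := Nat.floor_le (by linarith)
        have h5 : (n : ℝ) ≤ ((⌊4 * X⌋₊ : ℕ) : ℝ) := by exact_mod_cast hn4
        linarith)
    rwa [nsmul_eq_mul] at hs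
  refine le_trans hsum ?_
  calc (((PA X).filter (fun n => n % PX X = c)).card : ℝ) * Real.log (4 * X)
      ≤ C * (4 * X) / ((PX X).totient * Real.log (4 * X)) * Real.log (4 * X) :=
        mul_le_mul_of_nonneg_right hcard2 hlogpos.le
    _ = 4 * C * X / (PX X).totient := by
        field_simp

end Pool.Agent.PTr
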