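import Pool.Agent.Lib.PTr.Defs

/-!
# Eighth moment of the Brun-Hooley polynomial
-/

set_option autoImplicit false

namespace Pool.Agent.PTr

open Finset Pool.Agent.GapSieve Pool.Agent.PosProp

theorem BetM8_p : BetM8Stmt := by
  intro p I n bs C2 hd h0 h1 hS hbs r hr hr8
  have hE := E1_blocks p I (fun j ω => bon (bs + j) ω.card ^ r) n hd
  have hE' : E1 p ((range n).biUnion I) (fun ω => bet I (fun j => bs + j) n ω ^ r) =
      ∏ j ∈ range n, E1 p (I j) (fun ω => bon (bs + j) ω.card ^ r) := by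
    rw [← hE]
    refine E1_congr fun ω _ => ?_
    unfold bet
    rw [prod_pow]
  rw [hE']
  have hblock : ∀ j ∈ range n, E1 p (I j) (fun ω => bon (bs + j) ω.card ^ r) ≤
      (∏ q ∈ I j, (1 - p q)) * (1 + (1 / 4 : ℝ) ^ j) := by
    intro j hj
    rw [mem_range] at hj
    have h0' := h0 j hj
    have h1' := h1 j hj
    have h11 : ∀ q ∈ I j, p q ≤ 1 := fun q hq => (h1' q hq).trans (by norm_num)
    have hV := exp_neg_sum_le h0' h1'
    have hVpos : 0 < ∏ q ∈ I j, (1 - p q) := lt_of_lt_of_le (Real.exp_pos _) hV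
    have a1 : E1 p (I j) (fun ω => bon (bs + j) ω.card ^ r) ≤
        E1 p (I j) (fun ω => (if ω = ∅ then 1 else 0) +
          (1 / 4) ^ (bs + j) * ((2 : ℝ) ^ (r + 1)) ^ ω.card) := by
      refine E1_mono h0' h11 fun ω _ => ?_
      have := bon_pow_le (bs + j) ω.card hr
      simp only [card_eq_zero] at this
      exact this
    rw [E1_add, E1_empty, E1_mul_left, E1_pow_card] at a1
    refine a1.trans ?_
    have a2 : ∏ q ∈ I j, (1 + ((2 : ℝ) ^ (r + 1) - 1) * p q) ≤ Real.exp (511 * (2 * C2)) := by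
      calc ∏ q ∈ I j, (1 + ((2 : ℝ) ^ (r + 1) - 1) * p q)
          ≤ ∏ q ∈ I j, (1 + 511 * p q) := by
            refine prod_le_prod (fun q hq => ?_) fun q hq => ?_
            · have : (1 : ℝ) ≤ 2 ^ (r + 1) := one_le_pow₀ (by norm_num)
              have := mul_nonneg (sub_nonneg.2 this) (h0' q hq)
              linarith
            · have h5 : (2 : ℝ) ^ (r + 1) ≤ 2 ^ 9 := pow_le_pow_right₀ (by norm_num) (by omega)
              have := mul_le_mul_of_nonneg_right (by linarith : (2 : ℝ) ^ (r + 1) - 1 ≤ 511)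
                (h0' q hq)
              linarith
        _ ≤ Real.exp (511 * ∑ q ∈ I j, p q) := prod_one_add_mul_le_exp h0' (by norm_num)
        _ ≤ _ := Real.exp_le_exp.2 (by have := hS j hj; linarith)
    have a3 : Real.exp (-(4 * C2)) ≤ ∏ q ∈ I j, (1 - p q) := by
      refine le_trans (Real.exp_le_exp.2 ?_) hV
      have := hS j hj
      linarith
    have a4 : (1 / 4 : ℝ) ^ (bs + j) * ∏ q ∈ I j, (1 + ((2 : ℝ) ^ (r + 1) - 1) * p q) ≤
        (∏ q ∈ I j, (1 - p q)) * (1 / 4 : ℝ) ^ j := by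
      calc (1 / 4 : ℝ) ^ (bs + j) * ∏ q ∈ I j, (1 + ((2 : ℝ) ^ (r + 1) - 1) * p q)
          ≤ (1 / 4 : ℝ) ^ (bs + j) * Real.exp (511 * (2 * C2)) :=
            mul_le_mul_of_nonneg_left a2 (by positivity)
        _ = Real.exp (-(4 * C2)) * ((1 / 4 : ℝ) ^ j * ((1 / 4 : ℝ) ^ bs * Real.exp (1026 * C2))) := by
            have : Real.exp (511 * (2 * C2)) = Real.exp (-(4 * C2)) * Real.exp (1026 * C2) := by
              rw [← Real.exp_add]; ring_nf
            rw [this, pow_add]; ring
        _ ≤ Real.exp (-(4 * C2)) * ((1 / 4 : ℝ) ^ j * ((1 / 4 : ℝ) ^ bs * 4 ^ bs)) := by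
            gcongr
        _ = Real.exp (-(4 * C2)) * (1 / 4 : ℝ) ^ j := by
            rw [← mul_pow]; norm_num
        _ ≤ _ := mul_le_mul_of_nonneg_right a3 (by positivity)
    linarith
  calc ∏ j ∈ range n, E1 p (I j) (fun ω => bon (bs + j) ω.card ^ r)
      ≤ ∏ j ∈ range n, ((∏ q ∈ I j, (1 - p q)) * (1 + (1 / 4 : ℝ) ^ j)) := by
        refine prod_le_prod (fun j hj => ?_) hblock
        rw [mem_range] at hj
        exact E1_nonneg (h0 j hj) (fun q hq => (h1 j hj q hq).trans (by norm_num))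
          fun ω _ => pow_nonneg (bon_nonneg _ _) r
    _ = (∏ q ∈ (range n).biUnion I, (1 - p q)) * ∏ j ∈ range n, (1 + (1 / 4 : ℝ) ^ j) := by
        rw [prod_mul_distrib, prod_biUnion]
        intro i hi j hj hij
        rw [mem_coe, mem_range] at hi hj
        exact hd i hi j hj hij
    _ ≤ (∏ q ∈ (range n).biUnion I, (1 - p q)) * 4 := by
        refine mul_le_mul_of_nonneg_left (prod_quarter_le n) ?_
        refine prod_nonneg fun q hq => ?_
        rw [mem_biUnion] at hq
        obtain ⟨j, hj, hq⟩ := hq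
        have := h1 j (mem_range.1 hj) q hq
        linarith
    _ = _ := by ring

end Pool.Agent.PTr
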