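import Pool.Agent.Lib.PTr.Defs

set_option autoImplicit false

namespace Pool.Agent.PTr

open Finset Pool.Agent.GapSieve Pool.Agent.PosProp

/-- A class modulo `P` inside the units modulo `P M` is a copy of the units modulo `M`. -/
theorem ClassSum_p : ClassSumStmt := by
  intro P M c f hP hM hPM hc hcP hper
  have hmod : ∀ x : ℕ, f (x % M) = f x := by
    intro x
    have h1 : ∀ k t : ℕ, f (t + k * M) = f t := by
      intro k
      induction k with
      | zero => intro t; simp
      | succ k ih =>
        intro t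
        have h2 : t + (k + 1) * M = (t + k * M) + M := by ring
        rw [h2, hper, ih]
    have h2 := h1 (x / M) (x % M)
    rw [← h2, Nat.mod_add_div' x M]
  have hcop : ∀ x : ℕ, x.Coprime M ↔ (x % M).Coprime M := by
    intro x
    unfold Nat.Coprime
    rw [← Nat.gcd_rec, Nat.gcd_comm]
  have hcopP : ∀ x : ℕ, x.Coprime P ↔ (x % P).Coprime P := by
    intro x
    unfold Nat.Coprime
    rw [← Nat.gcd_rec, Nat.gcd_comm]
  refine Finset.sum_bij (fun x _ => x % M) ?_ ?_ ?_ ?_
  · intro x hx
    simp only [mem_filter, mem_range] at hx ⊢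
    refine ⟨Nat.mod_lt _ hM, ?_⟩
    exact (hcop x).1 (Nat.Coprime.coprime_mul_left_right hx.2.2)
  · intro x hx y hy hxy
    simp only [mem_filter, mem_range] at hx hy hxy
    have h1 : x ≡ y [MOD P] := by
      unfold Nat.ModEq
      rw [hx.2.1, hy.2.1]
    have h2 : x ≡ y [MOD M] := hxy
    have h3 : x ≡ y [MOD P * M] := (Nat.modEq_and_modEq_iff_modEq_mul hPM).1 ⟨h1, h2⟩
    exact Nat.ModEq.eq_of_lt_of_lt h3 hx.1 hy.1
  · intro t ht
    simp only [mem_filter, mem_range] at ht
    have hex := Nat.chineseRemainder hPM c t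
    obtain ⟨z, hz1, hz2⟩ := hex
    refine ⟨z % (P * M), ?_, ?_⟩
    · have hzP : z % (P * M) % P = c := by
        rw [Nat.mod_mul_right_mod]
        have : z % P = c % P := hz1
        rw [this, Nat.mod_eq_of_lt hc]
      have hzM : z % (P * M) % M = t := by
        rw [Nat.mod_mul_left_mod]
        have : z % M = t % M := hz2
        rw [this, Nat.mod_eq_of_lt ht.1]
      simp only [mem_filter, mem_range]
      refine ⟨Nat.mod_lt _ (Nat.mul_pos hP hM), hzP, ?_⟩
      refine Nat.Coprime.mul_right ?_ ?_
      · rw [hcopP, hzP]; exact hcP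
      · rw [hcop, hzM]; exact ht.2
    · show z % (P * M) % M = t
      rw [Nat.mod_mul_left_mod]
      have : z % M = t % M := hz2
      rw [this, Nat.mod_eq_of_lt ht.1]
  · intro x hx
    exact (hmod x).symm

end Pool.Agent.PTr
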