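import Pool.Agent.Lib.PTr.Defs

/-!
# Weighted sums over the characters of bounded conductor: module CondW
-/

set_option autoImplicit false

namespace Pool.Agent.PTr

open Finset Pool.Agent.GapSieve Pool.Agent.PosProp

open Classical in
private theorem condw_bij {D r : ℕ} (hD : 1 ≤ D) (hrD : r ∣ D) {M : Type} [AddCommMonoid M]
    (f : DirichletCharacter ℂ D → M) (g : DirichletCharacter ℂ r → M)
    (hfg : ∀ ψ : DirichletCharacter ℂ r, f (DirichletCharacter.changeLevel hrD ψ) = g ψ) :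
    (∑ χ : DirichletCharacter ℂ D, if χ.conductor = r then f χ else 0) =
      ∑ ψ : DirichletCharacter ℂ r, if ψ.IsPrimitive then g ψ else 0 := by
  have : NeZero D := ⟨by omega⟩
  rw [← Finset.sum_filter, ← Finset.sum_filter]
  symm
  apply Finset.sum_nbij (fun ψ => DirichletCharacter.changeLevel hrD ψ)
  · intro ψ hψ
    rw [Finset.mem_filter] at hψ ⊢
    refine ⟨Finset.mem_univ _, ?_⟩
    rw [DirichletCharacter.conductor_changeLevel]
    exact hψ.2
  · exact (DirichletCharacter.changeLevel_injective hrD).injOn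
  · intro χ hχ
    rw [Finset.mem_coe, Finset.mem_filter] at hχ
    obtain ⟨-, hχ⟩ := hχ
    subst hχ
    refine ⟨χ.primitiveCharacter, ?_, ?_⟩
    · rw [Finset.mem_coe, Finset.mem_filter]
      exact ⟨Finset.mem_univ _, χ.primitiveCharacter_isPrimitive⟩
    · exact χ.changeLevel_primitiveCharacter
  · intro ψ _
    exact (hfg ψ).symm

private theorem condw_S {D r : ℕ} (hrD : r ∣ D) (A : Finset ℕ) (w : ℕ → ℝ)
    (hA : ∀ q ∈ A, Nat.Coprime q D) (ψ : DirichletCharacter ℂ r) :
    ∑ n ∈ A, (w n : ℂ) * (DirichletCharacter.changeLevel hrD ψ) ((n : ℕ) : ZMod D) =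
      ∑ n ∈ A, (w n : ℂ) * ψ ((n : ℕ) : ZMod r) := by
  apply Finset.sum_congr rfl
  intro α hα
  have h := DirichletCharacter.changeLevel_eq_cast_of_dvd' ψ hrD (a := (α : ℤ))
    (Nat.isCoprime_iff_coprime.2 (hA α hα))
  rw [Int.cast_natCast, Int.cast_natCast] at h
  rw [h]

/-- **CondW** (weighted form of `CONDSStmt` of `LogCh`, see `LogCh/EConds.lean`): the characters
modulo `R` of conductor `f` are the `changeLevel ψ`, `ψ` primitive modulo `f`, with the same values
at the integers coprime to `R`. -/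
theorem CondW_p : CondWStmt := by
  intro A w R F hR hA
  classical
  have hcond : ∀ χ : DirichletCharacter ℂ R, 1 ≤ χ.conductor := by
    intro χ
    exact Nat.pos_of_dvd_of_pos χ.conductor_dvd_level hR
  have h1 : ∀ χ : DirichletCharacter ℂ R,
      (if χ.conductor ≤ F then ‖∑ n ∈ A, (w n : ℂ) * χ ((n : ℕ) : ZMod R)‖ else 0) =
      ∑ f ∈ Icc 1 F, if χ.conductor = f then
        ‖∑ n ∈ A, (w n : ℂ) * χ ((n : ℕ) : ZMod R)‖ else 0 := by
    intro χ
    rw [Finset.sum_ite_eq]
    by_cases h : χ.conductor ≤ F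
    · rw [if_pos h, if_pos (Finset.mem_Icc.2 ⟨hcond χ, h⟩)]
    · rw [if_neg h, if_neg (fun hm => h (Finset.mem_Icc.1 hm).2)]
  rw [Finset.sum_congr rfl (fun χ _ => h1 χ), Finset.sum_comm]
  unfold PSum
  apply Finset.sum_le_sum
  intro f hf
  by_cases hfR : f ∣ R
  · have h2 := condw_bij hR hfR
      (fun χ : DirichletCharacter ℂ R => ‖∑ n ∈ A, (w n : ℂ) * χ ((n : ℕ) : ZMod R)‖)
      (fun ψ : DirichletCharacter ℂ f => ‖∑ n ∈ A, (w n : ℂ) * ψ ((n : ℕ) : ZMod f)‖)
      (fun ψ => by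
        show ‖_‖ = ‖_‖
        rw [condw_S hfR A w hA ψ])
    exact h2.le
  · have h3 : (∑ χ : DirichletCharacter ℂ R, if χ.conductor = f then
        ‖∑ n ∈ A, (w n : ℂ) * χ ((n : ℕ) : ZMod R)‖ else 0) = 0 := by
      apply Finset.sum_eq_zero
      intro χ _
      rw [if_neg]
      intro h
      exact hfR (h ▸ χ.conductor_dvd_level)
    rw [h3]
    apply Finset.sum_nonneg
    intro ψ _
    split_ifs
    · exact norm_nonneg _
    · exact le_refl _

end Pool.Agent.PTr
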