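import Pool.Agent.Lib.PTr.Defs

/-!
# Theorem T in terms of the primes in the class `b` modulo `p`
-/

set_option autoImplicit false

namespace Pool.Agent.PTr

open Finset

private lemma eventually_large (c B : ℝ) (hc : 0 < c) :
    ∃ X0 : ℝ, ∀ X : ℝ, X0 ≤ X → B ≤ c * X / Real.log X := by
  have h1 : Filter.Tendsto (fun x : ℝ => Real.log x / x) Filter.atTop (nhds 0) := by
    have := Real.isLittleO_log_id_atTop.tendsto_div_nhds_zero
    simpa using this
  have hε : 0 < c / (|B| + 1) := by positivity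
  obtain ⟨X1, hX1⟩ := Filter.eventually_atTop.1 (h1.eventually (gt_mem_nhds hε))
  refine ⟨max X1 2, fun X hX => ?_⟩
  have hX2 : 2 ≤ X := (le_max_right _ _).trans hX
  have h2 := hX1 X ((le_max_left _ _).trans hX)
  have hlog : 0 < Real.log X := Real.log_pos (by linarith)
  rw [div_lt_div_iff₀ (by linarith) (by positivity)] at h2
  rw [le_div_iff₀ hlog]
  have h3 : B ≤ |B| := le_abs_self B
  nlinarith [mul_le_mul_of_nonneg_right h3 hlog.le]

open Classical in
theorem Cor_p (hT : TheoremTStmt) (b : ℤ) (hb : b ≠ 0) (lam : ℝ) (hlam : 0 < lam) (m : ℕ) :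
    ∃ c X0 : ℝ, 0 < c ∧ ∀ X : ℝ, X0 ≤ X →
    c * X / Real.log X ≤ (((Icc 1 ⌊X⌋₊).filter (fun p : ℕ => p.Prime ∧ m < p ∧
      ∀ q : ℕ, q.Prime → (p : ℤ) ∣ (q : ℤ) - b → (q : ℤ) ≠ b →
        lam * p * Real.log p < q)).card : ℝ) := by
  obtain ⟨c, X0, hc, h⟩ := hT b (lam + 1) hb (by linarith)
  set B : ℕ := m + b.natAbs + 3 with hB
  obtain ⟨X1, hX1⟩ := eventually_large (c / 2) B (by positivity)
  refine ⟨c / 2, max X0 X1, by positivity, fun X hX => ?_⟩
  have h1 := h X ((le_max_left _ _).trans hX)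
  have h2 := hX1 X ((le_max_right _ _).trans hX)
  set S := (Icc 1 ⌊X⌋₊).filter (fun p : ℕ => p.Prime ∧
      ∀ s : ℤ, s ≠ 0 → |(s : ℝ)| ≤ (lam + 1) * Real.log p → ¬ (b + s * p).natAbs.Prime) with hS
  set S' := (Icc 1 ⌊X⌋₊).filter (fun p : ℕ => p.Prime ∧ m < p ∧
      ∀ q : ℕ, q.Prime → (p : ℤ) ∣ (q : ℤ) - b → (q : ℤ) ≠ b →
        lam * p * Real.log p < q) with hS'
  have hsub : S ⊆ S' ∪ Icc 1 B := by
    intro p hp
    obtain ⟨hp1, hp2, hp3⟩ := mem_filter.1 hp
    rw [mem_union]
    by_cases hpB : p ≤ B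
    · exact Or.inr (mem_Icc.2 ⟨(mem_Icc.1 hp1).1, hpB⟩)
    · left
      rw [not_le] at hpB
      refine mem_filter.2 ⟨hp1, hp2, by omega, fun q hq hd hne => ?_⟩
      obtain ⟨s, hs⟩ := hd
      have hqs : (q : ℤ) = b + s * p := by linarith
      have hs0 : s ≠ 0 := by
        rintro rfl
        apply hne
        linarith
      have hbp : (b.natAbs : ℤ) < p := by
        have : b.natAbs < p := by omega
        exact_mod_cast this
      have hba : |b| < (p : ℤ) := by
        rw [Int.abs_eq_natAbs]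
        exact hbp
      have hspos : 0 < s := by
        rcases lt_or_gt_of_ne hs0 with h5 | h5
        · exfalso
          have h6 : s ≤ -1 := by omega
          have h7 : s * (p : ℤ) ≤ -1 * (p : ℤ) := mul_le_mul_of_nonneg_right h6 (by positivity)
          have h8 := (abs_lt.1 hba).2
          have h9 : (0 : ℤ) ≤ q := by positivity
          linarith
        · exact h5
      have hpr : (b + s * p).natAbs.Prime := by
        rw [← hqs]
        simpa using hq
      have hns : ¬ |(s : ℝ)| ≤ (lam + 1) * Real.log p := fun h5 => hp3 s hs0 h5 hpr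
      rw [not_le, abs_of_pos (by exact_mod_cast hspos)] at hns
      have hp0 : (0 : ℝ) < p := by exact_mod_cast hp2.pos
      have hlog1 : 1 ≤ Real.log p := by
        rw [Real.le_log_iff_exp_le hp0]
        have h5 : (3 : ℝ) ≤ p := by
          have : 3 ≤ p := by omega
          exact_mod_cast this
        have := Real.exp_one_lt_d9
        linarith
      have hqR : (q : ℝ) = b + s * p := by exact_mod_cast hqs
      rw [hqR]
      have h6 : (lam + 1) * Real.log p * p < s * p := mul_lt_mul_of_pos_right hns hp0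
      have h7 : (p : ℝ) * 1 ≤ p * Real.log p := mul_le_mul_of_nonneg_left hlog1 hp0.le
      have h8 : (-(p : ℝ)) < b := by
        have := (abs_lt.1 hba).1
        exact_mod_cast this
      linarith
  have h3 : (S.card : ℝ) ≤ S'.card + B := by
    have h4 := (card_le_card hsub).trans (card_union_le _ _)
    rw [Nat.card_Icc] at h4
    have h5 : S.card ≤ S'.card + B := by omega
    exact_mod_cast h5
  have h4 : c * X / Real.log X = c / 2 * X / Real.log X + c / 2 * X / Real.log X := by ring
  linarith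

end Pool.Agent.PTr
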