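import Pool.Agent.Lib.PTr.Defs

/-!
# The core of the positive proportion theorem for weighted families
-/

set_option autoImplicit false

namespace Pool.Agent.PTr

open Finset Pool.Agent.GapSieve Pool.Agent.PosProp

section

variable {N : ℕ} {Q1 Q2 : Finset ℕ} {k : ℕ → ℕ} {hit : ℕ → Fin N → ℕ → Prop}
  {C1 C2 lam LX lq ε δ0 : ℝ} {J bs : ℕ}

private lemma CoreT_hS (h : Par Q1 Q2 k hit C1 C2 lam LX lq ε δ0 J bs) (j : ℕ) :
    ∑ q ∈ Ib Q1 (δ0 * LX) j, pp N k q ≤ 2 * C2 := by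
  have hl0 := h.l0
  have hv : (0 : ℝ) < (1 / 2) ^ j * (δ0 * LX) := by positivity
  have hv2 : (1 / 2 : ℝ) ^ j * (δ0 * LX) ≤ ε * LX := by
    have h1 : (1 / 2 : ℝ) ^ j ≤ 1 := pow_le_one₀ (by norm_num) (by norm_num)
    have := l0_le_l h
    nlinarith
  have h1 := h.S1 _ hv.le hv2
  have h2 : ((1 / 2 : ℝ) ^ (j + 1) * (δ0 * LX)) * ∑ q ∈ Ib Q1 (δ0 * LX) j, pp N k q ≤
      ∑ q ∈ Q1 with Real.log (q : ℕ) ≤ (1 / 2 : ℝ) ^ j * (δ0 * LX), pp N k q * Real.log q := by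
    rw [mul_sum]
    calc ∑ q ∈ Ib Q1 (δ0 * LX) j, (1 / 2 : ℝ) ^ (j + 1) * (δ0 * LX) * pp N k q
        ≤ ∑ q ∈ Ib Q1 (δ0 * LX) j, pp N k q * Real.log q := by
          refine sum_le_sum fun q hq => ?_
          obtain ⟨hq1, hq2, _⟩ := mem_filter.1 hq
          have := h.p0 q (mem_union_left _ hq1)
          nlinarith
      _ ≤ _ := by
          refine sum_le_sum_of_subset_of_nonneg ?_ fun q hq _ => ?_
          · intro q hq
            obtain ⟨hq1, _, hq3⟩ := mem_filter.1 hq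
            exact mem_filter.2 ⟨hq1, hq3⟩
          · have := h.p0 q (mem_union_left _ (mem_filter.1 hq).1)
            exact mul_nonneg this (Real.log_natCast_nonneg q)
  have h3 : (1 / 2 : ℝ) ^ (j + 1) * (δ0 * LX) = 1 / 2 * ((1 / 2) ^ j * (δ0 * LX)) := by
    rw [pow_succ]; ring
  rw [h3] at h2
  by_contra hcon
  push Not at hcon
  have h4 : 1 / 2 * ((1 / 2 : ℝ) ^ j * (δ0 * LX)) * (2 * C2) <
      1 / 2 * ((1 / 2) ^ j * (δ0 * LX)) * ∑ q ∈ Ib Q1 (δ0 * LX) j, pp N k q :=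
    mul_lt_mul_of_pos_left hcon (by positivity)
  linarith

/-- eighth moment of the small prime factor -/
private lemma CoreT_m8 (h4 : BetM8Stmt) (h : Par Q1 Q2 k hit C1 C2 lam LX lq ε δ0 J bs)
    (hbs8 : Real.exp (1026 * C2) ≤ 4 ^ bs) {n : ℕ}
    (hn : (range n).biUnion (Ib Q1 (δ0 * LX)) = Q1) :
    E1 (pp N k) Q1 (fun ω => be Q1 (δ0 * LX) bs n ω ^ 8) ≤ 4 * ∏ q ∈ Q1, (1 - pp N k q) := by
  have hI : ∀ j, Ib Q1 (δ0 * LX) j ⊆ Q1 := fun j => filter_subset _ _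
  have h1 := h4 (pp N k) (Ib Q1 (δ0 * LX)) n bs C2
    (fun i _ j _ hij => Ib_disj h.l0.le hij)
    (fun j _ q hq => h.p0 q (mem_union_left _ (hI j hq)))
    (fun j _ q hq => h.ph q (mem_union_left _ (hI j hq))) (fun j _ => CoreT_hS h j) hbs8 8
    (by norm_num) (le_refl 8)
  rw [hn] at h1
  exact h1

/-- eighth moment of the absolute sum, all sites -/
private lemma CoreT_eighth (h5 : Mom8Stmt) (h : Par Q1 Q2 k hit C1 C2 lam LX lq ε δ0 J bs)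
    {β : Finset ℕ → ℝ}
    (hsd : SD (pp N k) Q1 Q2 β (Bm Q2 (ε * LX) J) J (4 * ∏ q ∈ Q1, (1 - pp N k q)))
    (hm8 : E1 (pp N k) Q1 (fun ω => β ω ^ 8) ≤ 4 * ∏ q ∈ Q1, (1 - pp N k q)) :
    (E1 (pp N k) (Q1 ∪ Q2) (fun ω => (∑ s ∈ TT Q2,
      |ee (pp N k) Q1 β (Bm Q2 (ε * LX) J) J s ω|) ^ 8)) ^ N ≤
    Real.exp (2040 * (C1 * lam / δ0 * Real.exp (255 * (C2 * ε / δ0)))) := by
  have h1 := h5 (pp N k) Q1 Q2 β (Bm Q2 (ε * LX) J) J _ hsd hm8
  have h0 : 0 ≤ E1 (pp N k) (Q1 ∪ Q2) (fun ω => (∑ s ∈ TT Q2,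
      |ee (pp N k) Q1 β (Bm Q2 (ε * LX) J) J s ω|) ^ 8) :=
    E1_nonneg h.p0 h.p1 fun _ _ => by positivity
  refine (pow_le_pow_left₀ h0 h1 N).trans ?_
  rw [← Real.exp_nat_mul]
  apply Real.exp_le_exp.2
  have h2 := h.Nα
  have h3 : Real.exp (255 * ∑ q ∈ Q2, pp N k q) ≤ Real.exp (255 * (C2 * ε / δ0)) := by
    apply Real.exp_le_exp.2
    have := sum_p_Q2 h
    linarith
  have hα := hsd.al0
  have hN : (0 : ℝ) ≤ N := Nat.cast_nonneg N
  have h4 : N * (4 * ∏ q ∈ Q1, (1 - pp N k q)) * Real.exp (255 * ∑ q ∈ Q2, pp N k q) ≤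
      4 * (C1 * lam / δ0) * Real.exp (255 * (C2 * ε / δ0)) :=
    mul_le_mul h2 h3 (Real.exp_pos _).le ((mul_nonneg hN hα).trans h2)
  linarith

/-- fourth moment of the absolute sum, all sites but one -/
private lemma CoreT_fourth (h : Par Q1 Q2 k hit C1 C2 lam LX lq ε δ0 J bs)
    {β : Finset ℕ → ℝ}
    (hsd : SD (pp N k) Q1 Q2 β (Bm Q2 (ε * LX) J) J (4 * ∏ q ∈ Q1, (1 - pp N k q))) :
    (E1 (pp N k) (Q1 ∪ Q2) (fun ω => (∑ s ∈ TT Q2,
      |ee (pp N k) Q1 β (Bm Q2 (ε * LX) J) J s ω|) ^ 4)) ^ (N - 1) ≤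
    Real.exp (120 * (C1 * lam / δ0 * Real.exp (15 * (C2 * ε / δ0)))) := by
  have h1 := fourth_le hsd
  have h0 : 0 ≤ E1 (pp N k) (Q1 ∪ Q2) (fun ω => (∑ s ∈ TT Q2,
      |ee (pp N k) Q1 β (Bm Q2 (ε * LX) J) J s ω|) ^ 4) :=
    E1_nonneg h.p0 h.p1 fun _ _ => by positivity
  have hα := hsd.al0
  have h9 : 1 ≤ Real.exp (30 * ((4 * ∏ q ∈ Q1, (1 - pp N k q)) *
      Real.exp (15 * ∑ q ∈ Q2, pp N k q))) := by
    apply Real.one_le_exp
    have := mul_nonneg hα (Real.exp_pos (15 * ∑ q ∈ Q2, pp N k q)).le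
    linarith
  refine (pow_le_pow_left₀ h0 h1 (N - 1)).trans ?_
  refine (pow_le_pow_right₀ h9 (Nat.sub_le N 1)).trans ?_
  rw [← Real.exp_nat_mul]
  apply Real.exp_le_exp.2
  have h2 := h.Nα
  have h3 : Real.exp (15 * ∑ q ∈ Q2, pp N k q) ≤ Real.exp (15 * (C2 * ε / δ0)) := by
    apply Real.exp_le_exp.2
    have := sum_p_Q2 h
    linarith
  have hN : (0 : ℝ) ≤ N := Nat.cast_nonneg N
  have h4 : N * (4 * ∏ q ∈ Q1, (1 - pp N k q)) * Real.exp (15 * ∑ q ∈ Q2, pp N k q) ≤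
      4 * (C1 * lam / δ0) * Real.exp (15 * (C2 * ε / δ0)) :=
    mul_le_mul h2 h3 (Real.exp_pos _).le ((mul_nonneg hN hα).trans h2)
  linarith

/-- the new term at one site -/
private lemma CoreT_hU (h : Par Q1 Q2 k hit C1 C2 lam LX lq ε δ0 J bs)
    {β : Finset ℕ → ℝ}
    (hsd : SD (pp N k) Q1 Q2 β (Bm Q2 (ε * LX) J) J (4 * ∏ q ∈ Q1, (1 - pp N k q)))
    (hε1 : 327680000 * (C1 ^ 2 * lam * (Real.exp (8 * C2) + 1)) * ε ≤ 1) {A : ℝ}
    (hA : A = (∑ s ∈ TT Q2, nn (pp N k) (Q1 ∪ Q2)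
      (ee (pp N k) Q1 β (Bm Q2 (ε * LX) J) J) s) ^ N) (hApos : 0 < A) (i : Fin N) :
    N * (E1 (pp N k) (Q1 ∪ Q2)
      (uu (pp N k) Q2 β ((2 * C2 + 1) * (ε * LX))) *
      EN (pp N k) (Q1 ∪ Q2) (fun ω : Fin N → Finset ℕ => GG (TT Q2)
      (ee (pp N k) Q1 β (Bm Q2 (ε * LX) J) J) (dd (hz δ0 LX bs)) (LX / 100)
      (Function.update ω i ∅) ^ 2)) ≤ A / 2 / 8 := by
  have hLX := h.hLX
  have hεp := h.hε
  have hC1 := h.hC1
  have hlam := h.hlam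
  have e1 := Eu_le h hsd ((2 * C2 + 1) * (ε * LX))
  have e2 := upd_le h hsd i
  rw [← hA] at e2
  have e3 : 0 ≤ EN (pp N k) (Q1 ∪ Q2) (fun ω : Fin N → Finset ℕ => GG (TT Q2)
    (ee (pp N k) Q1 β (Bm Q2 (ε * LX) J) J) (dd (hz δ0 LX bs)) (LX / 100)
    (Function.update ω i ∅) ^ 2) := EN_nonneg h.p0 h.p1 fun _ _ => sq_nonneg _
  have e4 : Real.exp (-(1 / (400 * ε))) ≤ 320000 * ε ^ 2 := by
    have f1 : 1 + 1 / (400 * ε) + (1 / (400 * ε)) ^ 2 / 2 ≤ Real.exp (1 / (400 * ε)) :=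
      Real.quadratic_le_exp_of_nonneg (by positivity)
    have f2 : (1 / (400 * ε)) ^ 2 / 2 ≤ Real.exp (1 / (400 * ε)) := by
      have : 0 < 1 / (400 * ε) := by positivity
      linarith
    rw [Real.exp_neg, inv_eq_one_div, div_le_iff₀ (Real.exp_pos _)]
    have f3 := mul_le_mul_of_nonneg_left f2 (show 0 ≤ 320000 * ε ^ 2 by positivity)
    have f4 : 320000 * ε ^ 2 * ((1 / (400 * ε)) ^ 2 / 2) = 1 := by
      field_simp
      norm_num
    linarith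
  calc N * (E1 (pp N k) (Q1 ∪ Q2)
        (uu (pp N k) Q2 β ((2 * C2 + 1) * (ε * LX))) *
        EN (pp N k) (Q1 ∪ Q2) (fun ω : Fin N → Finset ℕ => GG (TT Q2)
        (ee (pp N k) Q1 β (Bm Q2 (ε * LX) J) J) (dd (hz δ0 LX bs)) (LX / 100)
        (Function.update ω i ∅) ^ 2))
      = (N * E1 (pp N k) (Q1 ∪ Q2)
        (uu (pp N k) Q2 β ((2 * C2 + 1) * (ε * LX)))) *
        EN (pp N k) (Q1 ∪ Q2) (fun ω : Fin N → Finset ℕ => GG (TT Q2)
        (ee (pp N k) Q1 β (Bm Q2 (ε * LX) J) J) (dd (hz δ0 LX bs)) (LX / 100)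
        (Function.update ω i ∅) ^ 2) := by ring
    _ ≤ (16 * (C1 ^ 2 * lam / ε)) *
        (4 * ((Real.exp (8 * C2) + 1) * Real.exp (-(1 / (400 * ε)))) * A) :=
        mul_le_mul e1 e2 e3 (by positivity)
    _ ≤ (16 * (C1 ^ 2 * lam / ε)) *
        (4 * ((Real.exp (8 * C2) + 1) * (320000 * ε ^ 2)) * A) := by gcongr
    _ = (327680000 * (C1 ^ 2 * lam * (Real.exp (8 * C2) + 1)) * ε) * (A / 16) := by
        field_simp
        ring
    _ ≤ 1 * (A / 16) := mul_le_mul_of_nonneg_right hε1 (by positivity)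
    _ = A / 2 / 8 := by ring

end

/-- **Core theorem** for weighted families -/
theorem CoreT_p (h1 : LevBetStmt) (h2 : LevEeStmt) (h3 : LevUuStmt) (h4 : BetM8Stmt)
    (h5 : Mom8Stmt) (h6 : UuSqStmt) (h7 : GGMStmt) (h8 : CountTStmt) : CoreTStmt := by
  intro N Q1 Q2 k hit C1 C2 lam LX lq ε δ0 J bs h hbs8 Λ K4 Kb hΛ hK4 hKb hε1 hη1 hlev
    ι I W τ M κ hM hκ hW hτ htr hs1 hs2
  obtain ⟨n, hn⟩ := Ib_union (Q1 := Q1) (l0 := δ0 * LX) (lq := lq) (by linarith [h.hlq]) h.lo1 h.hi1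
  have hsd := h.sd hn
  have hm8 := CoreT_m8 h4 h hbs8 hn
  have hl := h.l
  have hl0 := h.l0
  have hLX := h.hLX
  have hεp := h.hε
  have hC1 := h.hC1
  have hC2 := h.hC2
  have hlam := h.hlam
  have hδ := h.hδ
  have hK41 : 1 ≤ K4 := by
    rw [hK4]
    apply Real.one_le_exp
    positivity
  have hK40 : 0 < K4 := by linarith
  have hKb0 : 0 ≤ Kb := by
    rw [hKb]
    positivity
  have hh0 : 1 ≤ hz δ0 LX bs := by
    unfold hz
    have : 0 ≤ 12 * ((bs : ℝ) + 1) * (δ0 * LX) := by positivity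
    linarith
  have hpos : ∀ q ∈ Q1 ∪ Q2, 0 < q := h.sys.pos
  -- levels
  have hβl : SLev (Q1 ∪ Q2) (Real.exp (hz δ0 LX bs)) (be Q1 (δ0 * LX) bs n) :=
    h1 (Q1 ∪ Q2) (Ib Q1 (δ0 * LX)) n bs (δ0 * LX) hl0.le hpos
      (fun j _ => (filter_subset _ _).trans subset_union_left)
      (fun j _ q hq => (mem_filter.1 hq).2.2)
  set β := be Q1 (δ0 * LX) bs n with hβ
  have heel := h2 (Q1 ∪ Q2) Q1 Q2 (pp N k) β (Bm Q2 (ε * LX) J) J (hz δ0 LX bs) hpos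
    subset_union_right (by linarith) hβl
  have huul := h3 (Q1 ∪ Q2) Q2 (pp N k) β (hz δ0 LX bs) ((2 * C2 + 1) * (ε * LX)) hpos
    subset_union_right hβl
  set G : (Fin N → Finset ℕ) → ℝ := fun ω => GG (TT Q2)
    (ee (pp N k) Q1 β (Bm Q2 (ε * LX) J) J) (dd (hz δ0 LX bs)) (LX / 100) ω with hG
  have hGl : CLev (Q1 ∪ Q2) (Real.exp (LX / 100)) G :=
    GG_lev hpos (fun i ω => ω i) (fun i s hs => (heel s hs).site i) (LX / 100)
  have hGil : ∀ i : Fin N, CLev (Q1 ∪ Q2) (Real.exp (LX / 100))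
      (fun ω => G (Function.update ω i ∅)) := fun i =>
    GG_lev hpos (fun j ω => Function.update ω i ∅ j) (fun j s hs => (heel s hs).upd i j) (LX / 100)
  have hlevpow : ∀ m : ℕ, m ≤ 50 → Real.exp (LX / 100) ^ m ≤ Real.exp (LX / 2) := by
    intro m hm
    rw [← Real.exp_nat_mul]
    apply Real.exp_le_exp.2
    have hm' : (m : ℝ) ≤ 50 := by exact_mod_cast hm
    nlinarith
  have hG2l : CLev (Q1 ∪ Q2) (Real.exp (LX / 2)) (fun ω => G ω ^ 2) :=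
    (hGl.pow hpos 2).mono (hlevpow 2 (by norm_num))
  have hG4l : CLev (Q1 ∪ Q2) (Real.exp (LX / 2)) (fun ω => G ω ^ 4) :=
    (hGl.pow hpos 4).mono (hlevpow 4 (by norm_num))
  have hUl : ∀ i : Fin N, CLev (Q1 ∪ Q2) (Real.exp (LX / 2))
      (fun ω => G (Function.update ω i ∅) ^ 2 *
        uu (pp N k) Q2 β ((2 * C2 + 1) * (ε * LX)) (ω i)) := by
    intro i
    refine (((hGil i).pow hpos 2).mul hpos (huul.site i)).mono ?_
    rw [← Real.exp_nat_mul, ← Real.exp_add]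
    apply Real.exp_le_exp.2
    push_cast
    linarith
  -- moments
  have hA1 := A0N_ge h hsd
  rw [← hΛ] at hA1
  have h2nd := second_ge h hsd (by
    have h1 : 1 ≤ C1 ^ 2 * lam * (Real.exp (8 * C2) + 1) := by
      have e1 : 1 ≤ C1 ^ 2 := one_le_pow₀ hC1
      have e2 : 1 ≤ Real.exp (8 * C2) + 1 := by
        have := Real.exp_pos (8 * C2)
        linarith
      have e3 := one_le_mul_of_one_le_of_one_le e1 hlam
      exact one_le_mul_of_one_le_of_one_le e3 e2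
    nlinarith)
  set A := (∑ s ∈ TT Q2, nn (pp N k) (Q1 ∪ Q2)
    (ee (pp N k) Q1 β (Bm Q2 (ε * LX) J) J) s) ^ N with hA
  have hApos : 0 < A := (Real.exp_pos _).trans_le hA1
  have hm4 : EN (pp N k) (Q1 ∪ Q2) (fun ω : Fin N → Finset ℕ => G ω ^ 4) ≤ K4 := by
    refine (GG_pow_le h.p0 h.p1 _ _ _ _).trans ?_
    rw [hK4]
    exact fourth_le' h hsd
  have hU : ∀ i : Fin N, N * (E1 (pp N k) (Q1 ∪ Q2)
      (uu (pp N k) Q2 β ((2 * C2 + 1) * (ε * LX))) *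
      EN (pp N k) (Q1 ∪ Q2) (fun ω : Fin N → Finset ℕ => G (Function.update ω i ∅) ^ 2)) ≤
        A / 2 / 8 := fun i => CoreT_hU h hsd hε1 hA hApos i
  have hsmA : Real.exp (-(2 * Λ)) / (256 * K4) ≤ (A / 2) ^ 2 / (64 * K4) := by
    have f1 : Real.exp (-(2 * Λ)) ≤ A ^ 2 := by
      calc Real.exp (-(2 * Λ)) = Real.exp (-Λ) ^ 2 := by
            rw [← Real.exp_nat_mul]; norm_num
        _ ≤ A ^ 2 := pow_le_pow_left₀ (Real.exp_pos _).le hA1 2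
    rw [div_le_div_iff₀ (by positivity) (by positivity)]
    nlinarith
  have hsm' : (N : ℝ) ^ 2 * ∑ q ∈ Q1 ∪ Q2, pp N k q ^ 2 ≤ 1 / 2 := by
    refine hη1.trans ?_
    rw [div_le_iff₀ (by positivity)]
    have f1 : Real.exp (-(2 * Λ)) ≤ 1 := by
      rw [Real.exp_le_one_iff, hΛ]
      have : 0 ≤ C1 ^ 2 * lam / ε * 2 ^ (J - 1) := by positivity
      linarith
    linarith
  have hsm := hη1.trans hsmA
  -- second moment, arithmetic
  have r1 := ER_sq_ge h.sys h.N0 (G := G) (η := A / 2 / (8 * K4)) (by positivity)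
  have r1' : A / 2 * (3 / 4) ≤ ER (Q1 ∪ Q2) hit (fun ω => G ω ^ 2) := by
    refine le_trans ?_ r1
    have hx : A / 2 / (8 * K4) * EN (pp N k) (Q1 ∪ Q2)
        (fun ω : Fin N → Finset ℕ => G ω ^ 4) ≤ A / 2 / 8 := by
      calc _ ≤ A / 2 / (8 * K4) * K4 := mul_le_mul_of_nonneg_left hm4 (by positivity)
        _ = A / 2 / 8 := by field_simp
    have hy : 1 / (A / 2 / (8 * K4)) * ((N : ℝ) ^ 2 * ∑ q ∈ Q1 ∪ Q2, pp N k q ^ 2) ≤
        A / 2 / 8 := by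
      calc _ ≤ 1 / (A / 2 / (8 * K4)) * ((A / 2) ^ 2 / (64 * K4)) :=
            mul_le_mul_of_nonneg_left hsm (by positivity)
        _ = A / 2 / 8 := by field_simp; norm_num
    have hz : A / 2 ≤ EN (pp N k) (Q1 ∪ Q2) (fun ω : Fin N → Finset ℕ => G ω ^ 2) := h2nd
    linarith
  -- fourth moment, arithmetic
  have r4 : ER (Q1 ∪ Q2) hit (fun ω => G ω ^ 4) ≤ 2 * K4 := by
    have := ER_le h.sys h.N0 hsm' (Φ := fun ω => G ω ^ 4) fun ω _ => by positivity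
    linarith
  -- eighth moment, arithmetic
  have hGGM := h7 N (Option (Finset ℕ)) (pp N k) (Q1 ∪ Q2) (TT Q2)
    (ee (pp N k) Q1 β (Bm Q2 (ε * LX) J) J) (dd (hz δ0 LX bs)) (LX / 100) h.p0 h.p1
  have hE1 : 1 ≤ Real.exp (15 * (C2 * ε / δ0)) := Real.one_le_exp (by positivity)
  have r8 : ER (Q1 ∪ Q2) hit (fun ω => G ω ^ 8) ≤ Kb := by
    have f1 := ER_le h.sys h.N0 hsm' (Φ := fun ω => G ω ^ 8) fun ω _ => by positivity
    have f2 : EN (pp N k) (Q1 ∪ Q2) (fun ω : Fin N → Finset ℕ => G ω ^ 8) ≤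
        Real.exp (2040 * (C1 * lam / δ0 * Real.exp (255 * (C2 * ε / δ0)))) :=
      hGGM.1.trans (CoreT_eighth h5 h hsd hm8)
    have f3 := Real.exp_pos (2040 * (C1 * lam / δ0 * Real.exp (255 * (C2 * ε / δ0))))
    rw [hKb]
    nlinarith
  -- the updated configurations
  have rU : ∀ i : Fin N, N * ER (Q1 ∪ Q2) hit (fun ω => G (Function.update ω i ∅) ^ 2 *
      uu (pp N k) Q2 β ((2 * C2 + 1) * (ε * LX)) (ω i)) ≤ A / 2 / 4 := by
    intro i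
    have f1 := ER_le h.sys h.N0 hsm' (Φ := fun ω => G (Function.update ω i ∅) ^ 2 *
      uu (pp N k) Q2 β ((2 * C2 + 1) * (ε * LX)) (ω i))
      fun ω _ => mul_nonneg (sq_nonneg _) (uu_nonneg _ _)
    have f2 := EN_update_mul (Q := Q1 ∪ Q2) (pp N k) (fun ω => G ω ^ 2)
      (uu (pp N k) Q2 β ((2 * C2 + 1) * (ε * LX))) i
    rw [f2] at f1
    have f3 := mul_le_mul_of_nonneg_left f1 (Nat.cast_nonneg N)
    have f4 := hU i
    linarith
  have rU2 : ∀ i : Fin N, ER (Q1 ∪ Q2) hit (fun ω => (G (Function.update ω i ∅) ^ 2 *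
      uu (pp N k) Q2 β ((2 * C2 + 1) * (ε * LX)) (ω i)) ^ 2) ≤ Kb := by
    intro i
    have f1 := ER_le h.sys h.N0 hsm' (Φ := fun ω => (G (Function.update ω i ∅) ^ 2 *
      uu (pp N k) Q2 β ((2 * C2 + 1) * (ε * LX)) (ω i)) ^ 2)
      fun ω _ => sq_nonneg _
    have f2 := EN_update_mul (Q := Q1 ∪ Q2) (pp N k) (fun ω => G ω ^ 4)
      (fun ω => uu (pp N k) Q2 β ((2 * C2 + 1) * (ε * LX)) ω ^ 2) i
    have f3 : (fun ω : Fin N → Finset ℕ => (G (Function.update ω i ∅) ^ 2 *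
        uu (pp N k) Q2 β ((2 * C2 + 1) * (ε * LX)) (ω i)) ^ 2) =
        fun ω => G (Function.update ω i ∅) ^ 4 *
          uu (pp N k) Q2 β ((2 * C2 + 1) * (ε * LX)) (ω i) ^ 2 := by
      funext ω
      ring
    rw [f3] at f1 ⊢
    have f2' : EN (pp N k) (Q1 ∪ Q2) (fun ω : Fin N → Finset ℕ =>
        G (Function.update ω i ∅) ^ 4 *
          uu (pp N k) Q2 β ((2 * C2 + 1) * (ε * LX)) (ω i) ^ 2) =
        E1 (pp N k) (Q1 ∪ Q2) (fun ω => uu (pp N k) Q2 β ((2 * C2 + 1) * (ε * LX)) ω ^ 2) *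
        EN (pp N k) (Q1 ∪ Q2) (fun ω : Fin N → Finset ℕ => G (Function.update ω i ∅) ^ 4) := f2
    rw [f2'] at f1
    have g1 := h6 (pp N k) Q1 Q2 β (Bm Q2 (ε * LX) J) J _ ((2 * C2 + 1) * (ε * LX)) hsd
    have g2 : (4 * ∏ q ∈ Q1, (1 - pp N k q)) * Real.exp (15 * ∑ q ∈ Q2, pp N k q) ≤
        1 / 4 * Real.exp (15 * (C2 * ε / δ0)) := by
      refine mul_le_mul hsd.a1 ?_ (Real.exp_pos _).le (by norm_num)
      apply Real.exp_le_exp.2
      have := sum_p_Q2 h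
      linarith
    have g3 := hGGM.2 i
    have g4 : ∑ s ∈ TT Q2, |ee (pp N k) Q1 β (Bm Q2 (ε * LX) J) J s ∅| ≤ 2 := by
      have := sum_abs_ee hsd ∅
      rw [hsd.be, empty_inter, card_empty, pow_zero] at this
      linarith
    have g5 : (∑ s ∈ TT Q2, |ee (pp N k) Q1 β (Bm Q2 (ε * LX) J) J s ∅|) ^ 4 ≤ 16 := by
      have := pow_le_pow_left₀ (sum_nonneg fun _ _ => abs_nonneg _) g4 4
      linarith
    have g6 := CoreT_fourth h hsd
    rw [← hK4] at g6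
    have g7 : 0 ≤ (E1 (pp N k) (Q1 ∪ Q2) (fun ω => (∑ s ∈ TT Q2,
        |ee (pp N k) Q1 β (Bm Q2 (ε * LX) J) J s ω|) ^ 4)) ^ (N - 1) :=
      pow_nonneg (E1_nonneg h.p0 h.p1 fun _ _ => by positivity) _
    have g8 : EN (pp N k) (Q1 ∪ Q2) (fun ω : Fin N → Finset ℕ =>
        G (Function.update ω i ∅) ^ 4) ≤ 16 * K4 :=
      g3.trans (mul_le_mul g5 g6 g7 (by norm_num))
    have g9 : E1 (pp N k) (Q1 ∪ Q2)
        (fun ω => uu (pp N k) Q2 β ((2 * C2 + 1) * (ε * LX)) ω ^ 2) ≤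
        4 * Real.exp (15 * (C2 * ε / δ0)) := by linarith
    have g10 : 0 ≤ EN (pp N k) (Q1 ∪ Q2) (fun ω : Fin N → Finset ℕ =>
        G (Function.update ω i ∅) ^ 4) := EN_nonneg h.p0 h.p1 fun _ _ => by positivity
    have g11 := mul_le_mul g9 g8 g10 (by positivity)
    have g12 : K4 ≤ Real.exp (2040 * (C1 * lam / δ0 * Real.exp (255 * (C2 * ε / δ0)))) := by
      rw [hK4]
      apply Real.exp_le_exp.2
      have e1 : Real.exp (15 * (C2 * ε / δ0)) ≤ Real.exp (255 * (C2 * ε / δ0)) := by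
        apply Real.exp_le_exp.2
        have : 0 ≤ C2 * ε / δ0 := by positivity
        linarith
      have e2 : 0 ≤ C1 * lam / δ0 := by positivity
      have e3 := mul_le_mul_of_nonneg_left e1 e2
      have e4 : 0 ≤ C1 * lam / δ0 * Real.exp (15 * (C2 * ε / δ0)) := by positivity
      linarith
    have g13 := mul_le_mul_of_nonneg_left g12
      (show 0 ≤ 128 * Real.exp (15 * (C2 * ε / δ0)) by positivity)
    rw [hKb]
    linarith
  -- the counting theorem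
  have hA16 : Real.exp (-Λ) / 16 ≤ A / 2 / 8 := by linarith
  have key := h8 N (Q1 ∪ Q2) hit ι I W τ (Real.exp (LX / 2)) M κ h.N0 hM hκ hW hτ htr G
    (uu (pp N k) Q2 β ((2 * C2 + 1) * (ε * LX))) (fun ω _ => uu_nonneg _ ω)
    (uu_one h hsd) hG2l hG4l hUl (A / 2) K4 Kb (by positivity) hK40 hKb0 r1' r4 r8 rU rU2
    (hs1.trans (mul_le_mul_of_nonneg_left hA16 hM)) hs2
  refine le_trans ?_ key
  refine mul_le_mul_of_nonneg_right ?_ hM
  refine div_le_div_of_nonneg_right ?_ (by positivity)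
  exact pow_le_pow_left₀ (by positivity) (by linarith) 2

end Pool.Agent.PTr
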