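import Pool.Agent.Lib.PTr.Defs

/-!
# Coset averages (module Coset)
-/

set_option autoImplicit false

namespace Pool.Agent.PTr

open Finset Pool.Agent.GapSieve Pool.Agent.PosProp

/-- average of `H` over the part of the coset `g K` outside `E` -/
private noncomputable def av {G : Type} [CommGroup G] [DecidableEq G] (K : Finset G) (H : G → ℝ)
    (E : Finset G) (g : G) : ℝ :=
  (((K.filter (fun k => g * k ∉ E)).card : ℝ))⁻¹ * ∑ k ∈ K.filter (fun k => g * k ∉ E), H (g * k)

private lemma sum_shift {G : Type} [CommGroup G] [DecidableEq G] (K : Finset G)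
    (hmul : ∀ x ∈ K, ∀ y ∈ K, x * y ∈ K) (hinv : ∀ x ∈ K, x⁻¹ ∈ K) (E : Finset G)
    (g k0 : G) (hk0 : k0 ∈ K) (F : G → ℝ) :
    ∑ k ∈ K.filter (fun k => g * k0 * k ∉ E), F (g * k0 * k) =
      ∑ k ∈ K.filter (fun k => g * k ∉ E), F (g * k) := by
  refine Finset.sum_bij (fun k _ => k0 * k) ?_ ?_ ?_ ?_
  · intro k hk
    rw [mem_filter] at hk ⊢
    exact ⟨hmul _ hk0 _ hk.1, by rw [← mul_assoc]; exact hk.2⟩
  · intro k _ k' _ h
    exact mul_left_cancel h
  · intro k hk
    rw [mem_filter] at hk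
    refine ⟨k0⁻¹ * k, ?_, ?_⟩
    · rw [mem_filter]
      refine ⟨hmul _ (hinv _ hk0) _ hk.1, ?_⟩
      have : g * k0 * (k0⁻¹ * k) = g * k := by
        rw [mul_assoc, mul_inv_cancel_left]
      rw [this]; exact hk.2
    · exact mul_inv_cancel_left _ _
  · intro k _
    rw [← mul_assoc]

private lemma card_shift {G : Type} [CommGroup G] [DecidableEq G] (K : Finset G)
    (hmul : ∀ x ∈ K, ∀ y ∈ K, x * y ∈ K) (hinv : ∀ x ∈ K, x⁻¹ ∈ K) (E : Finset G)
    (g k0 : G) (hk0 : k0 ∈ K) :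
    ((K.filter (fun k => g * k0 * k ∉ E)).card : ℝ) =
      ((K.filter (fun k => g * k ∉ E)).card : ℝ) := by
  have h := sum_shift K hmul hinv E g k0 hk0 (fun _ => (1 : ℝ))
  simpa using h

theorem Coset_p : CosetStmt := by
  intro G _ _ _ K ψ H E m h1 hmul hinv hψ hne hm h2m hH
  obtain ⟨k0, hk0, hk0n⟩ := hne
  have hKpos : (0 : ℝ) < (K.card : ℝ) := by
    exact_mod_cast Finset.card_pos.mpr ⟨1, h1⟩
  -- lower bound for the number of good `k`
  have hn : ∀ g : G, (K.card : ℝ) / 2 ≤ ((K.filter (fun k => g * k ∉ E)).card : ℝ) := by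
    intro g
    have hs : (K.filter (fun k => g * k ∈ E)).card + (K.filter (fun k => g * k ∉ E)).card
        = K.card := Finset.card_filter_add_card_filter_not (s := K) (fun k => g * k ∈ E)
    have h3 := hm g
    have h4 : K.card ≤ 2 * (K.filter (fun k => g * k ∉ E)).card := by omega
    have h5 : (K.card : ℝ) ≤ 2 * ((K.filter (fun k => g * k ∉ E)).card : ℝ) := by
      exact_mod_cast h4
    linarith
  have hnpos : ∀ g : G, (0 : ℝ) < ((K.filter (fun k => g * k ∉ E)).card : ℝ) := fun g =>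
    lt_of_lt_of_le (by positivity) (hn g)
  have ha_shift : ∀ g : G, ∀ k ∈ K, av K H E (g * k) = av K H E g := by
    intro g k hk
    unfold av
    rw [card_shift K hmul hinv E g k hk, sum_shift K hmul hinv E g k hk H]
  have ha_eq : ∀ g : G, g ∉ E → av K H E g = H g := by
    intro g hg
    unfold av
    have : ∑ k ∈ K.filter (fun k => g * k ∉ E), H (g * k) =
        ∑ k ∈ K.filter (fun k => g * k ∉ E), H g := by
      refine Finset.sum_congr rfl (fun k hk => ?_)
      rw [mem_filter] at hk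
      exact hH g k hk.1 hg hk.2
    rw [this, Finset.sum_const, nsmul_eq_mul, ← mul_assoc, inv_mul_cancel₀ (hnpos g).ne', one_mul]
  -- the coset average is orthogonal to `ψ`
  have hzero : ∑ g, ((av K H E g : ℝ) : ℂ) * ψ g = 0 := by
    have h3 : ∑ g, ((av K H E g : ℝ) : ℂ) * ψ g =
        ψ k0 * ∑ g, ((av K H E g : ℝ) : ℂ) * ψ g := by
      calc ∑ g, ((av K H E g : ℝ) : ℂ) * ψ g
          = ∑ g, ((av K H E (g * k0) : ℝ) : ℂ) * ψ (g * k0) :=
            (Equiv.sum_comp (Equiv.mulRight k0)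
              (fun g => ((av K H E g : ℝ) : ℂ) * ψ g)).symm
        _ = ∑ g, ψ k0 * (((av K H E g : ℝ) : ℂ) * ψ g) := by
            refine Finset.sum_congr rfl (fun g _ => ?_)
            rw [ha_shift g k0 hk0, map_mul]; ring
        _ = ψ k0 * ∑ g, ((av K H E g : ℝ) : ℂ) * ψ g := by rw [Finset.mul_sum]
    have h4 : (1 - ψ k0) * ∑ g, ((av K H E g : ℝ) : ℂ) * ψ g = 0 := by
      rw [sub_mul, one_mul, ← h3, sub_self]
    rcases mul_eq_zero.mp h4 with h5 | h5
    · exact absurd (sub_eq_zero.mp h5).symm hk0n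
    · exact h5
  -- rewrite the sum
  have hrew : ∑ g, (H g : ℂ) * ψ g = ∑ g ∈ E, ((H g - av K H E g : ℝ) : ℂ) * ψ g := by
    have h3 : ∑ g, (H g : ℂ) * ψ g = ∑ g, ((H g - av K H E g : ℝ) : ℂ) * ψ g := by
      have : ∑ g, ((H g - av K H E g : ℝ) : ℂ) * ψ g
          = ∑ g, (H g : ℂ) * ψ g - ∑ g, ((av K H E g : ℝ) : ℂ) * ψ g := by
        rw [← Finset.sum_sub_distrib]
        refine Finset.sum_congr rfl (fun g _ => ?_)
        push_cast; ring
      rw [this, hzero, sub_zero]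
    rw [h3]
    refine (Finset.sum_subset (Finset.subset_univ E) ?_).symm
    intro g _ hg
    rw [ha_eq g hg, sub_self, Complex.ofReal_zero, zero_mul]
  have hnorm : ‖∑ g, (H g : ℂ) * ψ g‖ ≤ ∑ g ∈ E, |H g| + ∑ g ∈ E, |av K H E g| := by
    rw [hrew, ← Finset.sum_add_distrib]
    refine (norm_sum_le _ _).trans (Finset.sum_le_sum (fun g _ => ?_))
    rw [norm_mul, hψ g, mul_one, Complex.norm_real, Real.norm_eq_abs]
    exact abs_sub _ _
  -- the averages on `E`
  have hE : (K.card : ℝ) * ∑ g ∈ E, |av K H E g| ≤ m * ∑ g, |av K H E g| := by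
    have h3 : (K.card : ℝ) * ∑ g ∈ E, |av K H E g|
        = ∑ k ∈ K, ∑ g, (if g * k ∈ E then |av K H E g| else 0) := by
      have h4 : ∀ k ∈ K, ∑ g, (if g * k ∈ E then |av K H E g| else 0)
          = ∑ g ∈ E, |av K H E g| := by
        intro k hk
        have h5 : ∑ g ∈ E, |av K H E g| = ∑ g, (if g ∈ E then |av K H E g| else 0) := by
          rw [Finset.sum_ite_mem, Finset.univ_inter]
        rw [h5, ← Equiv.sum_comp (Equiv.mulRight k)
          (fun g => if g ∈ E then |av K H E g| else 0)]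
        refine Finset.sum_congr rfl (fun g _ => ?_)
        simp only [Equiv.coe_mulRight]
        rw [ha_shift g k hk]
      rw [Finset.sum_congr rfl h4, Finset.sum_const, nsmul_eq_mul]
    rw [h3, Finset.sum_comm, Finset.mul_sum]
    refine Finset.sum_le_sum (fun g _ => ?_)
    rw [← Finset.sum_filter, Finset.sum_const, nsmul_eq_mul]
    refine mul_le_mul_of_nonneg_right ?_ (abs_nonneg _)
    exact_mod_cast hm g
  have hall : ∑ g, |av K H E g| ≤ 2 * ∑ g, |H g| := by
    have h3 : ∀ g : G, |av K H E g| ≤ 2 / (K.card : ℝ) * ∑ k ∈ K, |H (g * k)| := by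
      intro g
      unfold av
      rw [abs_mul, abs_of_nonneg (inv_nonneg.mpr (hnpos g).le)]
      refine mul_le_mul ?_ ?_ (abs_nonneg _) (by positivity)
      · rw [inv_le_comm₀ (hnpos g) (by positivity), inv_div]
        exact hn g
      · refine (Finset.abs_sum_le_sum_abs _ _).trans ?_
        exact Finset.sum_le_sum_of_subset_of_nonneg (Finset.filter_subset _ _)
          (fun _ _ _ => abs_nonneg _)
    have h4 : ∑ g, ∑ k ∈ K, |H (g * k)| = (K.card : ℝ) * ∑ g, |H g| := by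
      rw [Finset.sum_comm]
      have : ∀ k ∈ K, ∑ g, |H (g * k)| = ∑ g, |H g| := fun k _ =>
        Equiv.sum_comp (Equiv.mulRight k) (fun g => |H g|)
      rw [Finset.sum_congr rfl this, Finset.sum_const, nsmul_eq_mul]
    calc ∑ g, |av K H E g| ≤ ∑ g, 2 / (K.card : ℝ) * ∑ k ∈ K, |H (g * k)| :=
          Finset.sum_le_sum (fun g _ => h3 g)
      _ = 2 / (K.card : ℝ) * ((K.card : ℝ) * ∑ g, |H g|) := by rw [← Finset.mul_sum, h4]
      _ = 2 * ∑ g, |H g| := by field_simp
  refine hnorm.trans ?_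
  have hfin : ∑ g ∈ E, |av K H E g| ≤ 2 * (m : ℝ) / (K.card : ℝ) * ∑ g, |H g| := by
    have h5 : (K.card : ℝ) * ∑ g ∈ E, |av K H E g| ≤ m * (2 * ∑ g, |H g|) :=
      hE.trans (mul_le_mul_of_nonneg_left hall (Nat.cast_nonneg m))
    have h6 : 2 * (m : ℝ) / (K.card : ℝ) * ∑ g, |H g| = (m * (2 * ∑ g, |H g|)) / K.card := by
      ring
    rw [h6, le_div_iff₀ hKpos]
    linarith
  linarith

end Pool.Agent.PTr
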