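import Pool.Agent.Lib.PTr.Defs

/-!
# The counting theorem for a weighted family (module CountT)
-/

set_option autoImplicit false

namespace Pool.Agent.PTr

open Finset Pool.Agent.GapSieve Pool.Agent.PosProp

private lemma ER_congr' {N : ℕ} {Q : Finset ℕ} {hit : ℕ → Fin N → ℕ → Prop}
    {Φ Ψ : (Fin N → Finset ℕ) → ℝ} (h : ∀ ω, Φ ω = Ψ ω) : ER Q hit Φ = ER Q hit Ψ := by
  have : Φ = Ψ := funext h
  rw [this]

open Classical in
/-- **CountT** -/
theorem CountT_p : CountTStmt := by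
  intro N Q hit ι I W τ D M κ hN hM hκ hW hτ hT G u hu0 hu1 hG2 hG4 hGi a K4 Kb ha hK4 hKb
    h1 h2 h3 hU hU2 hc1 hc2
  have hNR : (0 : ℝ) < N := by exact_mod_cast hN
  -- second moment
  have e1 := (abs_le.1 (hT _ hG2)).1
  have e1' : ER Q hit (fun ω => (G ω ^ 2) ^ 2) = ER Q hit (fun ω => G ω ^ 4) :=
    ER_congr' fun ω => by ring
  have e1'' : κ * √(ER Q hit (fun ω => (G ω ^ 2) ^ 2)) ≤ κ * √(2 * K4) := by
    rw [e1']
    exact mul_le_mul_of_nonneg_left (Real.sqrt_le_sqrt h2) hκ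
  -- fourth moment
  have e4 := (abs_le.1 (hT _ hG4)).2
  have e4' : ER Q hit (fun ω => (G ω ^ 4) ^ 2) = ER Q hit (fun ω => G ω ^ 8) :=
    ER_congr' fun ω => by ring
  have e4'' : κ * √(ER Q hit (fun ω => (G ω ^ 4) ^ 2)) ≤ κ * √Kb := by
    rw [e4']
    exact mul_le_mul_of_nonneg_left (Real.sqrt_le_sqrt h3) hκ
  have q4 : ∑ j ∈ I, W j * G (τ j) ^ 4 ≤ M * (3 * K4) := by
    have := mul_le_mul_of_nonneg_left h2 hM
    nlinarith
  -- unhit sites
  have hui : ∀ i : Fin N, ∑ j ∈ I, W j * (G (Function.update (τ j) i ∅) ^ 2 * u (τ j i)) ≤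
      M * (a / (4 * N)) + κ * √Kb := by
    intro i
    have r1 := (abs_le.1 (hT _ (hGi i))).2
    have r2 : κ * √(ER Q hit (fun ω => (G (Function.update ω i ∅) ^ 2 * u (ω i)) ^ 2)) ≤
        κ * √Kb := mul_le_mul_of_nonneg_left (Real.sqrt_le_sqrt (hU2 i)) hκ
    have r3 : ER Q hit (fun ω => G (Function.update ω i ∅) ^ 2 * u (ω i)) ≤ a / (4 * N) := by
      rw [le_div_iff₀ (by positivity)]
      have := hU i
      linarith
    have r4 := mul_le_mul_of_nonneg_left r3 hM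
    linarith
  have hsumi : ∑ i : Fin N, ∑ j ∈ I, W j * (G (Function.update (τ j) i ∅) ^ 2 * u (τ j i)) ≤
      M * (a / 4) + N * (κ * √Kb) := by
    calc ∑ i : Fin N, ∑ j ∈ I, W j * (G (Function.update (τ j) i ∅) ^ 2 * u (τ j i))
        ≤ ∑ _i : Fin N, (M * (a / (4 * N)) + κ * √Kb) := sum_le_sum fun i _ => hui i
      _ = _ := by
          rw [sum_const, card_univ, Fintype.card_fin, nsmul_eq_mul]
          field_simp
  -- pointwise inequality
  set good := I.filter fun j => ∀ i, τ j i ≠ ∅ with hgood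
  have hpt : ∀ j ∈ I, W j * G (τ j) ^ 2 ≤
      (if ∀ i, τ j i ≠ ∅ then W j * G (τ j) ^ 2 else 0) +
      ∑ i, W j * (G (Function.update (τ j) i ∅) ^ 2 * u (τ j i)) := by
    intro j hj
    have hnn : ∀ i ∈ (univ : Finset (Fin N)),
        0 ≤ W j * (G (Function.update (τ j) i ∅) ^ 2 * u (τ j i)) := fun i _ =>
      mul_nonneg (hW j hj) (mul_nonneg (sq_nonneg _) (hu0 _ (mem_Om.1 (hτ j hj) i)))
    by_cases hc : ∀ i, τ j i ≠ ∅
    · rw [if_pos hc]
      have := sum_nonneg hnn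
      linarith
    · rw [if_neg hc]
      push Not at hc
      obtain ⟨i, hi⟩ := hc
      have h5 : Function.update (τ j) i ∅ = τ j := by
        rw [← hi, Function.update_eq_self]
      have h6 := single_le_sum hnn (mem_univ i)
      have h7 : W j * G (τ j) ^ 2 ≤ W j * (G (Function.update (τ j) i ∅) ^ 2 * u (τ j i)) := by
        rw [h5, hi]
        refine mul_le_mul_of_nonneg_left ?_ (hW j hj)
        nlinarith [sq_nonneg (G (τ j))]
      simpa using h7.trans h6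
  have hsum : ∑ j ∈ I, W j * G (τ j) ^ 2 ≤ ∑ j ∈ good, W j * G (τ j) ^ 2 +
      ∑ i : Fin N, ∑ j ∈ I, W j * (G (Function.update (τ j) i ∅) ^ 2 * u (τ j i)) := by
    calc ∑ j ∈ I, W j * G (τ j) ^ 2
        ≤ ∑ j ∈ I, ((if ∀ i, τ j i ≠ ∅ then W j * G (τ j) ^ 2 else 0) +
          ∑ i, W j * (G (Function.update (τ j) i ∅) ^ 2 * u (τ j i))) := sum_le_sum hpt
      _ = _ := by
          rw [sum_add_distrib, sum_comm, hgood, sum_filter]
  have hlow : M * (a / 4) ≤ ∑ j ∈ good, W j * G (τ j) ^ 2 := by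
    have h5 : M * (a * (3 / 4)) ≤ M * ER Q hit (fun ω => G ω ^ 2) :=
      mul_le_mul_of_nonneg_left h1 hM
    have h6 : κ * (√(2 * K4) + N * √Kb) = κ * √(2 * K4) + N * (κ * √Kb) := by ring
    have h7 : 0 ≤ M * a := mul_nonneg hM ha.le
    rw [h6] at hc1
    nlinarith
  -- Cauchy-Schwarz
  have hWg : ∀ j ∈ good, 0 ≤ W j := fun j hj => hW j (mem_filter.1 hj).1
  have hCS : (∑ j ∈ good, W j * G (τ j) ^ 2) ^ 2 ≤
      (∑ j ∈ good, W j) * ∑ j ∈ good, W j * G (τ j) ^ 4 := by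
    have h5 := sum_mul_sq_le_sq_mul_sq good (fun j => √(W j)) (fun j => √(W j) * G (τ j) ^ 2)
    have h6 : ∑ j ∈ good, √(W j) * (√(W j) * G (τ j) ^ 2) = ∑ j ∈ good, W j * G (τ j) ^ 2 :=
      sum_congr rfl fun j hj => by
        rw [← mul_assoc, Real.mul_self_sqrt (hWg j hj)]
    have h7 : ∑ j ∈ good, √(W j) ^ 2 = ∑ j ∈ good, W j :=
      sum_congr rfl fun j hj => Real.sq_sqrt (hWg j hj)
    have h8 : ∑ j ∈ good, (√(W j) * G (τ j) ^ 2) ^ 2 = ∑ j ∈ good, W j * G (τ j) ^ 4 :=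
      sum_congr rfl fun j hj => by
        rw [mul_pow, Real.sq_sqrt (hWg j hj)]
        ring
    rw [h6, h7, h8] at h5
    exact h5
  have hgB : ∑ j ∈ good, W j * G (τ j) ^ 4 ≤ ∑ j ∈ I, W j * G (τ j) ^ 4 :=
    sum_le_sum_of_subset_of_nonneg (filter_subset _ _) fun j hj _ =>
      mul_nonneg (hW j hj) (by positivity)
  have hS0 : 0 ≤ ∑ j ∈ good, W j := sum_nonneg hWg
  have hfin : (M * (a / 4)) ^ 2 ≤ (∑ j ∈ good, W j) * (M * (3 * K4)) := by
    calc (M * (a / 4)) ^ 2 ≤ (∑ j ∈ good, W j * G (τ j) ^ 2) ^ 2 :=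
          pow_le_pow_left₀ (by positivity) hlow 2
      _ ≤ (∑ j ∈ good, W j) * ∑ j ∈ good, W j * G (τ j) ^ 4 := hCS
      _ ≤ _ := mul_le_mul_of_nonneg_left (hgB.trans q4) hS0
  rcases hM.eq_or_lt with hM0 | hM0
  · rw [← hM0, mul_zero]; exact hS0
  · have h5 : M * (a / 4) ^ 2 ≤ (∑ j ∈ good, W j) * (3 * K4) := by
      have h6 : M * (M * (a / 4) ^ 2) ≤ M * ((∑ j ∈ good, W j) * (3 * K4)) := by
        calc M * (M * (a / 4) ^ 2) = (M * (a / 4)) ^ 2 := by ring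
          _ ≤ _ := hfin
          _ = _ := by ring
      exact le_of_mul_le_mul_left h6 hM0
    rw [div_mul_eq_mul_div, div_le_iff₀ (by positivity)]
    nlinarith

end Pool.Agent.PTr
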