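import Pool.Agent.Lib.PTr.Lev
import Pool.Agent.Lib.PosProp.App1
import Pool.Agent.Lib.PrT.LDefs
import Pool.Agent.Lib.Linnik.Defs

/-!
# Prime values of the variable in a sieve of forms: definitions and module statements

**Theorem T.** For every integer `b ≠ 0` and every `lam` there are `c > 0`, `X0` such that for
`X ≥ X0` at least `c X / log X` primes `p ≤ X` have `|b + s p|` not prime for all integers `s` with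
`1 ≤ |s| ≤ lam log p`.

Every `XStmt` of this file is the goal of one module, `theorem X_p (h1 : ...) ... : XStmt`, whose
hypotheses are the `YStmt` named after `from` in the docstring, in that order. The docstring contains the proof.

Notation: `Q` is a finite set of primes, a configuration `ω : Fin N → Finset ℕ` assigns to each site
`i` the set `ω i ⊆ Q` of the primes which hit it, `conf Q hit n` is the configuration at the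
integer `n`, `ER Q hit Φ` the average of `Φ (conf Q hit t)` over all residues `t` modulo `∏ Q`.
-/

set_option autoImplicit false

namespace Pool.Agent.PTr

open Finset Pool.Agent.GapSieve Pool.Agent.PosProp

/-! ## definitions -/

/-- probability of keeping a prime -/
noncomputable def kp (q : ℕ) : ℝ := 1 - (q : ℝ)⁻¹

/-- thinning: each prime `q` is deleted from the configuration with probability `1 / q` -/
noncomputable def Th {N : ℕ} (Q : Finset ℕ) (Φ : (Fin N → Finset ℕ) → ℝ)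
    (ω : Fin N → Finset ℕ) : ℝ :=
  ∑ S ∈ Q.powerset, mu kp Q S * Φ (fun i => ω i ∩ S)

/-- hitting systems in which each prime hits each site in one class, which is a unit -/
structure PSys {N : ℕ} (Q : Finset ℕ) (hit : ℕ → Fin N → ℕ → Prop) : Prop where
  sys : HitSys Q (fun _ => 1) hit
  pr : ∀ q ∈ Q, q.Prime
  un : ∀ q ∈ Q, ∀ i t, hit q i t → ¬ q ∣ t

/-- Fourier coefficient of `x ↦ 1[x ≡ c mod P] f x` on the units modulo `R` -/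
noncomputable def hat (R P c : ℕ) (f : ℕ → ℝ) (χ : DirichletCharacter ℂ R) : ℂ :=
  ∑ x ∈ (range R).filter (fun x => x % P = c), (f x : ℂ) * χ⁻¹ ((x : ℕ) : ZMod R)

/-- sum over the primitive characters of conductor at most `F` -/
noncomputable def PSum (A : Finset ℕ) (w : ℕ → ℝ) (F : ℕ) : ℝ :=
  open Classical in ∑ f ∈ Icc 1 F, ∑ ψ : DirichletCharacter ℂ f,
    if ψ.IsPrimitive then ‖∑ n ∈ A, (w n : ℂ) * ψ ((n : ℕ) : ZMod f)‖ else 0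

/-- upper end of the ranges -/
noncomputable def NX (X : ℝ) : ℕ := ⌊4 * X⌋₊

/-- weights on the primes -/
noncomputable def wp (φ : ℝ → ℝ) (X : ℝ) (n : ℕ) : ℝ :=
  if n.Prime then Real.log n * φ (Real.log (n / X)) else 0

/-- the primes of `(X / 4, 4 X]` -/
noncomputable def PA (X : ℝ) : Finset ℕ :=
  (Icc 1 (NX X)).filter (fun n : ℕ => n.Prime ∧ X / 4 < n)

/-- the presieving modulus -/
noncomputable def PX (X : ℝ) : ℕ := primorial ⌊Real.log X / 64⌋₊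

/-- the range of the sites -/
noncomputable def KX (lam X : ℝ) : ℕ := ⌊lam * Real.log (4 * X)⌋₊

/-- the sites which survive the presieving in the class `c` -/
noncomputable def sites (b : ℤ) (K P c : ℕ) : Finset ℤ :=
  (Icc (-(K : ℤ)) K).filter (fun s => s ≠ 0 ∧ Int.gcd (b + s * c) P = 1)

/-- all forms `b + s n`, `1 ≤ |s| ≤ K`, have a prime factor at most `Y` -/
def gd (b : ℤ) (K : ℕ) (Y : ℝ) (n : ℕ) : Prop :=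
  ∀ s : ℤ, s ≠ 0 → |s| ≤ K → ∃ q : ℕ, q.Prime ∧ (q : ℝ) ≤ Y ∧ (q : ℤ) ∣ b + s * n

/-! ## Group C: the core (templates: `PosProp/*.lean`) -/

/-- **LevBet** (template `rep_bon`, `rep_bet` of `PosProp/Beta.lean`). For a block `I` with
`log q ≤ y` on `I`: `bon b |x ∩ I| = ∑_{j ≤ 2b} (-1)^j ∑_{T ⊆ I, |T| = j} 1[T ⊆ x]`
(`card_powersetCard`, see `rep_bon`), and `x ↦ 1[T ⊆ x]` is an atom of level `∏ T ≤ exp (2 b y)`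
(`SLev.atom`: `T ⊆ x ∩ T ↔ T ⊆ x`). So `bet` has level
`∏_j exp (2 (bs + j) 2^{-j} l0)` (`SLev.prod`) and `∑_{j<n} 2 (bs + j) 2^{-j} ≤ 4 (bs + 1)`. -/
def LevBetStmt : Prop := ∀ (Q : Finset ℕ) (I : ℕ → Finset ℕ) (n bs : ℕ) (l0 : ℝ), 0 ≤ l0 →
  (∀ q ∈ Q, 0 < q) → (∀ j < n, I j ⊆ Q) →
  (∀ j < n, ∀ q ∈ I j, Real.log (q : ℕ) ≤ (1 / 2 : ℝ) ^ j * l0) →
  SLev Q (Real.exp (12 * ((bs : ℝ) + 1) * l0 + 1)) (bet I (fun j => bs + j) n)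

/-- **LevDh**: `Dh p Q2 hh` (`PosProp/XPart.lean`) is `∑_{A ⊆ Q2, lw A ≤ hh} coeff * chi p A`, and
`chi p A` is an atom of level `∏ A = exp (lw A)` (`chi_inter`, `PosProp/Fac.lean`). -/
def LevDhStmt : Prop := ∀ (Q Q2 : Finset ℕ) (p : ℕ → ℝ) (hh : ℝ), (∀ q ∈ Q, 0 < q) → Q2 ⊆ Q →
  SLev Q (Real.exp hh) (Dh p Q2 hh)

/-- **LevEe**: `ee none` is constant; `ee (some A) ω = -(bb ω * (xh A * chi p A ω))`,
`bb ω = β ω - const`; level `exp h0 * ∏ A = exp (h0 + lw A)` (`SLev.mul`, `SLev.add`,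
`SLev.const`). -/
def LevEeStmt : Prop := ∀ (Q Q1 Q2 : Finset ℕ) (p : ℕ → ℝ) (β : Finset ℕ → ℝ)
  (B : ℕ → Finset ℕ) (J : ℕ) (h0 : ℝ), (∀ q ∈ Q, 0 < q) → Q2 ⊆ Q → 0 ≤ h0 →
  SLev Q (Real.exp h0) β → ∀ s ∈ TT Q2, SLev Q (Real.exp (dd h0 s)) (ee p Q1 β B J s)

/-- **LevUu** (from `LevDhStmt`): `uu = 4 (β^2 Dh^2)`; `SLev.pow`, `SLev.mul`. -/
def LevUuStmt : Prop := ∀ (Q Q2 : Finset ℕ) (p : ℕ → ℝ) (β : Finset ℕ → ℝ) (h0 hh : ℝ),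
  (∀ q ∈ Q, 0 < q) → Q2 ⊆ Q → SLev Q (Real.exp h0) β →
  SLev Q (Real.exp (2 * h0 + 2 * hh)) (uu p Q2 β hh)

/-- **BetM8**: `bet_moment` (`PosProp/Beta.lean`) for `r ≤ 8`: same proof, `31` replaced by
`511 = 2^9 - 1`, `66` by `1026 = 2 * 511 + 4`. -/
def BetM8Stmt : Prop := ∀ (p : ℕ → ℝ) (I : ℕ → Finset ℕ) (n bs : ℕ) (C2 : ℝ),
  (∀ i < n, ∀ j < n, i ≠ j → Disjoint (I i) (I j)) →
  (∀ j < n, ∀ q ∈ I j, 0 ≤ p q) → (∀ j < n, ∀ q ∈ I j, p q ≤ 1 / 2) →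
  (∀ j < n, ∑ q ∈ I j, p q ≤ 2 * C2) → Real.exp (1026 * C2) ≤ 4 ^ bs →
  ∀ r : ℕ, 1 ≤ r → r ≤ 8 →
    E1 p ((range n).biUnion I) (fun ω => bet I (fun j => bs + j) n ω ^ r) ≤
      4 * ∏ q ∈ (range n).biUnion I, (1 - p q)

/-- **Mom8**: eighth moment of the absolute sum (template `fourth_le`, `PosProp/Sys2.lean`):
`∑ |ee| ≤ 1 + z`, `z = β 2^{|ω ∩ Q2|}` (`sum_abs_ee`), `(1 + z)^8 ≤ 1 + 255 (z + z^8)`,
`E z ≤ α exp (255 Σ)`, `E z^8 ≤ α E 256^{|ω ∩ Q2|} ≤ α exp (255 Σ)`. -/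
def Mom8Stmt : Prop := ∀ (p : ℕ → ℝ) (Q1 Q2 : Finset ℕ) (β : Finset ℕ → ℝ) (B : ℕ → Finset ℕ)
  (J : ℕ) (α : ℝ), SD p Q1 Q2 β B J α → E1 p Q1 (fun ω => β ω ^ 8) ≤ α →
  E1 p (Q1 ∪ Q2) (fun ω => (∑ s ∈ TT Q2, |ee p Q1 β B J s ω|) ^ 8) ≤
    Real.exp (510 * (α * Real.exp (255 * ∑ q ∈ Q2, p q)))

/-- **UuSq**: `uu^2 = 16 β^4 Dh^4`; `|Dh ω| ≤ 2^{|ω ∩ Q2|}` (`sum_abs_xh_chi` for `J = 1`,
`B = fun _ => Q2`: `xh p B 1 A = dco p B 0 A`); `E β^4 ≤ α`, `E 16^{|ω|} ≤ exp (15 Σ)`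
(independence: `E1_ind`). -/
def UuSqStmt : Prop := ∀ (p : ℕ → ℝ) (Q1 Q2 : Finset ℕ) (β : Finset ℕ → ℝ) (B : ℕ → Finset ℕ)
  (J : ℕ) (α hh : ℝ), SD p Q1 Q2 β B J α →
  E1 p (Q1 ∪ Q2) (fun ω => uu p Q2 β hh ω ^ 2) ≤ 16 * (α * Real.exp (15 * ∑ q ∈ Q2, p q))

/-- **GGM** (template `GG_pow_le`, `PosProp/Abs.lean`): `|GG T e d L ω| ≤ ∏_i ∑_s |e s (ω i)|`.
Eighth moment: `EN_prod`. For the updated configuration the factor of `i` is the constant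
`∑ |e s ∅|`, the others are as before: `EN_prod` with `g j = ` the constant for `j = i`. -/
def GGMStmt : Prop := ∀ (N : ℕ) (S : Type) (p : ℕ → ℝ) (Q : Finset ℕ) (T : Finset S)
  (e : S → Finset ℕ → ℝ) (d : S → ℝ) (L : ℝ), (∀ q ∈ Q, 0 ≤ p q) → (∀ q ∈ Q, p q ≤ 1) →
  EN p Q (fun ω : Fin N → Finset ℕ => GG T e d L ω ^ 8) ≤
    (E1 p Q (fun ω => (∑ s ∈ T, |e s ω|) ^ 8)) ^ N ∧
  ∀ i : Fin N, EN p Q (fun ω : Fin N → Finset ℕ => GG T e d L (Function.update ω i ∅) ^ 4) ≤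
    (∑ s ∈ T, |e s ∅|) ^ 4 * (E1 p Q (fun ω => (∑ s ∈ T, |e s ω|) ^ 4)) ^ (N - 1)

/-- **CountT** (template `count_good2`, `PosProp/Count.lean`). With `A1 = ∑ W G²`:
`A1 ≥ M (3/4) a - κ √(2 K4)`. For `j` with `τ j i = ∅` one has `update (τ j) i ∅ = τ j`, so
`G² ≤ Ui` there, `Ui ω = G (update ω i ∅)² u (ω i) ≥ 0`; `∑_i ∑ W Ui ≤ M a/4 + N κ √Kb`. Hence the
part of `A1` with all `τ j i ≠ ∅` is at least `M a/4`, and Cauchy-Schwarz with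
`∑ W G⁴ ≤ 2 K4 M + κ √Kb ≤ 3 K4 M`. The case `M = 0` is trivial. -/
def CountTStmt : Prop := ∀ (N : ℕ) (Q : Finset ℕ) (hit : ℕ → Fin N → ℕ → Prop) (ι : Type)
  (I : Finset ι) (W : ι → ℝ) (τ : ι → Fin N → Finset ℕ) (D M κ : ℝ), 0 < N → 0 ≤ M → 0 ≤ κ →
  (∀ j ∈ I, 0 ≤ W j) → (∀ j ∈ I, τ j ∈ Om N Q) →
  (∀ Φ : (Fin N → Finset ℕ) → ℝ, CLev Q D Φ →
    |∑ j ∈ I, W j * Φ (τ j) - M * ER Q hit Φ| ≤ κ * √(ER Q hit (fun ω => Φ ω ^ 2))) →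
  ∀ (G : (Fin N → Finset ℕ) → ℝ) (u : Finset ℕ → ℝ), (∀ ω ⊆ Q, 0 ≤ u ω) → 1 ≤ u ∅ →
  CLev Q D (fun ω => G ω ^ 2) → CLev Q D (fun ω => G ω ^ 4) →
  (∀ i, CLev Q D (fun ω => G (Function.update ω i ∅) ^ 2 * u (ω i))) →
  ∀ (a K4 Kb : ℝ), 0 < a → 0 < K4 → 0 ≤ Kb →
  a * (3 / 4) ≤ ER Q hit (fun ω => G ω ^ 2) → ER Q hit (fun ω => G ω ^ 4) ≤ 2 * K4 →
  ER Q hit (fun ω => G ω ^ 8) ≤ Kb →
  (∀ i : Fin N, N * ER Q hit (fun ω => G (Function.update ω i ∅) ^ 2 * u (ω i)) ≤ a / 4) →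
  (∀ i : Fin N, ER Q hit (fun ω => (G (Function.update ω i ∅) ^ 2 * u (ω i)) ^ 2) ≤ Kb) →
  κ * (√(2 * K4) + N * √Kb) ≤ M * (a / 8) → κ * √Kb ≤ M * K4 → open Classical in
  a ^ 2 / (16 * 3 * K4) * M ≤ ∑ j ∈ I with ∀ i, τ j i ≠ ∅, W j

/-- **CoreT** (template `posdens_core`, `PosProp/Core.lean`; from `LevBetStmt`, `LevEeStmt`,
`LevUuStmt`, `BetM8Stmt`, `Mom8Stmt`, `UuSqStmt`, `GGMStmt`, `CountTStmt`). `β`, `A`, `hsd`, `h2nd`,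
`h4`, `hU`, `hsm'` as in `posdens_core`, `G = GG (TT Q2) (ee ..) (dd (hz ..)) (LX / 100)`,
`u = uu .. ((2 C2 + 1) (ε LX))`, `a = A / 2`, `D = exp (LX / 2)`.
Levels: `GG_lev` with `SLev.site`, and with `SLev.upd` for the updated configuration; `CLev.pow`,
`CLev.mul`, `CLev.mono`. Second moment from below: `ER_sq_ge` as in `count_good`
(`PosProp/Count.lean`). Upper bounds: `ER_le` (`Count.lean`), `EN_update_mul` applied to `u` and to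
`u²` with `Φ = G²`, `G⁴`. Eighth moment: `GGM`, `Mom8`, `BetM8` (`r = 8`, as `SD.m4` in `Par.sd`),
`Par.Nα`, `sum_p_Q2`: `ER G⁸ ≤ 2 exp (2040 (..)) ≤ Kb`. `ER Ui² ≤ 2 E1 uu² EN G_i⁴ ≤
2 * 16 * (1/4) exp (15 C2 ε/δ0) * 16 * K4 ≤ Kb` (`α ≤ 1/4`, `∑ |ee s ∅| ≤ 2` by `sum_abs_ee`, and
`fourth_le` for the other sites, `exp(x)^(N-1) ≤ exp(x)^N`). -/
def CoreTStmt : Prop :=
  ∀ (N : ℕ) (Q1 Q2 : Finset ℕ) (k : ℕ → ℕ) (hit : ℕ → Fin N → ℕ → Prop)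
    (C1 C2 lam LX lq ε δ0 : ℝ) (J bs : ℕ),
    Par Q1 Q2 k hit C1 C2 lam LX lq ε δ0 J bs → Real.exp (1026 * C2) ≤ 4 ^ bs →
    ∀ (Λ K4 Kb : ℝ), Λ = 16 * (C1 ^ 2 * lam / ε * 2 ^ (J - 1)) →
    K4 = Real.exp (120 * (C1 * lam / δ0 * Real.exp (15 * (C2 * ε / δ0)))) →
    Kb = 128 * Real.exp (15 * (C2 * ε / δ0)) *
      Real.exp (2040 * (C1 * lam / δ0 * Real.exp (255 * (C2 * ε / δ0)))) →
    327680000 * (C1 ^ 2 * lam * (Real.exp (8 * C2) + 1)) * ε ≤ 1 →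
    (N : ℝ) ^ 2 * ∑ q ∈ Q1 ∪ Q2, pp N k q ^ 2 ≤ Real.exp (-(2 * Λ)) / (256 * K4) →
    2 * (LX / 100) + 2 * hz δ0 LX bs + 2 * ((2 * C2 + 1) * (ε * LX)) ≤ LX / 2 →
    ∀ (ι : Type) (I : Finset ι) (W : ι → ℝ) (τ : ι → Fin N → Finset ℕ) (M κ : ℝ),
      0 ≤ M → 0 ≤ κ → (∀ j ∈ I, 0 ≤ W j) → (∀ j ∈ I, τ j ∈ Om N (Q1 ∪ Q2)) →
      (∀ Φ : (Fin N → Finset ℕ) → ℝ, CLev (Q1 ∪ Q2) (Real.exp (LX / 2)) Φ →
        |∑ j ∈ I, W j * Φ (τ j) - M * ER (Q1 ∪ Q2) hit Φ| ≤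
          κ * √(ER (Q1 ∪ Q2) hit (fun ω => Φ ω ^ 2))) →
      κ * (√(2 * K4) + N * √Kb) ≤ M * (Real.exp (-Λ) / 16) → κ * √Kb ≤ M * K4 →
      open Classical in
      (Real.exp (-Λ) / 2) ^ 2 / (16 * 3 * K4) * M ≤ ∑ j ∈ I with ∀ i, τ j i ≠ ∅, W j

/-- the conclusion of the positive proportion theorem for weighted families -/
def PDT (C1 C2 lam ε c η : ℝ) : Prop :=
    ∀ (N : ℕ) (Q : Finset ℕ) (k : ℕ → ℕ) (hit : ℕ → Fin N → ℕ → Prop) (LX lq : ℝ),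
      HitSys Q k hit → 0 < N → 1 / η ≤ LX → 1 ≤ lq → lq ≤ η * LX → N * lq ≤ lam * LX →
      (∀ q ∈ Q, lq < Real.log (q : ℕ)) → (∀ q ∈ Q, Real.log (q : ℕ) ≤ ε * LX) →
      (∀ q ∈ Q, pp N k q ≤ 1 / 2) →
      (∀ u v, lq ≤ u → u ≤ v → v ≤ ε * LX →
        ∏ q ∈ Q with u < Real.log (q : ℕ) ∧ Real.log (q : ℕ) ≤ v, (1 - pp N k q) ≤ C1 * u / v) →
      (∀ v, 0 ≤ v → v ≤ ε * LX →
        ∑ q ∈ Q with Real.log (q : ℕ) ≤ v, pp N k q * Real.log q ≤ C2 * v) →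
      ∑ q ∈ Q, ((q : ℝ) ^ 2)⁻¹ ≤ 1 → (N : ℝ) ^ 2 * ∑ q ∈ Q, pp N k q ^ 2 ≤ η →
      ∀ (ι : Type) (I : Finset ι) (W : ι → ℝ) (τ : ι → Fin N → Finset ℕ) (M κ : ℝ),
        0 ≤ M → 0 ≤ κ → (∀ j ∈ I, 0 ≤ W j) → (∀ j ∈ I, τ j ∈ Om N Q) →
        (∀ Φ : (Fin N → Finset ℕ) → ℝ, CLev Q (Real.exp (LX / 2)) Φ →
          |∑ j ∈ I, W j * Φ (τ j) - M * ER Q hit Φ| ≤ κ * √(ER Q hit (fun ω => Φ ω ^ 2))) →
        κ * LX ≤ η * M → open Classical in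
        c * M ≤ ∑ j ∈ I with ∀ i, τ j i ≠ ∅, W j

/-- **PosDensT** (template `posdens`, `PosProp/PosDens.lean`; from `CoreTStmt`). Same parameters,
with `bs = ⌈1026 C2⌉₊`; `η` also small against the new conditions: since `1 ≤ LX` and
`N ≤ lam LX`, `κ (√(2 K4) + N √Kb) ≤ κ LX (√(2 K4) + lam √Kb) ≤ η M (√(2 K4) + lam √Kb)`, and
`κ √Kb ≤ κ LX √Kb ≤ η M √Kb`; level condition: `hz = g LX + 1`, `g ≤ ε ≤ 1/100`,
`(2 C2 + 1) ε ≤ 1/100`, `LX ≥ 10`. -/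
def PosDensTStmt : Prop := ∀ C1 C2 lam : ℝ, 1 ≤ C1 → 1 ≤ C2 → 1 ≤ lam →
  ∃ ε : ℝ, 0 < ε ∧ ε ≤ 1 / 100 ∧ ∃ c : ℝ, 0 < c ∧ ∃ η : ℝ, 0 < η ∧ PDT C1 C2 lam ε c η

/-! ## Group F: transfer from the uniform measure to a weighted set -/

/-- **ThLev**: by induction on `CLev`; `Th` is linear, and if `g (ω ∩ T) = g ω` for all `ω`, then
`Th Q g (ω ∩ T) = Th Q g ω` because `g (ω ∩ T ∩ S) = g (ω ∩ S ∩ T) = g (ω ∩ S)`. -/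
def ThLevStmt : Prop := ∀ (N : ℕ) (Q : Finset ℕ) (D : ℝ) (Φ : (Fin N → Finset ℕ) → ℝ),
  CLev Q D Φ → CLev Q D (Th Q Φ)

/-- **ThSq**: Cauchy-Schwarz; the weights `mu kp Q S` are nonnegative (`mu_nonneg`) with sum `1`
(`E_one`). -/
def ThSqStmt : Prop := ∀ (N : ℕ) (Q : Finset ℕ) (Φ : (Fin N → Finset ℕ) → ℝ)
  (ω : Fin N → Finset ℕ), (∀ q ∈ Q, 1 ≤ q) → Th Q Φ ω ^ 2 ≤ Th Q (fun ω => Φ ω ^ 2) ω

/-- **Units**: the thinned configuration at a random unit modulo `∏ Q` has the law of the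
configuration at a random residue. Both sides are linear in `Φ` and depend only on the values of
`Φ` on `Om N Q`, so take `Φ = 1[· = ω]`, `ω ∈ Om N Q` (write `Φ = ∑_{ω ∈ Om N Q} Φ ω 1[· = ω]`).
By `prod_add` (over `S ⊆ Q`) and `crt_prod` (`GapSieve/Crt.lean`) the left side is `∏_{q ∈ Q}` of
`∑_{a < q, q ∤ a} ((1 - 1/q) 1[∀ i, hit q i a ↔ q ∈ ω i] + (1/q) 1[∀ i, q ∉ ω i])`. With
`m = #{i : q ∈ ω i}` the local factor is `(1 - 1/q) (q - 1 - N) + (q - 1)/q = (1 - 1/q) (q - N)`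
for `m = 0` (the `N` hitting classes are distinct units), `1 - 1/q` for `m = 1`, `0` for `m ≥ 2`:
`(1 - 1/q)` times the local factor `site_sum` of `conf_count` (`GapSieve/Law.lean`). -/
def UnitsStmt : Prop := ∀ (N : ℕ) (Q : Finset ℕ) (hit : ℕ → Fin N → ℕ → Prop), PSys Q hit →
  ∀ Φ : (Fin N → Finset ℕ) → ℝ,
    ∑ t ∈ (range (∏ q ∈ Q, q)).filter (fun t => t.Coprime (∏ q ∈ Q, q)),
      Th Q Φ (conf Q hit t) = ((∏ q ∈ Q, q : ℕ).totient : ℝ) * ER Q hit Φ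

/-- **Coset**: put `n(g) = #{k ∈ K : g k ∉ E} ≥ |K| / 2` and
`a(g) = (1 / n(g)) ∑_{k ∈ K, g k ∉ E} H(g k)`. Then `a(g k) = a(g)` for `k ∈ K`,
`H(g) = a(g)` for `g ∉ E`, and `∑ a ψ = ∑ a(g k0) ψ(g k0) = ψ(k0) ∑ a ψ`, so `∑ a ψ = 0`. Hence
`∑ H ψ = ∑_{g ∈ E} (H - a) ψ`, and `∑_{g ∈ E} |a(g)| = (1/|K|) ∑_g |a(g)| #{k ∈ K : g k ∈ E} ≤
(m/|K|) ∑_g |a(g)| ≤ (m/|K|) (2/|K|) ∑_g ∑_{k ∈ K} |H(g k)| = (2 m/|K|) ∑_g |H g|`. -/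
def CosetStmt : Prop := ∀ (G : Type) [CommGroup G] [Fintype G] [DecidableEq G] (K : Finset G)
  (ψ : G →* ℂ) (H : G → ℝ) (E : Finset G) (m : ℕ), 1 ∈ K → (∀ x ∈ K, ∀ y ∈ K, x * y ∈ K) →
  (∀ x ∈ K, x⁻¹ ∈ K) → (∀ g : G, ‖ψ g‖ = 1) → (∃ k ∈ K, ψ k ≠ 1) →
  (∀ g : G, (K.filter (fun k => g * k ∈ E)).card ≤ m) → 2 * m ≤ K.card →
  (∀ g : G, ∀ k ∈ K, g ∉ E → g * k ∉ E → H (g * k) = H g) →
  ‖∑ g, (H g : ℂ) * ψ g‖ ≤ ∑ g ∈ E, |H g| + 2 * (m : ℝ) / (K.card : ℝ) * ∑ g, |H g|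

/-- **ClassSum**: the map `x ↦ x % M` from `{x < P M : x ≡ c mod P}` to `range M` is a bijection
(`P`, `M` coprime), and `x` is coprime to `P M` iff `x % M` is coprime to `M` (`c` is coprime to
`P`). -/
def ClassSumStmt : Prop := ∀ (P M c : ℕ) (f : ℕ → ℝ), 0 < P → 0 < M → P.Coprime M → c < P →
  c.Coprime P → (∀ t, f (t + M) = f t) →
  ∑ x ∈ (range (P * M)).filter (fun x => x % P = c ∧ x.Coprime (P * M)), f x =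
    ∑ t ∈ (range M).filter (fun t => t.Coprime M), f t

/-- **HatP** (from `UnitsStmt`, `ClassSumStmt`): `χ = changeLevel ψ` with `ψ` modulo `P`
(`χ.conductor ∣ P`, `DirichletCharacter.factorsThrough_iff_...`, `changeLevel`), so
`χ⁻¹ x = ψ⁻¹ c` for `x ≡ c` coprime to `R = P ∏ Q`, and `χ⁻¹ x = 0` otherwise; the sum of
`Th Q Φ (conf Q hit x)` over the coprime `x ≡ c` is `φ(∏ Q) ER Q hit Φ = 0`. The function
`t ↦ conf Q hit t` is periodic modulo `∏ Q` (`HitSys.per`). -/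
def HatPStmt : Prop := ∀ (N : ℕ) (Q : Finset ℕ) (hit : ℕ → Fin N → ℕ → Prop), PSys Q hit →
  ∀ P c : ℕ, 0 < P → P.Coprime (∏ q ∈ Q, q) → c < P → c.Coprime P →
  ∀ Φ : (Fin N → Finset ℕ) → ℝ, ER Q hit Φ = 0 →
  ∀ χ : DirichletCharacter ℂ (P * ∏ q ∈ Q, q), χ.conductor ∣ P →
    hat (P * ∏ q ∈ Q, q) P c (fun x => Th Q Φ (conf Q hit x)) χ = 0

/-- **HatZ**: by linearity (induction on `CLev`) `Φ` depends only on `ω ∩ T`, `∏ T ≤ D`. Put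
`m = P ∏ T`, `m ∣ R`, `m < χ.conductor`. If all units `k ≡ 1 mod m` had `χ k = 1` then `χ` would
factor through `m` (`DirichletCharacter.factorsThrough_iff_ker_unitsMap`) and the conductor would
divide `m`; so take `k ≡ 1 mod m` with `χ k ≠ 1`. The function `1[x ≡ c mod P] Φ (conf x)` is
invariant under `x ↦ k x` (it depends only on `x mod m`), so its Fourier coefficient `H` satisfies
`H = χ⁻¹(k) H`, `H = 0` (sum over `ZMod R`, or over its units, instead of `range R`). -/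
def HatZStmt : Prop := ∀ (N : ℕ) (Q : Finset ℕ) (hit : ℕ → Fin N → ℕ → Prop), PSys Q hit →
  ∀ P c : ℕ, 0 < P → P.Coprime (∏ q ∈ Q, q) → c < P →
  ∀ (D : ℝ) (Φ : (Fin N → Finset ℕ) → ℝ), CLev Q D Φ →
  ∀ χ : DirichletCharacter ℂ (P * ∏ q ∈ Q, q), (P : ℝ) * D < (χ.conductor : ℝ) →
    hat (P * ∏ q ∈ Q, q) P c (fun x => Φ (conf Q hit x)) χ = 0

/-- **KerQ** (kernel of the reduction modulo `R / q`). For `R = P ∏ Q`, `q ∈ Q`: the set `K` of the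
units `k` modulo `R` with `k ≡ 1 mod R/q` has `q - 1` elements (`φ(R) = φ(R/q) (q - 1)`, or Chinese
remainder theorem `R = (R/q) q`), and for a unit `g` and a residue `a` modulo `q` there is at most
one `k ∈ K` with `g k ≡ a mod q`. If `χ k = 1` for all `k ∈ K` then `χ` factors through `R / q`
(`DirichletCharacter.factorsThrough_iff_ker_unitsMap`), so `χ.conductor ∣ R / q` and
`¬ q ∣ χ.conductor`. -/
def KerQStmt : Prop := ∀ (Q : Finset ℕ) (P : ℕ), 0 < P → (∀ q ∈ Q, q.Prime) →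
  P.Coprime (∏ q ∈ Q, q) → ∀ q ∈ Q, ∃ K : Finset (ZMod (P * ∏ q ∈ Q, q))ˣ,
    (∀ k, k ∈ K ↔ (k : ZMod (P * ∏ q ∈ Q, q)).val ≡ 1 [MOD (P * ∏ q ∈ Q, q) / q]) ∧
    K.card = q - 1 ∧
    (∀ g : (ZMod (P * ∏ q ∈ Q, q))ˣ, ∀ k ∈ K, ∀ k' ∈ K,
      (g * k : (ZMod (P * ∏ q ∈ Q, q))ˣ).val.val ≡ (g * k' : (ZMod (P * ∏ q ∈ Q, q))ˣ).val.val
        [MOD q] → k = k') ∧
    (∀ χ : DirichletCharacter ℂ (P * ∏ q ∈ Q, q), q ∣ χ.conductor →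
      ∃ k ∈ K, χ ((k : (ZMod (P * ∏ q ∈ Q, q))ˣ) : ZMod (P * ∏ q ∈ Q, q)) ≠ 1)

/-- **HatBd** (from `CosetStmt`, `KerQStmt`, `UnitsStmt`, `ClassSumStmt`, `ThSqStmt`). Since
`χ.conductor ∣ P ∏ Q` and `¬ χ.conductor ∣ P`, some `q ∈ Q` divides the conductor. Apply `Coset`
in `G = (ZMod R)ˣ`, `R = P ∏ Q`, with `K` of `KerQ`, `ψ = χ⁻¹` on the units, `m = N`,
`H g = 1[g ≡ c mod P] F(g)`, `F(g) = Th Q Φ (conf Q hit g.val)`, `E = {g ≡ c : some site is hit by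
q at g}`: for `k ∈ K` with `g, g k ∉ E` and `g ≡ c`, no site is hit by `q` at `g`, `g k`, and the
other primes do not distinguish `g`, `g k`, so `conf` is the same. `#{k ∈ K : g k ∈ E} ≤ N` (one
class modulo `q` for each site). Cauchy-Schwarz: `∑_E |F| ≤ √#E √(∑ F²)`, `#E ≤ N φ(M)/(q - 1)`
(average over `K` of `#{k : g k ∈ E}`), `∑_{g ≡ c} F² ≤ ∑ Th Q Φ² = φ(M) ER Φ²`, `M = ∏ Q`. Total
`≤ (√(N/(q-1)) + 2 N/(q-1)) φ(M) √(ER Φ²) ≤ 3 √(N/(q-1)) φ(M) √(ER Φ²)`. -/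
def HatBdStmt : Prop := ∀ (N : ℕ) (Q : Finset ℕ) (hit : ℕ → Fin N → ℕ → Prop), PSys Q hit →
  ∀ P c : ℕ, 0 < P → P.Coprime (∏ q ∈ Q, q) → c < P → c.Coprime P →
  ∀ q0 : ℕ, (∀ q ∈ Q, q0 ≤ q) → 2 * N < q0 → ∀ Φ : (Fin N → Finset ℕ) → ℝ,
  ∀ χ : DirichletCharacter ℂ (P * ∏ q ∈ Q, q), ¬ χ.conductor ∣ P →
    ‖hat (P * ∏ q ∈ Q, q) P c (fun x => Th Q Φ (conf Q hit x)) χ‖ ≤
      3 * √((N : ℝ) / ((q0 : ℝ) - 1)) * ((∏ q ∈ Q, q : ℕ).totient : ℝ) *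
        √(ER Q hit (fun ω => Φ ω ^ 2))

/-- **FInv**: Fourier inversion, `DirichletCharacter.sum_char_inv_mul_char_eq` (see
`LogCh/EOrth.lean`). -/
def FInvStmt : Prop := ∀ (R P c : ℕ) (f : ℕ → ℝ), 0 < R → P ∣ R → (∀ t, f (t + R) = f t) →
  ∀ n : ℕ, n.Coprime R →
    (∑ χ : DirichletCharacter ℂ R, hat R P c f χ * χ ((n : ℕ) : ZMod R)) / (R.totient : ℂ) =
      if n % P = c then (f n : ℂ) else 0

/-- **CondW** (weighted form of `CONDSStmt` of `LogCh`, see `LogCh/EConds.lean`): the characters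
modulo `R` of conductor `f` are the `changeLevel ψ`, `ψ` primitive modulo `f`, with the same values
at the integers coprime to `R`. -/
def CondWStmt : Prop := ∀ (A : Finset ℕ) (w : ℕ → ℝ) (R F : ℕ), 0 < R →
  (∀ n ∈ A, n.Coprime R) →
  ∑ χ : DirichletCharacter ℂ R,
    (if χ.conductor ≤ F then ‖∑ n ∈ A, (w n : ℂ) * χ ((n : ℕ) : ZMod R)‖ else 0) ≤ PSum A w F

/-- **Transfer** (from `ThLevStmt`, `HatPStmt`, `HatZStmt`, `HatBdStmt`, `FInvStmt`, `CondWStmt`).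
Replace `Φ` by `Φ - ER Φ` (`Th` of a constant is the constant, level unchanged as `1 ≤ D`,
`ER (Φ - ER Φ)² ≤ ER Φ²`): assume `ER Φ = 0`. With `f n = Th Q Φ (conf Q hit n)`, `FInv` gives
`∑_{n ∈ A, n ≡ c} w(n) f(n) = (1/φ(R)) ∑_χ hat(χ) S(χ)`, `S(χ) = ∑_{n ∈ A} w(n) χ(n)`; `hat(χ) = 0`
if the conductor divides `P` or exceeds `P D`, else `HatBd`; `φ(R) = φ(P) φ(∏ Q)`; `CondW`. -/
def TransferStmt : Prop := ∀ (N : ℕ) (Q : Finset ℕ) (hit : ℕ → Fin N → ℕ → Prop), PSys Q hit →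
  ∀ P c : ℕ, 0 < P → P.Coprime (∏ q ∈ Q, q) → c < P → c.Coprime P →
  ∀ q0 : ℕ, (∀ q ∈ Q, q0 ≤ q) → 2 * N < q0 →
  ∀ (A : Finset ℕ) (w : ℕ → ℝ), (∀ n ∈ A, n.Coprime (P * ∏ q ∈ Q, q)) →
  ∀ (D : ℝ) (Φ : (Fin N → Finset ℕ) → ℝ), 1 ≤ D → CLev Q D Φ →
    |∑ n ∈ A.filter (fun n => n % P = c), w n * Th Q Φ (conf Q hit n) -
      (∑ n ∈ A.filter (fun n => n % P = c), w n) * ER Q hit Φ| ≤
      3 * √((N : ℝ) / ((q0 : ℝ) - 1)) / (P.totient : ℝ) * PSum A w ⌊(P : ℝ) * D⌋₊ *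
        √(ER Q hit (fun ω => Φ ω ^ 2))

/-! ## Group L: the mean value of `∑ w(p) χ(p)` (library `PrT` of helper70) -/

/-- **TB** (from `Pool.PrT.FinStmt`). `wp φ X` vanishes outside `X < n < 3 X` (`Hoh.Bump.zero`) and off
the primes, so the sums over `PA X` and over the primes of `Icc 1 ⌊3 X⌋₊` agree. The terms `f ≥ 2`
of `PSum` are `Pool.PrT.PS F ..`; the term `f = 1` is at most
`∑ wp ≤ θ(4 X) ≤ C X` (`Chebyshev.theta_le_log4_mul_x`). -/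
def TBStmt : Prop := ∀ φ : ℝ → ℝ, Hoh.Bump φ → ∃ C X0 : ℝ, 0 < C ∧ ∀ X : ℝ, X0 ≤ X → ∀ F : ℕ,
  (F : ℝ) ^ 20 ≤ X → PSum (PA X) (wp φ X) F ≤ C * X * Real.log X ^ 4

/-! ## Group S: assembly -/

/-- **HitB**: `q > Z` does not divide `b`, `s i`, `s i - s j` (`i ≠ j`). -/
def HitBStmt : Prop := ∀ (b : ℤ) (Z K N : ℕ) (y : ℝ) (s : Fin N → ℤ), b ≠ 0 → |b| ≤ Z →
  2 * K ≤ Z → N ≤ Z → Function.Injective s → (∀ i, s i ≠ 0 ∧ |s i| ≤ K) →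
  PSys (Qa 1 Z y) (fun q (i : Fin N) t => (q : ℤ) ∣ b + s i * t)

/-- **Surv**: for each `s` the number of the `c < P` coprime to `P` with `b + s c` coprime to `P`
is `φ(P)` times a product over `r ≤ z` of factors `≤ 1 - 1/(r-1) ≤ 1 - 1/r` for `r ∤ b s` and
`≤ 1` for `r ∣ b s`; so at most `φ(P) ∏_{r ≤ z, r ∤ b s} (1 - 1/r) ≤ φ(P) (|bs|/φ(|bs|))/log (z+1)`
(`LPAP.totient_Wp`, `LPAP.totient_Wp_le`, `MP_5b0a7e_nt/Wtrick.lean`), `z = ⌊log X / 64⌋₊`, and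
`∑_{1 ≤ s ≤ K} s/φ(s) ≤ C K`, `|bs|/φ(|bs|) ≤ (|b|/φ(|b|)) (s/φ(s))`. -/
def SurvStmt : Prop := ∀ b : ℤ, b ≠ 0 → ∃ C X0 : ℝ, 0 < C ∧ ∀ X : ℝ, X0 ≤ X → ∀ K : ℕ,
  ∑ c ∈ (range (PX X)).filter (fun c => c.Coprime (PX X)), ((sites b K (PX X) c).card : ℝ) ≤
    C * K * (PX X).totient / Real.log (Real.log X)

/-- **PXle**: `primorial z ≤ 4^z`, `log 4 ≤ 2`. -/
def PXleStmt : Prop := ∀ X : ℝ, 1 ≤ X → (PX X : ℝ) ≤ X ^ ((1 : ℝ) / 32)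

/-- **BTc** (from `Lnk.BTq`, proved as `Lnk.btq`; and `PXleStmt`): `wp φ X n ≤ log (4X)` on
`PA X`, and the number of primes `≤ 4 X` congruent to `c` modulo `P = PX X` is
`≤ C X / (totient P log X)` (`u = 0`, `v = 4 X`, `P² ≤ X^{1/16} ≤ v`). -/
def BTcStmt : Prop := ∀ φ : ℝ → ℝ, Hoh.Bump φ → ∃ C X0 : ℝ, 0 < C ∧ ∀ X : ℝ, X0 ≤ X →
  ∀ c : ℕ, c < PX X → c.Coprime (PX X) →
  ∑ n ∈ (PA X).filter (fun n => n % PX X = c), wp φ X n ≤ C * X / (PX X).totient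

/-- **Low**: `φ (log (n/X)) = 1` for `1.2 X ≤ n ≤ 2.4 X` (`1/10 ≤ log 1.2`, `log 2.4 ≤ 9/10`), and
`θ(2.4 X) - θ(1.2 X) ≥ X` for large `X` (`theta_tendsto`, `PNT/Theta.lean`). -/
def LowStmt : Prop := ∀ φ : ℝ → ℝ, Hoh.Bump φ → ∃ c X0 : ℝ, 0 < c ∧ ∀ X : ℝ, X0 ≤ X →
  c * X ≤ ∑ n ∈ PA X, wp φ X n

/-- **Fam** (family form of the transfer; from `TransferStmt`): index the family by the pairs
`(n, S)`, `n ∈ A`, `n ≡ c`, `S ⊆ Q`, with weight `w n * mu kp Q S` and configuration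
`conf Q hit n ∩ S`; `∑ W Φ(τ) = ∑ w(n) Th Q Φ (conf n)`. If `τ i ≠ ∅` for all `i` then
`conf Q hit n i ≠ ∅` for all `i`, and `∑_S mu = 1`. -/
def FamStmt : Prop := ∀ (C1 C2 lam ε c1 η : ℝ), PDT C1 C2 lam ε c1 η →
  ∀ (N : ℕ) (Q : Finset ℕ) (hit : ℕ → Fin N → ℕ → Prop) (LX lq : ℝ), PSys Q hit →
    0 < N → 1 / η ≤ LX → 0 ≤ LX → 1 ≤ lq → lq ≤ η * LX → N * lq ≤ lam * LX →
    (∀ q ∈ Q, lq < Real.log (q : ℕ)) → (∀ q ∈ Q, Real.log (q : ℕ) ≤ ε * LX) →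
    (∀ q ∈ Q, pp N (fun _ => 1) q ≤ 1 / 2) →
    (∀ u v, lq ≤ u → u ≤ v → v ≤ ε * LX →
      ∏ q ∈ Q with u < Real.log (q : ℕ) ∧ Real.log (q : ℕ) ≤ v,
        (1 - pp N (fun _ => 1) q) ≤ C1 * u / v) →
    (∀ v, 0 ≤ v → v ≤ ε * LX →
      ∑ q ∈ Q with Real.log (q : ℕ) ≤ v, pp N (fun _ => 1) q * Real.log q ≤ C2 * v) →
    ∑ q ∈ Q, ((q : ℝ) ^ 2)⁻¹ ≤ 1 → (N : ℝ) ^ 2 * ∑ q ∈ Q, pp N (fun _ => 1) q ^ 2 ≤ η →
    ∀ P c : ℕ, 0 < P → P.Coprime (∏ q ∈ Q, q) → c < P → c.Coprime P →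
    ∀ q0 : ℕ, (∀ q ∈ Q, q0 ≤ q) → 2 * N < q0 →
    ∀ (A : Finset ℕ) (w : ℕ → ℝ), (∀ n ∈ A, n.Coprime (P * ∏ q ∈ Q, q)) → (∀ n ∈ A, 0 ≤ w n) →
    3 * √((N : ℝ) / ((q0 : ℝ) - 1)) / (P.totient : ℝ) *
      PSum A w ⌊(P : ℝ) * Real.exp (LX / 2)⌋₊ * LX ≤
        η * ∑ n ∈ A.filter (fun n => n % P = c), w n →
    open Classical in
    c1 * ∑ n ∈ A.filter (fun n => n % P = c), w n ≤
      ∑ n ∈ A.filter (fun n => n % P = c ∧ ∀ i, ∃ q ∈ Q, hit q i n), w n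

/-- **Class** (template `class_count`, `PosProp/App2.lean`; from `PosDensTStmt`, `FamStmt`, `TBStmt`,
`HitBStmt`, `PXleStmt`). `L = log X`, `LX = L / 32`, `Z = ⌈L⌉₊ ^ 14`, `Q = Qa 1 Z (ε LX)`,
`q0 = Z + 1`, `lq = log Z`; `S = sites b K P c`, `N = #S`; if `N = 0` the claim is trivial with
`c2 ≤ 1` (all forms are divisible by a prime `r ∣ P`, `r ≤ z ≤ √X`). `PosDensT` with
`C1 = 2 exp 9`, `C2 = 6`, `lam = 1000 A` (`log Z ≤ 28 log L`, `N lq ≤ (A L / log L) (28 log L)`),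
hypotheses by `Qa_H1`, `Qa_H2`, `Qa_inv_sq`, `Qa_pp_sq` (`PosProp/App1.lean`, `a = 1`). Error:
`PSum ≤ C X L⁴` by `TB` since `(P exp (LX/2))^20 ≤ (X^{1/32 + 1/64})^20 ≤ X`, so the left side of
the last hypothesis of `Fam` is at most `3 √(N/Z) (C X L⁴/totient P) L ≤ C' X L^{-3/2}/totient P`
(`N ≤ A L`, `Z ≥ L^14`). A form `b + s n` with `1 ≤ |s| ≤ K`, `s ∉ S` is divisible by a prime
`r ∣ P` (`r ≤ log X / 64 ≤ √X`) because `n ≡ c mod P`. Elements of `PA X` are primes `> X/4`, hence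
coprime to `P ∏ Q`. -/
def ClassStmt : Prop := ∀ φ : ℝ → ℝ, Hoh.Bump φ → ∀ (b : ℤ) (lam A : ℝ), b ≠ 0 → 1 ≤ lam →
  1 ≤ A → ∀ c1 : ℝ, 0 < c1 → ∃ c2 X0 : ℝ, 0 < c2 ∧ ∀ X : ℝ, X0 ≤ X → ∀ c : ℕ, c < PX X →
    c.Coprime (PX X) →
    ((sites b (KX lam X) (PX X) c).card : ℝ) ≤ A * Real.log X / Real.log (Real.log X) →
    c1 * X / (PX X).totient ≤ ∑ n ∈ (PA X).filter (fun n => n % PX X = c), wp φ X n →
    open Classical in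
    c2 * ∑ n ∈ (PA X).filter (fun n => n % PX X = c), wp φ X n ≤
      ∑ n ∈ (PA X).filter (fun n => n % PX X = c ∧ gd b (KX lam X) (√X) n), wp φ X n

/-- **Good** (from `ClassStmt`, `SurvStmt`, `BTcStmt`, `LowStmt`, `PXleStmt`). Every `n ∈ PA X` is
coprime to `P = PX X`, so `c0 X ≤ ∑ wp = ∑_{c coprime} M_c` (`Low`). Classes with more than
`A L / log L` sites: at most `C K totient P/(log L) / (A L/ log L) ≤ (C' lam/A) totient P` classes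
(`Surv`, `K ≤ 2 lam L`), each `M_c ≤ C X/totient P` (`BTc`): total `≤ c0 X/4` for large `A`. Classes
with `M_c < (c0/4) X/totient P`: total `≤ c0 X/4`. The others: `Class` with `c1 = c0/4`. -/
def GoodStmt : Prop := ∀ φ : ℝ → ℝ, Hoh.Bump φ → ∀ (b : ℤ) (lam : ℝ), b ≠ 0 → 1 ≤ lam →
  ∃ c X0 : ℝ, 0 < c ∧ ∀ X : ℝ, X0 ≤ X → open Classical in
    c * X ≤ ∑ n ∈ (PA X).filter (fun n => gd b (KX lam X) (√X) n), wp φ X n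

/-- **Bump**: proved as `Hoh.exists_bump` (`MP_0bb3d8_nt/HohFinal.lean`). -/
def BumpStmt : Prop := ∃ φ : ℝ → ℝ, Hoh.Bump φ

/-- **TheoremT** (from `GoodStmt`, `BumpStmt`). `wp φ X n ≤ log (4X)` and `n ≤ 4X`, so there are at least
`c X / log (4X)` primes `n` in `(X/4, 4X]` with `gd`; `|s| ≤ lam log n` implies `|s| ≤ KX lam X`, and
`q ∣ b + s n`, `q ≤ √X < n - |b| ≤ |b + s n|` shows that `b + s n` is not `±` a prime. Replace `X`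
by `X / 4`. -/
def TheoremTStmt : Prop := ∀ (b : ℤ) (lam : ℝ), b ≠ 0 → 0 < lam → ∃ c X0 : ℝ, 0 < c ∧
  ∀ X : ℝ, X0 ≤ X → open Classical in
    c * X / Real.log X ≤ (((Icc 1 ⌊X⌋₊).filter (fun p : ℕ => p.Prime ∧
      ∀ s : ℤ, s ≠ 0 → |(s : ℝ)| ≤ lam * Real.log p → ¬ (b + s * p).natAbs.Prime)).card : ℝ)

end Pool.Agent.PTr
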