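import Pool.Agent.Lib.PTr.Defs

/-!
# Prime values of the variable in a sieve of forms: module FInv

Fourier inversion on the units modulo `R`.
-/

set_option autoImplicit false

namespace Pool.Agent.PTr

open Finset Pool.Agent.GapSieve Pool.Agent.PosProp

private lemma finv_inv {R : ℕ} (χ : DirichletCharacter ℂ R) {b : ZMod R}
    (hb : IsUnit b) : χ⁻¹ b = χ b⁻¹ := by
  rw [MulChar.inv_apply]
  obtain ⟨u, rfl⟩ := hb
  rw [Ring.inverse_unit, ZMod.inv_coe_unit]

private lemma finv_sum {R : ℕ} [NeZero R] (x n : ℕ) (hn : n.Coprime R) :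
    ∑ χ : DirichletCharacter ℂ R, χ⁻¹ ((x : ℕ) : ZMod R) * χ ((n : ℕ) : ZMod R) =
      if x % R = n % R then (R.totient : ℂ) else 0 := by
  have hcast : ((x : ℕ) : ZMod R) = ((n : ℕ) : ZMod R) ↔ x % R = n % R :=
    ZMod.natCast_eq_natCast_iff' x n R
  by_cases hx : IsUnit ((x : ℕ) : ZMod R)
  · have h1 : ∀ χ : DirichletCharacter ℂ R, χ⁻¹ ((x : ℕ) : ZMod R) * χ ((n : ℕ) : ZMod R) =
        χ ((x : ℕ) : ZMod R)⁻¹ * χ ((n : ℕ) : ZMod R) := fun χ => by rw [finv_inv χ hx]
    rw [Finset.sum_congr rfl (fun χ _ => h1 χ), DirichletCharacter.sum_char_inv_mul_char_eq ℂ hx]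
    simp only [hcast]
  · have h1 : ∀ χ : DirichletCharacter ℂ R, χ⁻¹ ((x : ℕ) : ZMod R) * χ ((n : ℕ) : ZMod R) = 0 :=
      fun χ => by rw [MulChar.map_nonunit χ⁻¹ hx, zero_mul]
    rw [Finset.sum_congr rfl (fun χ _ => h1 χ), Finset.sum_const_zero, if_neg]
    intro h
    exact hx (by rw [hcast.2 h]; exact (ZMod.isUnit_iff_coprime n R).2 hn)

private lemma finv_per {R : ℕ} {f : ℕ → ℝ} (hf : ∀ t, f (t + R) = f t) (a k : ℕ) :
    f (a + R * k) = f a := by
  induction k with
  | zero => simp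
  | succ k ih =>
    have : a + R * (k + 1) = (a + R * k) + R := by ring
    rw [this, hf, ih]

theorem FInv_p : FInvStmt := by
  intro R P c f hR hP hf n hn
  have hne : NeZero R := ⟨hR.ne'⟩
  have hφ : (R.totient : ℂ) ≠ 0 := by
    have h := Nat.totient_pos.2 hR
    exact_mod_cast h.ne'
  have h1 : ∑ χ : DirichletCharacter ℂ R, hat R P c f χ * χ ((n : ℕ) : ZMod R) =
      ∑ x ∈ (range R).filter (fun x => x % P = c), (f x : ℂ) *
        (if x % R = n % R then (R.totient : ℂ) else 0) := by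
    unfold hat
    simp_rw [Finset.sum_mul]
    rw [Finset.sum_comm]
    refine Finset.sum_congr rfl (fun x _ => ?_)
    rw [← finv_sum x n hn, Finset.mul_sum]
    refine Finset.sum_congr rfl (fun χ _ => ?_)
    ring
  have hfn : f n = f (n % R) := by
    conv_lhs => rw [← Nat.mod_add_div n R]
    exact finv_per hf _ _
  have hmod : n % R % P = n % P := Nat.mod_mod_of_dvd n hP
  have hlt : n % R < R := Nat.mod_lt n hR
  rw [div_eq_iff hφ, h1]
  by_cases hc : n % P = c
  · rw [if_pos hc, Finset.sum_eq_single (n % R)]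
    · rw [if_pos (Nat.mod_mod n R), hfn]
    · intro x hx hxn
      rw [Finset.mem_filter, Finset.mem_range] at hx
      rw [if_neg, mul_zero]
      intro h
      exact hxn (by rw [← h, Nat.mod_eq_of_lt hx.1])
    · intro h
      exact absurd (Finset.mem_filter.2 ⟨Finset.mem_range.2 hlt, by rw [hmod]; exact hc⟩) h
  · rw [if_neg hc, zero_mul]
    refine Finset.sum_eq_zero (fun x hx => ?_)
    rw [Finset.mem_filter, Finset.mem_range] at hx
    rw [if_neg, mul_zero]
    intro h
    rw [Nat.mod_eq_of_lt hx.1] at h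
    exact hc (by rw [← hmod, ← h]; exact hx.2)

end Pool.Agent.PTr
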