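import Pool.Agent.Lib.PTr.Defs

/-!
# The family form of the transfer
-/

set_option autoImplicit false

namespace Pool.Agent.PTr

open Finset Pool.Agent.GapSieve Pool.Agent.PosProp

private lemma fam_kp {q : ℕ} (hq : 1 ≤ q) : 0 ≤ kp q ∧ kp q ≤ 1 := by
  have h1 : (1 : ℝ) ≤ (q : ℝ) := by exact_mod_cast hq
  have h2 : ((q : ℝ))⁻¹ ≤ 1 := inv_le_one_of_one_le₀ h1
  have h3 : 0 ≤ ((q : ℝ))⁻¹ := by positivity
  unfold kp
  constructor <;> linarith

private lemma fam_PSum (A : Finset ℕ) (w : ℕ → ℝ) (F : ℕ) : 0 ≤ PSum A w F := by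
  classical
  unfold PSum
  refine sum_nonneg fun f _ => sum_nonneg fun ψ _ => ?_
  split_ifs
  · exact norm_nonneg _
  · exact le_rfl

theorem Fam_p (h1 : TransferStmt) : FamStmt := by
  classical
  intro C1 C2 lam ε c1 η hPDT N Q hit LX lq hP hN hη hLX hlq hlqη hNlq hQl hQε hpp hprod hsum hsq
    hppsq P c hPpos hPcop hcP hc q0 hq0 hNq0 A w hA hw herr
  set M : ℝ := ∑ n ∈ A.filter (fun n => n % P = c), w n with hM
  set κ : ℝ := 3 * √((N : ℝ) / ((q0 : ℝ) - 1)) / (P.totient : ℝ) *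
    PSum A w ⌊(P : ℝ) * Real.exp (LX / 2)⌋₊ with hκ
  have hM0 : 0 ≤ M := sum_nonneg fun n hn => hw n (mem_filter.1 hn).1
  have hκ0 : 0 ≤ κ := by
    have h2 := fam_PSum A w ⌊(P : ℝ) * Real.exp (LX / 2)⌋₊
    positivity
  have hk0 : ∀ q ∈ Q, 0 ≤ kp q := fun q hq => (fam_kp (hP.pr q hq).one_lt.le).1
  have hk1 : ∀ q ∈ Q, kp q ≤ 1 := fun q hq => (fam_kp (hP.pr q hq).one_lt.le).2
  have hmu : ∀ S ∈ Q.powerset, 0 ≤ mu kp Q S := fun S hS =>
    mu_nonneg (mem_powerset.1 hS) hk0 hk1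
  have hkey := hPDT N Q (fun _ => 1) hit LX lq hP.sys hN hη hlq hlqη hNlq hQl hQε hpp hprod hsum
    hsq hppsq (ℕ × Finset ℕ) ((A.filter (fun n => n % P = c)) ×ˢ Q.powerset)
    (fun x => w x.1 * mu kp Q x.2) (fun x i => conf Q hit x.1 i ∩ x.2) M κ hM0 hκ0 (by
      intro x hx
      obtain ⟨h2, h3⟩ := mem_product.1 hx
      exact mul_nonneg (hw _ (mem_filter.1 h2).1) (hmu _ h3)) (by
      intro x _
      rw [mem_Om]
      intro i
      exact inter_subset_left.trans (mem_Om.1 (conf_mem x.1) i)) (by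
      intro Φ hΦ
      have h2 := h1 N Q hit hP P c hPpos hPcop hcP hc q0 hq0 hNq0 A w hA (Real.exp (LX / 2)) Φ
        (Real.one_le_exp (by linarith)) hΦ
      have h3 : ∑ x ∈ (A.filter (fun n => n % P = c)) ×ˢ Q.powerset,
          (w x.1 * mu kp Q x.2) * Φ (fun i => conf Q hit x.1 i ∩ x.2) =
          ∑ n ∈ A.filter (fun n => n % P = c), w n * Th Q Φ (conf Q hit n) := by
        rw [sum_product]
        refine sum_congr rfl fun n _ => ?_
        unfold Th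
        rw [mul_sum]
        exact sum_congr rfl fun S _ => by ring
      rw [h3]
      exact h2) herr
  refine hkey.trans ?_
  have h4 : ∑ x ∈ (A.filter (fun n => n % P = c)) ×ˢ Q.powerset with
      ∀ i, (conf Q hit x.1 i ∩ x.2) ≠ ∅, w x.1 * mu kp Q x.2 ≤
      ∑ x ∈ (A.filter (fun n => n % P = c ∧ ∀ i, ∃ q ∈ Q, hit q i n)) ×ˢ Q.powerset,
        w x.1 * mu kp Q x.2 := by
    refine sum_le_sum_of_subset_of_nonneg ?_ ?_
    · intro x hx
      obtain ⟨h5, h6⟩ := mem_filter.1 hx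
      obtain ⟨h7, h8⟩ := mem_product.1 h5
      obtain ⟨h9, h10⟩ := mem_filter.1 h7
      refine mem_product.2 ⟨mem_filter.2 ⟨h9, h10, fun i => ?_⟩, h8⟩
      obtain ⟨q, hq⟩ := nonempty_iff_ne_empty.2 (h6 i)
      have h11 := (mem_inter.1 hq).1
      unfold conf at h11
      exact ⟨q, (mem_filter.1 h11).1, (mem_filter.1 h11).2⟩
    · intro x hx _
      obtain ⟨h7, h8⟩ := mem_product.1 hx
      exact mul_nonneg (hw _ (mem_filter.1 h7).1) (hmu _ h8)
  refine h4.trans (le_of_eq ?_)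
  rw [sum_product]
  refine sum_congr rfl fun n _ => ?_
  have h12 : ∑ S ∈ Q.powerset, mu kp Q S = 1 := by
    have h13 := E_one (p := kp) (Q := Q)
    simpa using h13
  change ∑ S ∈ Q.powerset, w n * mu kp Q S = w n
  rw [← mul_sum, h12, mul_one]

end Pool.Agent.PTr
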