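import Pool.Agent.Lib.PTr.Defs

/-!
# Moments of the truncated product: `GGMStmt`
-/

set_option autoImplicit false

namespace Pool.Agent.PTr

open Finset Pool.Agent.GapSieve Pool.Agent.PosProp

private lemma GGM_abs {N : ℕ} {S : Type} (T : Finset S) (e : S → Finset ℕ → ℝ) (d : S → ℝ)
    (L : ℝ) (ω : Fin N → Finset ℕ) : |GG T e d L ω| ≤ ∏ i, ∑ s ∈ T, |e s (ω i)| := by
  classical
  rw [prod_univ_sum]
  unfold GG
  calc |∑ σ ∈ (Pi N T).filter (fun σ => cost d σ ≤ L), ePi e σ ω|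
      ≤ ∑ σ ∈ (Pi N T).filter (fun σ => cost d σ ≤ L), |ePi e σ ω| := abs_sum_le_sum_abs _ _
    _ ≤ ∑ σ ∈ Pi N T, |ePi e σ ω| :=
        sum_le_sum_of_subset_of_nonneg (filter_subset _ _) fun _ _ _ => abs_nonneg _
    _ = _ := by
        refine sum_congr rfl fun σ _ => ?_
        unfold ePi
        rw [abs_prod]

private lemma GGM_pow {N : ℕ} {S : Type} (T : Finset S) (e : S → Finset ℕ → ℝ) (d : S → ℝ)
    (L : ℝ) {n : ℕ} (hn : Even n) (ω : Fin N → Finset ℕ) :
    GG T e d L ω ^ n ≤ ∏ i, (∑ s ∈ T, |e s (ω i)|) ^ n := by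
  rw [prod_pow, ← Even.pow_abs hn (GG T e d L ω)]
  exact pow_le_pow_left₀ (abs_nonneg _) (GGM_abs T e d L ω) n

theorem GGM_p : GGMStmt := by
  classical
  intro N S p Q T e d L h0 h1
  refine ⟨?_, fun i => ?_⟩
  · calc EN p Q (fun ω : Fin N → Finset ℕ => GG T e d L ω ^ 8)
        ≤ EN p Q (fun ω : Fin N → Finset ℕ => ∏ i, (∑ s ∈ T, |e s (ω i)|) ^ 8) :=
          EN_mono h0 h1 fun ω _ => GGM_pow T e d L (by decide) ω
      _ = _ := by
          rw [EN_prod p Q (fun _ ω => (∑ s ∈ T, |e s ω|) ^ 8)]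
          unfold E1
          simp
  · have h2 : ∀ ω : Fin N → Finset ℕ, GG T e d L (Function.update ω i ∅) ^ 4 ≤
        ∏ j, (if j = i then (∑ s ∈ T, |e s ∅|) ^ 4 else (∑ s ∈ T, |e s (ω j)|) ^ 4) := by
      intro ω
      refine (GGM_pow T e d L (by decide) _).trans (le_of_eq ?_)
      refine prod_congr rfl fun j _ => ?_
      by_cases hj : j = i
      · subst hj
        rw [if_pos rfl, Function.update_self]
      · rw [if_neg hj, Function.update_of_ne hj]
    calc EN p Q (fun ω : Fin N → Finset ℕ => GG T e d L (Function.update ω i ∅) ^ 4)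
        ≤ EN p Q (fun ω : Fin N → Finset ℕ =>
          ∏ j, (if j = i then (∑ s ∈ T, |e s ∅|) ^ 4 else (∑ s ∈ T, |e s (ω j)|) ^ 4)) :=
          EN_mono h0 h1 fun ω _ => h2 ω
      _ = _ := by
          rw [EN_prod p Q (fun j ω =>
            if j = i then (∑ s ∈ T, |e s ∅|) ^ 4 else (∑ s ∈ T, |e s ω|) ^ 4)]
          rw [← mul_prod_erase univ _ (mem_univ i)]
          have h3 : ∑ ω ∈ Q.powerset, mu p Q ω *
              (if i = i then (∑ s ∈ T, |e s ∅|) ^ 4 else (∑ s ∈ T, |e s ω|) ^ 4) =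
              (∑ s ∈ T, |e s ∅|) ^ 4 := by
            have := E1_const p Q ((∑ s ∈ T, |e s ∅|) ^ 4)
            unfold E1 at this
            rw [← this]
            refine sum_congr rfl fun ω _ => ?_
            rw [if_pos rfl, this]
          have h4 : ∀ j ∈ univ.erase i, ∑ ω ∈ Q.powerset, mu p Q ω *
              (if j = i then (∑ s ∈ T, |e s ∅|) ^ 4 else (∑ s ∈ T, |e s ω|) ^ 4) =
              E1 p Q (fun ω => (∑ s ∈ T, |e s ω|) ^ 4) := by
            intro j hj
            unfold E1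
            refine sum_congr rfl fun ω _ => ?_
            rw [if_neg (ne_of_mem_erase hj)]
          rw [h3, prod_congr rfl h4, prod_const, card_erase_of_mem (mem_univ i), card_univ,
            Fintype.card_fin]

end Pool.Agent.PTr
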