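import Pool.Agent.Lib.PTr.Defs

/-!
# Module `HatBd`: the bound for the Fourier coefficients of the thinned configuration
-/

set_option autoImplicit false

namespace Pool.Agent.PTr

open Finset Pool.Agent.GapSieve Pool.Agent.PosProp

private lemma hb_units (R : ℕ) [NeZero R] {A : Type*} [AddCommMonoid A] (f : ℕ → A) :
    ∑ g : (ZMod R)ˣ, f ((g : ZMod R)).val = ∑ x ∈ (range R).filter (fun x => x.Coprime R), f x := by
  refine Finset.sum_bij (fun g _ => ((g : ZMod R)).val) ?_ ?_ ?_ ?_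
  · intro g _
    exact mem_filter.2 ⟨mem_range.2 (ZMod.val_lt _), ZMod.val_coe_unit_coprime g⟩
  · intro g _ g' _ h
    exact Units.ext (ZMod.val_injective R h)
  · intro x hx
    obtain ⟨h1, h2⟩ := mem_filter.1 hx
    refine ⟨ZMod.unitOfCoprime x h2, mem_univ _, ?_⟩
    rw [ZMod.coe_unitOfCoprime, ZMod.val_natCast_of_lt (mem_range.1 h1)]
  · intro g _
    rfl

private lemma hb_hit {N : ℕ} {Q : Finset ℕ} {hit : ℕ → Fin N → ℕ → Prop} (hS : PSys Q hit)
    {q : ℕ} (hq : q ∈ Q) (i : Fin N) {t t' : ℕ} (h : t ≡ t' [MOD q]) :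
    hit q i t ↔ hit q i t' := by
  have hper : Function.Periodic (fun t => hit q i t) q := fun t =>
    propext (hS.sys.per q hq i t)
  have h1 := hper.map_mod_nat t
  have h2 := hper.map_mod_nat t'
  have h3 : t % q = t' % q := h
  rw [h3] at h1
  exact iff_of_eq (h1.symm.trans h2)

private lemma hb_conf {N : ℕ} {Q : Finset ℕ} {hit : ℕ → Fin N → ℕ → Prop} {t t' : ℕ}
    (h : ∀ q ∈ Q, ∀ i, hit q i t ↔ hit q i t') : conf Q hit t = conf Q hit t' := by
  classical
  funext i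
  unfold conf
  exact Finset.filter_congr fun q hq => h q hq i

private lemma hb_one {N : ℕ} {Q : Finset ℕ} {hit : ℕ → Fin N → ℕ → Prop} (hS : PSys Q hit)
    {q : ℕ} (hq : q ∈ Q) (i : Fin N) {t t' : ℕ} (h : hit q i t) (h' : hit q i t') :
    t ≡ t' [MOD q] := by
  classical
  have hq0 : 0 < q := hS.sys.pos q hq
  have h1 := hS.sys.cnt q hq i
  unfold hitCount at h1
  rw [card_eq_one] at h1
  obtain ⟨a, ha⟩ := h1
  have key : ∀ s, hit q i s → s % q = a := by
    intro s hs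
    have h2 : s % q ∈ (range q).filter fun a => hit q i a :=
      mem_filter.2 ⟨mem_range.2 (Nat.mod_lt s hq0),
        (hb_hit hS hq i (Nat.mod_modEq s q)).2 hs⟩
    rw [ha, mem_singleton] at h2
    exact h2
  exact (key t h).trans (key t' h').symm

private lemma hb_hat (R P c : ℕ) [NeZero R] (f : ℕ → ℝ) (χ : DirichletCharacter ℂ R) :
    hat R P c f χ = ∑ g : (ZMod R)ˣ,
      (((if ((g : ZMod R)).val % P = c then f ((g : ZMod R)).val else 0 : ℝ)) : ℂ) *
        χ⁻¹ (g : ZMod R) := by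
  have h1 : (∑ g : (ZMod R)ˣ,
      (((if ((g : ZMod R)).val % P = c then f ((g : ZMod R)).val else 0 : ℝ)) : ℂ) *
        χ⁻¹ (g : ZMod R)) = ∑ g : (ZMod R)ˣ,
      (fun x : ℕ => (((if x % P = c then f x else 0 : ℝ)) : ℂ) * χ⁻¹ ((x : ℕ) : ZMod R))
        ((g : ZMod R)).val := by
    refine Finset.sum_congr rfl fun g _ => ?_
    simp only
    rw [ZMod.natCast_zmod_val]
  rw [h1, hb_units R (fun x : ℕ => (((if x % P = c then f x else 0 : ℝ)) : ℂ) *
    χ⁻¹ ((x : ℕ) : ZMod R)), hat, Finset.sum_filter, Finset.sum_filter]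
  refine Finset.sum_congr rfl fun x _ => ?_
  by_cases hx : x.Coprime R
  · rw [if_pos hx]
    by_cases hc : x % P = c
    · rw [if_pos hc, if_pos hc]
    · rw [if_neg hc, if_neg hc, Complex.ofReal_zero, zero_mul]
  · rw [if_neg hx]
    have hnu : ¬ IsUnit ((x : ℕ) : ZMod R) := fun h => hx ((ZMod.isUnit_iff_coprime x R).1 h)
    rw [MulChar.map_nonunit _ hnu, mul_zero, ite_self]

/-- the character on the units -/
private noncomputable def hbPsi {R : ℕ} (χ : DirichletCharacter ℂ R) : (ZMod R)ˣ →* ℂ :=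
  (χ⁻¹).toMonoidHom.comp (Units.coeHom (ZMod R))

private lemma hbPsi_apply {R : ℕ} (χ : DirichletCharacter ℂ R) (g : (ZMod R)ˣ) :
    hbPsi χ g = χ⁻¹ (g : ZMod R) := rfl

private lemma hb_real (a b t x : ℝ) (ha : a ≤ √t * x) (hb : b ≤ x) (hx : 0 ≤ x) (ht : 0 ≤ t)
    (ht2 : t ≤ 1 / 2) : a + 2 * t * b ≤ 3 * √t * x := by
  have hs : √t * √t = t := Real.mul_self_sqrt ht
  have hs0 : 0 ≤ √t := Real.sqrt_nonneg t
  have hs1 : √t ≤ 1 := by
    rw [Real.sqrt_le_left (by norm_num)]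
    norm_num
    linarith
  have h1 : t ≤ √t := by nlinarith
  have h2 : 2 * t * b ≤ 2 * √t * x := by
    calc 2 * t * b ≤ 2 * t * x := mul_le_mul_of_nonneg_left hb (by linarith)
      _ ≤ 2 * √t * x := mul_le_mul_of_nonneg_right (by linarith) hx
  linarith

private lemma hb_cs {G : Type*} [Fintype G] (S : Finset G) (H : G → ℝ) (B V : ℝ)
    (hB : (S.card : ℝ) ≤ B) (hV : ∑ g, H g ^ 2 ≤ V) : ∑ g ∈ S, |H g| ≤ √(B * V) := by
  have h1 : (∑ g ∈ S, |H g|) ^ 2 ≤ S.card * ∑ g ∈ S, |H g| ^ 2 := sq_sum_le_card_mul_sum_sq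
  have h2 : ∑ g ∈ S, |H g| ^ 2 ≤ ∑ g, H g ^ 2 := by
    calc ∑ g ∈ S, |H g| ^ 2 = ∑ g ∈ S, H g ^ 2 := Finset.sum_congr rfl fun g _ => sq_abs _
      _ ≤ ∑ g, H g ^ 2 := Finset.sum_le_sum_of_subset_of_nonneg (Finset.subset_univ S)
          fun g _ _ => sq_nonneg _
  have h3 : 0 ≤ ∑ g ∈ S, |H g| ^ 2 := Finset.sum_nonneg fun g _ => sq_nonneg _
  apply Real.le_sqrt_of_sq_le
  calc (∑ g ∈ S, |H g|) ^ 2 ≤ S.card * ∑ g ∈ S, |H g| ^ 2 := h1
    _ ≤ B * V := mul_le_mul hB (h2.trans hV) h3 (le_trans (Nat.cast_nonneg _) hB)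

private lemma hb_main (h1 : CosetStmt) (h3 : UnitsStmt) (h4 : ClassSumStmt) (h5 : ThSqStmt)
    (N : ℕ) (Q : Finset ℕ) (hit : ℕ → Fin N → ℕ → Prop) (hS : PSys Q hit) (P c : ℕ) (hP : 0 < P)
    (M : ℕ) (hM : M = ∏ q ∈ Q, q) (hPQ : P.Coprime M) (hcP : c < P) (hcop : c.Coprime P)
    (q0 : ℕ) (hq0 : ∀ q ∈ Q, q0 ≤ q) (hN : 2 * N < q0) (Φ : (Fin N → Finset ℕ) → ℝ)
    (R : ℕ) (hR : R = P * M) (χ : DirichletCharacter ℂ R) (q : ℕ) (hq : q ∈ Q)
    (K : Finset (ZMod R)ˣ) (hK1 : ∀ k, k ∈ K ↔ (k : ZMod R).val ≡ 1 [MOD R / q])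
    (hKc : K.card = q - 1)
    (hK2 : ∀ g : (ZMod R)ˣ, ∀ k ∈ K, ∀ k' ∈ K,
      (g * k : (ZMod R)ˣ).val.val ≡ (g * k' : (ZMod R)ˣ).val.val [MOD q] → k = k')
    (hK3 : ∃ k ∈ K, χ ((k : (ZMod R)ˣ) : ZMod R) ≠ 1) :
    ‖hat R P c (fun x => Th Q Φ (conf Q hit x)) χ‖ ≤
      3 * √((N : ℝ) / ((q0 : ℝ) - 1)) * (M.totient : ℝ) *
        √(ER Q hit (fun ω => Φ ω ^ 2)) := by
  classical
  have hQpos : ∀ q ∈ Q, 0 < q := fun q hq => hS.sys.pos q hq
  have hMpos : 0 < M := by
    rw [hM]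
    exact prod_pos hQpos
  have hRpos : 0 < R := by
    rw [hR]
    exact Nat.mul_pos hP hMpos
  have hNZ : NeZero R := ⟨hRpos.ne'⟩
  have hqp := hS.pr q hq
  obtain ⟨k0, hk0, hk0χ⟩ := hK3
  have hqM : q ∣ M := by
    rw [hM]
    exact Finset.dvd_prod_of_mem (fun y => y) hq
  have hqR : q ∣ R := by
    rw [hR]
    exact hqM.mul_left P
  obtain ⟨M', hM'⟩ := hqM
  have hRq : R / q = P * M' := by
    rw [hR, hM', show P * (q * M') = q * (P * M') by ring,
      Nat.mul_div_cancel_left _ hqp.pos]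
  have hRqR : R / q ∣ R := Nat.div_dvd_of_dvd hqR
  -- congruences for products
  have hval : ∀ x y : (ZMod R)ˣ, ((x * y : (ZMod R)ˣ) : ZMod R).val ≡
      (x : ZMod R).val * (y : ZMod R).val [MOD R] := by
    intro x y
    rw [Units.val_mul, ZMod.val_mul]
    exact Nat.mod_modEq _ _
  have hone : ((1 : (ZMod R)ˣ) : ZMod R).val ≡ 1 [MOD R] := by
    rw [Units.val_one]
    have h6 : ((1 : ℕ) : ZMod R).val = 1 % R := ZMod.val_natCast R 1
    rw [Nat.cast_one] at h6
    rw [h6]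
    exact Nat.mod_modEq _ _
  have hgk : ∀ g : (ZMod R)ˣ, ∀ k ∈ K, ((g * k : (ZMod R)ˣ) : ZMod R).val ≡
      (g : ZMod R).val [MOD R / q] := by
    intro g k hk
    have h6 := (hval g k).of_dvd hRqR
    have h7 := (hK1 k).1 hk
    have h8 : (g : ZMod R).val * (k : ZMod R).val ≡ (g : ZMod R).val * 1 [MOD R / q] :=
      Nat.ModEq.mul_left _ h7
    rw [mul_one] at h8
    exact h6.trans h8
  have hK_one : (1 : (ZMod R)ˣ) ∈ K := (hK1 1).2 (hone.of_dvd hRqR)
  have hK_mul : ∀ x ∈ K, ∀ y ∈ K, x * y ∈ K := by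
    intro x hx y hy
    exact (hK1 _).2 ((hgk x y hy).trans ((hK1 x).1 hx))
  have hK_inv : ∀ x ∈ K, x⁻¹ ∈ K := by
    intro x hx
    refine (hK1 _).2 ?_
    have h6 := hgk x⁻¹ x hx
    rw [inv_mul_cancel] at h6
    exact h6.symm.trans (hone.of_dvd hRqR)
  have hPdvd : P ∣ R / q := by
    rw [hRq]
    exact dvd_mul_right _ _
  have hclass : ∀ g : (ZMod R)ˣ, ∀ k ∈ K, (((g * k : (ZMod R)ˣ) : ZMod R).val % P = c ↔
      (g : ZMod R).val % P = c) := by
    intro g k hk
    have h6 : ((g * k : (ZMod R)ˣ) : ZMod R).val % P = (g : ZMod R).val % P :=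
      (hgk g k hk).of_dvd hPdvd
    rw [h6]
  -- the data
  obtain ⟨F, hF⟩ : ∃ F : ℕ → ℝ, F = fun x => Th Q Φ (conf Q hit x) := ⟨_, rfl⟩
  set H : (ZMod R)ˣ → ℝ := fun g => if (g : ZMod R).val % P = c then F (g : ZMod R).val else 0
    with hH
  set Cc : Finset (ZMod R)ˣ := univ.filter fun g => (g : ZMod R).val % P = c with hCc
  set E : Finset (ZMod R)ˣ := Cc.filter fun g => ∃ i, hit q i (g : ZMod R).val with hE
  have hEN : ∀ g : (ZMod R)ˣ, (K.filter fun k => g * k ∈ E).card ≤ N := by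
    intro g
    have h6 : ∀ k ∈ K.filter fun k => g * k ∈ E, ∃ i : Fin N,
        hit q i ((g * k : (ZMod R)ˣ) : ZMod R).val := by
      intro k hk
      exact (mem_filter.1 (mem_filter.1 hk).2).2
    by_cases hN0 : N = 0
    · have h7 : (K.filter fun k => g * k ∈ E) = ∅ := by
        rw [Finset.eq_empty_iff_forall_notMem]
        intro k hk
        obtain ⟨i, _⟩ := h6 k hk
        subst hN0
        exact i.elim0
      rw [h7, card_empty]
      exact Nat.zero_le _
    · have hne : Nonempty (Fin N) := ⟨⟨0, Nat.pos_of_ne_zero hN0⟩⟩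
      choose! fi hfi using h6
      have h7 : (K.filter fun k => g * k ∈ E).card ≤ (univ : Finset (Fin N)).card := by
        refine Finset.card_le_card_of_injOn fi (fun _ _ => mem_coe.2 (mem_univ _)) ?_
        intro k hk k' hk' he
        have ha := hfi k (mem_coe.1 hk)
        have hb := hfi k' (mem_coe.1 hk')
        rw [he] at ha
        exact hK2 g k (mem_filter.1 (mem_coe.1 hk)).1 k' (mem_filter.1 (mem_coe.1 hk')).1
          (hb_one hS hq _ ha hb)
      rwa [card_univ, Fintype.card_fin] at h7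
  have hq0q : q0 ≤ q := hq0 q hq
  have h2N : 2 * N ≤ K.card := by
    rw [hKc]
    omega
  have hinv : ∀ g : (ZMod R)ˣ, ∀ k ∈ K, g ∉ E → g * k ∉ E → H (g * k) = H g := by
    intro g k hk hg hgk'
    simp only [hH]
    by_cases hc : (g : ZMod R).val % P = c
    · rw [if_pos ((hclass g k hk).2 hc), if_pos hc]
      simp only [hF]
      congr 1
      refine hb_conf fun q' hq' i => ?_
      by_cases hqq : q' = q
      · subst hqq
        have h6 : ¬ hit q' i (g : ZMod R).val := fun hh =>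
          hg (mem_filter.2 ⟨mem_filter.2 ⟨mem_univ _, hc⟩, i, hh⟩)
        have h7 : ¬ hit q' i ((g * k : (ZMod R)ˣ) : ZMod R).val := fun hh =>
          hgk' (mem_filter.2 ⟨mem_filter.2 ⟨mem_univ _, (hclass g k hk).2 hc⟩, i, hh⟩)
        exact ⟨fun hh => absurd hh h7, fun hh => absurd hh h6⟩
      · refine hb_hit hS hq' i ((hgk g k hk).of_dvd ?_)
        rw [hRq]
        have h6 : q' ∣ q * M' := by
          rw [← hM', hM]
          exact Finset.dvd_prod_of_mem (fun y => y) hq'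
        exact (((hS.sys.co q' hq' q hq hqq).dvd_of_dvd_mul_left h6)).mul_left P
    · rw [if_neg (fun h => hc ((hclass g k hk).1 h)), if_neg hc]
  have hmain := h1 (ZMod R)ˣ K (hbPsi χ) H E N hK_one hK_mul hK_inv
    (fun g => by
      rw [hbPsi_apply]
      exact DirichletCharacter.unit_norm_eq_one _ g)
    ⟨k0, hk0, by
      rw [hbPsi_apply, MulChar.inv_apply_eq_inv']
      intro h
      exact hk0χ (inv_eq_one.1 h)⟩
    hEN h2N hinv
  have hhat : hat R P c F χ = ∑ g : (ZMod R)ˣ, (H g : ℂ) * hbPsi χ g := by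
    rw [hb_hat R P c F χ]
    rfl
  -- the number of the units in the class
  have hCcard : (Cc.card : ℝ) = (M.totient : ℝ) := by
    have h6 := h4 P M c (fun _ => 1) hP hMpos hPQ hcP hcop (fun _ => rfl)
    rw [← hR] at h6
    have h7 : (∑ t ∈ (range M).filter (fun t => t.Coprime M), (1 : ℝ)) = M.totient := by
      rw [Finset.sum_const, nsmul_eq_mul, mul_one]
      congr 1
      rw [Nat.totient_eq_card_coprime]
      congr 1
      refine Finset.filter_congr fun t _ => ?_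
      exact Nat.coprime_comm
    rw [← h7, ← h6]
    have h8 : (Cc.card : ℝ) = ∑ g : (ZMod R)ˣ,
        (fun x : ℕ => if x % P = c then (1 : ℝ) else 0) (g : ZMod R).val := by
      rw [hCc, Finset.card_filter]
      push_cast
      rfl
    rw [h8, hb_units R (fun x : ℕ => if x % P = c then (1 : ℝ) else 0), ← Finset.sum_filter,
      Finset.filter_filter]
    refine Finset.sum_congr ?_ fun _ _ => rfl
    refine Finset.filter_congr fun x _ => ?_
    exact and_comm
  -- the second moment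
  have hS2 : ∑ g, H g ^ 2 ≤ (M.totient : ℝ) * ER Q hit (fun ω => Φ ω ^ 2) := by
    set f2 : ℕ → ℝ := fun x => Th Q (fun ω => Φ ω ^ 2) (conf Q hit x) with hf2
    have hper : ∀ t, f2 (t + M) = f2 t := by
      intro t
      simp only [hf2]
      congr 1
      refine hb_conf fun q' hq' i => hb_hit hS hq' i ?_
      have h6 : q' ∣ M := by
        rw [hM]
        exact Finset.dvd_prod_of_mem (fun y => y) hq'
      have h7 : t + M ≡ t + 0 [MOD q'] := Nat.ModEq.add_left t ((Nat.modEq_zero_iff_dvd).2 h6)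
      rwa [add_zero] at h7
    have h6 := h4 P M c f2 hP hMpos hPQ hcP hcop hper
    rw [← hR] at h6
    have h7 := h3 N Q hit hS (fun ω => Φ ω ^ 2)
    rw [← hM] at h7
    rw [← h7]
    have h8 : (∑ t ∈ (range M).filter (fun t => t.Coprime M), f2 t) =
        ∑ t ∈ (range M).filter (fun t => t.Coprime M),
          Th Q (fun ω => Φ ω ^ 2) (conf Q hit t) := rfl
    rw [← h8, ← h6]
    have h9 : (∑ x ∈ (range R).filter (fun x => x % P = c ∧ x.Coprime R), f2 x) =
        ∑ g : (ZMod R)ˣ, (fun x : ℕ => if x % P = c then f2 x else 0) (g : ZMod R).val := by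
      rw [hb_units R (fun x : ℕ => if x % P = c then f2 x else 0), ← Finset.sum_filter,
        Finset.filter_filter]
      refine Finset.sum_congr ?_ fun _ _ => rfl
      refine Finset.filter_congr fun x _ => ?_
      exact and_comm
    rw [h9]
    refine Finset.sum_le_sum fun g _ => ?_
    simp only [hH]
    split_ifs with hc
    · rw [hF]
      exact h5 N Q Φ _ fun q hq => hQpos q hq
    · norm_num
  -- the number of the elements of `E`
  have hEcard : (K.card : ℝ) * E.card ≤ N * (M.totient : ℝ) := by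
    have h6 : ∀ k : (ZMod R)ˣ, (∑ g : (ZMod R)ˣ, (if g * k ∈ E then (1 : ℝ) else 0)) = E.card := by
      intro k
      have h7 : (∑ g : (ZMod R)ˣ, (if g * k ∈ E then (1 : ℝ) else 0)) =
          ∑ g : (ZMod R)ˣ, (if g ∈ E then (1 : ℝ) else 0) :=
        Equiv.sum_comp (Equiv.mulRight k) (fun g => if g ∈ E then (1 : ℝ) else 0)
      rw [h7, Finset.sum_boole, Finset.filter_mem_eq_inter, Finset.univ_inter]
    have h8 : (K.card : ℝ) * E.card =
        ∑ g : (ZMod R)ˣ, ∑ k ∈ K, (if g * k ∈ E then (1 : ℝ) else 0) := by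
      rw [Finset.sum_comm, Finset.sum_congr rfl fun k _ => h6 k, Finset.sum_const, nsmul_eq_mul]
    rw [h8, ← hCcard]
    calc ∑ g : (ZMod R)ˣ, ∑ k ∈ K, (if g * k ∈ E then (1 : ℝ) else 0)
        ≤ ∑ g : (ZMod R)ˣ, (if g ∈ Cc then (N : ℝ) else 0) := by
          refine Finset.sum_le_sum fun g _ => ?_
          split_ifs with hg
          · rw [Finset.sum_boole]
            exact_mod_cast hEN g
          · refine le_of_eq (Finset.sum_eq_zero fun k hk => ?_)
            rw [if_neg]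
            intro hgk'
            apply hg
            rw [hCc, mem_filter]
            have h9 := (mem_filter.1 (mem_filter.1 hgk').1).2
            exact ⟨mem_univ _, (hclass g k hk).1 h9⟩
      _ = N * (Cc.card : ℝ) := by
          rw [← Finset.sum_filter, Finset.filter_mem_eq_inter, Finset.univ_inter, Finset.sum_const,
            nsmul_eq_mul, mul_comm]
  have hq2 : (2 : ℝ) ≤ q := by exact_mod_cast hqp.two_le
  have hKr : (K.card : ℝ) = (q : ℝ) - 1 := by
    rw [hKc, Nat.cast_sub hqp.one_le, Nat.cast_one]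
  set T : ℝ := (M.totient : ℝ) with hT
  set V : ℝ := ER Q hit (fun ω => Φ ω ^ 2) with hV
  have hTpos : 0 < T := by
    rw [hT]
    exact_mod_cast Nat.totient_pos.2 hMpos
  have hV0 : 0 ≤ V := by
    have h6 : 0 ≤ ∑ g, H g ^ 2 := Finset.sum_nonneg fun g _ => sq_nonneg _
    by_contra hneg
    push Not at hneg
    have := mul_neg_of_pos_of_neg hTpos hneg
    linarith
  set t : ℝ := (N : ℝ) / ((q : ℝ) - 1) with ht
  have hq1 : 0 < (q : ℝ) - 1 := by linarith
  have ht0 : 0 ≤ t := div_nonneg (Nat.cast_nonneg _) hq1.le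
  have h2N' : (2 : ℝ) * N ≤ (q : ℝ) - 1 := by
    rw [← hKr]
    exact_mod_cast h2N
  have ht2 : t ≤ 1 / 2 := by
    rw [ht, div_le_iff₀ hq1]
    linarith
  have hEt : (E.card : ℝ) ≤ t * T := by
    rw [hKr] at hEcard
    rw [ht, div_mul_eq_mul_div, le_div_iff₀ hq1, mul_comm]
    exact hEcard
  have hsT : √(T * (T * V)) = T * √V := by
    rw [show T * (T * V) = T ^ 2 * V by ring, Real.sqrt_mul (by positivity), Real.sqrt_sq hTpos.le]
  have ha : ∑ g ∈ E, |H g| ≤ √t * (T * √V) := by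
    have h6 := hb_cs E H (t * T) (T * V) hEt hS2
    rw [show t * T * (T * V) = t * (T * (T * V)) by ring, Real.sqrt_mul ht0, hsT] at h6
    exact h6
  have hb : ∑ g, |H g| ≤ T * √V := by
    have h6 : ∑ g, |H g| = ∑ g ∈ Cc, |H g| := by
      symm
      refine Finset.sum_subset (Finset.subset_univ _) fun g _ hg => ?_
      have h7 : ¬ (g : ZMod R).val % P = c := fun h => hg (mem_filter.2 ⟨mem_univ _, h⟩)
      simp only [hH]
      rw [if_neg h7, abs_zero]
    rw [h6, ← hsT]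
    exact hb_cs Cc H T (T * V) hCcard.le hS2
  have hfin := hb_real _ _ t _ ha hb (by positivity) ht0 ht2
  have hmono : √t ≤ √((N : ℝ) / ((q0 : ℝ) - 1)) := by
    apply Real.sqrt_le_sqrt
    rcases Nat.eq_zero_or_pos N with hN0 | hN0
    · rw [ht, hN0]
      simp
    · have h6 : (3 : ℝ) ≤ q0 := by
        have : 3 ≤ q0 := by omega
        exact_mod_cast this
      have h7 : (q0 : ℝ) ≤ q := by exact_mod_cast hq0q
      rw [ht]
      exact div_le_div_of_nonneg_left (Nat.cast_nonneg _) (by linarith) (by linarith)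
  rw [← hF, hhat]
  refine hmain.trans ?_
  rw [hKr]
  have h6 : 2 * (N : ℝ) / ((q : ℝ) - 1) = 2 * t := by
    rw [ht]
    ring
  rw [h6]
  refine hfin.trans ?_
  have h7 : 3 * √t * (T * √V) ≤ 3 * √((N : ℝ) / ((q0 : ℝ) - 1)) * (T * √V) := by
    refine mul_le_mul_of_nonneg_right ?_ (by positivity)
    linarith
  refine h7.trans (le_of_eq ?_)
  ring

theorem HatBd_p (h1 : CosetStmt) (h2 : KerQStmt) (h3 : UnitsStmt) (h4 : ClassSumStmt)
    (h5 : ThSqStmt) : HatBdStmt := by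
  intro N Q hit hS P c hP hPQ hcP hcop q0 hq0 hN Φ χ hcond
  -- a prime of `Q` divides the conductor
  obtain ⟨q, hq, hqc⟩ : ∃ q ∈ Q, q ∣ χ.conductor := by
    by_contra hcon
    push Not at hcon
    apply hcond
    have h6 : χ.conductor.Coprime (∏ q ∈ Q, q) := by
      refine Nat.Coprime.prod_right fun q hq => ?_
      exact ((Nat.Prime.coprime_iff_not_dvd (hS.pr q hq)).2 (hcon q hq)).symm
    exact h6.dvd_of_dvd_mul_right (DirichletCharacter.conductor_dvd_level χ)
  obtain ⟨K, hK1, hKc, hK2, hK3⟩ := h2 Q P hP hS.pr hPQ q hq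
  exact hb_main h1 h3 h4 h5 N Q hit hS P c hP (∏ q ∈ Q, q) rfl hPQ hcP hcop q0 hq0 hN Φ
    (P * ∏ q ∈ Q, q) rfl χ q hq K hK1 hKc hK2 (hK3 χ hqc)

end Pool.Agent.PTr
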