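import Pool.Agent.Lib.PTr.Defs

/-!
# The Fourier coefficients at the characters of conductor dividing `P`
-/

set_option autoImplicit false

namespace Pool.Agent.PTr

open Finset Pool.Agent.GapSieve Pool.Agent.PosProp

private lemma hatP_per {N : ℕ} {Q : Finset ℕ} {hit : ℕ → Fin N → ℕ → Prop} (hQ : PSys Q hit)
    (t : ℕ) : conf Q hit (t + ∏ q ∈ Q, q) = conf Q hit t := by
  classical
  have key : ∀ q ∈ Q, ∀ i, ∀ k t : ℕ, hit q i (t + q * k) ↔ hit q i t := by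
    intro q hq i k
    induction k with
    | zero => intro t; simp
    | succ k ih =>
      intro t
      rw [Nat.mul_succ, ← Nat.add_assoc, hQ.sys.per q hq i, ih]
  funext i
  unfold conf
  refine filter_congr fun q hq => ?_
  obtain ⟨k, hk⟩ := dvd_prod_of_mem (fun q : ℕ => q) hq
  have h1 : ∏ q ∈ Q, q = q * k := hk
  rw [h1]
  exact key q hq i k t

/-- **HatP** -/
theorem HatP_p (h1 : UnitsStmt) (h2 : ClassSumStmt) : HatPStmt := by
  intro N Q hit hQ P c hP hPQ hc hcP Φ hΦ χ hχ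
  have hM : 0 < ∏ q ∈ Q, q := prod_pos fun q hq => hQ.sys.pos q hq
  have hcop : ∀ x : ℕ, x.Coprime (P * ∏ q ∈ Q, q) → x % P = c →
      χ⁻¹ ((x : ℕ) : ZMod (P * ∏ q ∈ Q, q)) =
        (χ.primitiveCharacter ((c : ℕ) : ZMod χ.conductor))⁻¹ := by
    intro x hx hxc
    rw [MulChar.inv_apply_eq_inv']
    congr 1
    have h3 : IsCoprime ((x : ℕ) : ℤ) ((P * ∏ q ∈ Q, q : ℕ) : ℤ) :=
      Nat.isCoprime_iff_coprime.2 hx
    have h4 := DirichletCharacter.changeLevel_eq_cast_of_dvd' χ.primitiveCharacter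
      χ.conductor_dvd_level h3
    rw [χ.changeLevel_primitiveCharacter] at h4
    have h5 : χ ((x : ℕ) : ZMod (P * ∏ q ∈ Q, q)) =
        χ.primitiveCharacter ((x : ℕ) : ZMod χ.conductor) := by
      have h6 := h4
      push_cast at h6
      exact h6
    rw [h5]
    congr 1
    rw [ZMod.natCast_eq_natCast_iff]
    have h7 : x ≡ c [MOD P] := by
      unfold Nat.ModEq
      rw [hxc, Nat.mod_eq_of_lt hc]
    exact h7.of_dvd hχ
  have hnon : ∀ x : ℕ, ¬ x.Coprime (P * ∏ q ∈ Q, q) →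
      χ⁻¹ ((x : ℕ) : ZMod (P * ∏ q ∈ Q, q)) = 0 := by
    intro x hx
    refine MulChar.map_nonunit _ fun h => hx ((ZMod.isUnit_iff_coprime _ _).1 h)
  have hsum : ∑ x ∈ (range (P * ∏ q ∈ Q, q)).filter
      (fun x => x % P = c ∧ x.Coprime (P * ∏ q ∈ Q, q)), Th Q Φ (conf Q hit x) = 0 := by
    rw [h2 P (∏ q ∈ Q, q) c (fun x => Th Q Φ (conf Q hit x)) hP hM hPQ hc hcP
      (fun t => by rw [hatP_per hQ t]), h1 N Q hit hQ Φ, hΦ, mul_zero]
  unfold hat
  rw [← filter_filter] at hsum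
  have h8 : ∑ x ∈ (range (P * ∏ q ∈ Q, q)).filter (fun x => x % P = c),
      ((Th Q Φ (conf Q hit x) : ℝ) : ℂ) * χ⁻¹ ((x : ℕ) : ZMod (P * ∏ q ∈ Q, q)) =
      ∑ x ∈ ((range (P * ∏ q ∈ Q, q)).filter (fun x => x % P = c)).filter
        (fun x => x.Coprime (P * ∏ q ∈ Q, q)),
      ((Th Q Φ (conf Q hit x) : ℝ) : ℂ) *
        (χ.primitiveCharacter ((c : ℕ) : ZMod χ.conductor))⁻¹ := by
    rw [sum_filter (fun x : ℕ => x.Coprime (P * ∏ q ∈ Q, q))]
    refine sum_congr rfl fun x hx => ?_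
    split_ifs with h9
    · rw [hcop x h9 (mem_filter.1 hx).2]
    · rw [hnon x h9, mul_zero]
  rw [h8, ← sum_mul, ← Complex.ofReal_sum, hsum]
  simp

end Pool.Agent.PTr
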