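import Pool.Agent.Lib.PTr.Defs

/-! # HatZ: the Fourier coefficients of a function of bounded level vanish at large conductors -/

set_option autoImplicit false

namespace Pool.Agent.PTr

open Finset Pool.Agent.GapSieve Pool.Agent.PosProp

private lemma hatZ_add (R P c : ℕ) (f g : ℕ → ℝ) (χ : DirichletCharacter ℂ R) :
    hat R P c (fun x => f x + g x) χ = hat R P c f χ + hat R P c g χ := by
  unfold hat
  rw [← sum_add_distrib]
  refine sum_congr rfl fun x _ => ?_
  push_cast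
  ring

private lemma hatZ_sum (R : ℕ) [NeZero R] (h : ℕ → ℂ) :
    ∑ x ∈ range R, h x = ∑ z : ZMod R, h z.val := by
  symm
  refine sum_nbij' (fun z : ZMod R => z.val) (fun x : ℕ => (x : ZMod R)) ?_ ?_ ?_ ?_ ?_
  · intro z _
    exact mem_range.2 (ZMod.val_lt z)
  · intro x _
    exact mem_univ _
  · intro z _
    exact ZMod.natCast_zmod_val z
  · intro x hx
    exact ZMod.val_cast_of_lt (mem_range.1 hx)
  · intro z _
    rfl

/-- a function which depends only on the residue modulo `m` -/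
private lemma hatZ_core (R P c m : ℕ) [NeZero R] (hm : m ∣ R) (hP : P ∣ m) (f : ℕ → ℝ)
    (hf : ∀ x y, x ≡ y [MOD m] → f x = f y) (χ : DirichletCharacter ℂ R)
    (hχ : m < χ.conductor) : hat R P c f χ = 0 := by
  classical
  have h1 : ¬ χ.FactorsThrough m := fun h =>
    absurd (Nat.sInf_le (show m ∈ χ.conductorSet from h)) (not_le.2 hχ)
  rw [DirichletCharacter.factorsThrough_iff_ker_unitsMap hm] at h1
  obtain ⟨k, hk1, hk2⟩ := SetLike.not_le_iff_exists.1 h1
  rw [MonoidHom.mem_ker] at hk1 hk2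
  have hk3 : ZMod.castHom hm (ZMod m) (k : ZMod R) = 1 := by
    rw [ZMod.castHom_apply, ← ZMod.unitsMap_val hm k, hk1, Units.val_one]
  have hk4 : χ⁻¹ (k : ZMod R) ≠ 1 := by
    intro h
    apply hk2
    have h2 : χ (k : ZMod R) = 1 := by
      rw [MulChar.inv_apply_eq_inv'] at h
      exact inv_eq_one.1 h
    apply Units.ext
    rw [MulChar.coe_toUnitHom, h2, Units.val_one]
  have hmod : ∀ z : ZMod R, ((k : ZMod R) * z).val ≡ z.val [MOD m] := by
    intro z
    rw [← ZMod.natCast_eq_natCast_iff]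
    have e : ∀ w : ZMod R, ((w.val : ℕ) : ZMod m) = ZMod.castHom hm (ZMod m) w := fun w => by
      rw [ZMod.natCast_val, ZMod.castHom_apply]
    rw [e, e, map_mul, hk3, one_mul]
  set F : ℕ → ℂ := fun x => if x % P = c then (f x : ℂ) else 0 with hF
  have hFm : ∀ x y, x ≡ y [MOD m] → F x = F y := by
    intro x y hxy
    have h3 : x % P = y % P := hxy.of_dvd hP
    simp only [hF]
    rw [h3, hf x y hxy]
  have h5 : hat R P c f χ = ∑ z : ZMod R, F z.val * χ⁻¹ z := by
    unfold hat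
    rw [sum_filter]
    have := hatZ_sum R (fun x => if x % P = c then (f x : ℂ) * χ⁻¹ ((x : ℕ) : ZMod R) else 0)
    rw [this]
    refine sum_congr rfl fun z _ => ?_
    simp only [hF]
    rw [ZMod.natCast_zmod_val]
    split_ifs
    · rfl
    · rw [zero_mul]
  have h6 : ∑ z : ZMod R, F z.val * χ⁻¹ z = χ⁻¹ (k : ZMod R) * ∑ z : ZMod R, F z.val * χ⁻¹ z := by
    rw [mul_sum, ← Equiv.sum_comp (Units.mulLeft k) (fun z : ZMod R => F z.val * χ⁻¹ z)]
    refine sum_congr rfl fun z _ => ?_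
    rw [Units.mulLeft_apply, hFm _ _ (hmod z), map_mul]
    ring
  rw [h5]
  by_contra hne
  apply hk4
  have h7 : (1 - χ⁻¹ (k : ZMod R)) * ∑ z : ZMod R, F z.val * χ⁻¹ z = 0 := by
    rw [sub_mul, one_mul, ← h6, sub_self]
  rcases mul_eq_zero.1 h7 with h8 | h8
  · exact (sub_eq_zero.1 h8).symm
  · exact absurd h8 hne

/-- periodicity -/
private lemma hatZ_per {N : ℕ} {Q : Finset ℕ} {hit : ℕ → Fin N → ℕ → Prop} (hs : PSys Q hit)
    {q : ℕ} (hq : q ∈ Q) (i : Fin N) {x y : ℕ} (h : x ≡ y [MOD q]) : hit q i x ↔ hit q i y := by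
  have h1 : ∀ n t, hit q i (t + n * q) ↔ hit q i t := by
    intro n
    induction n with
    | zero => intro t; simp
    | succ n ih =>
      intro t
      rw [show t + (n + 1) * q = t + n * q + q by ring, hs.sys.per q hq i, ih]
  have h2 : ∀ t, hit q i t ↔ hit q i (t % q) := by
    intro t
    have := h1 (t / q) (t % q)
    rwa [Nat.mod_add_div'] at this
  rw [h2 x, h2 y]
  unfold Nat.ModEq at h
  rw [h]

theorem HatZ_p : HatZStmt := by
  intro N Q hit hs P c hP hcop hc D Φ hΦ χ hχ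
  have hQpos : ∀ q ∈ Q, 0 < q := fun q hq => (hs.pr q hq).pos
  have hR : 0 < P * ∏ q ∈ Q, q := Nat.mul_pos hP (prod_pos hQpos)
  have : NeZero (P * ∏ q ∈ Q, q) := ⟨hR.ne'⟩
  induction hΦ with
  | zero =>
    unfold hat
    apply sum_eq_zero
    intro x _
    rw [Complex.ofReal_zero, zero_mul]
  | cons T hT hD g f hg _ ih =>
    rw [hatZ_add, ih, add_zero]
    have hdvd : ∏ q ∈ T, q ∣ ∏ q ∈ Q, q := prod_dvd_prod_of_subset _ _ _ hT
    apply hatZ_core (P * ∏ q ∈ Q, q) P c (P * ∏ q ∈ T, q) (Nat.mul_dvd_mul_left P hdvd)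
      (Dvd.intro _ rfl)
    · intro x y hxy
      rw [← hg (conf Q hit x), ← hg (conf Q hit y)]
      congr 1
      funext i
      ext q
      simp only [mem_inter, conf, mem_filter]
      constructor
      · rintro ⟨⟨h1, h2⟩, h3⟩
        exact ⟨⟨h1, (hatZ_per hs h1 i ((hxy.of_dvd
          (Dvd.dvd.mul_left (dvd_prod_of_mem _ h3) P)))).1 h2⟩, h3⟩
      · rintro ⟨⟨h1, h2⟩, h3⟩
        exact ⟨⟨h1, (hatZ_per hs h1 i ((hxy.of_dvd
          (Dvd.dvd.mul_left (dvd_prod_of_mem _ h3) P)))).2 h2⟩, h3⟩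
    · have h1 : ((P * ∏ q ∈ T, q : ℕ) : ℝ) < (χ.conductor : ℝ) := by
        refine lt_of_le_of_lt ?_ hχ
        rw [Nat.cast_mul]
        exact mul_le_mul_of_nonneg_left hD (Nat.cast_nonneg _)
      exact_mod_cast h1

end Pool.Agent.PTr
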