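import Pool.Agent.Lib.PTr.Defs

set_option autoImplicit false

namespace Pool.Agent.PTr

open Finset Pool.Agent.GapSieve Pool.Agent.PosProp

private lemma KerQ_aux (m q R : ℕ) (hm : 0 < m) (hq : q.Prime) (hc : m.Coprime q)
    (hR : R = m * q) : ∃ K : Finset (ZMod R)ˣ,
    (∀ k, k ∈ K ↔ (k : ZMod R).val ≡ 1 [MOD m]) ∧
    K.card = q - 1 ∧
    (∀ g : (ZMod R)ˣ, ∀ k ∈ K, ∀ k' ∈ K,
      (g * k : (ZMod R)ˣ).val.val ≡ (g * k' : (ZMod R)ˣ).val.val [MOD q] → k = k') ∧
    (∀ χ : DirichletCharacter ℂ R, q ∣ χ.conductor →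
      ∃ k ∈ K, χ ((k : (ZMod R)ˣ) : ZMod R) ≠ 1) := by
  classical
  have hq0 : 0 < q := hq.pos
  have hR0 : 0 < R := by rw [hR]; exact Nat.mul_pos hm hq0
  have : NeZero R := ⟨hR0.ne'⟩
  have : NeZero m := ⟨hm.ne'⟩
  have : NeZero q := ⟨hq0.ne'⟩
  have hd : m ∣ R := ⟨q, hR⟩
  have key : ∀ k : (ZMod R)ˣ, k ∈ (ZMod.unitsMap hd).ker ↔ (k : ZMod R).val ≡ 1 [MOD m] := by
    intro k
    rw [MonoidHom.mem_ker, Units.ext_iff, ZMod.unitsMap_val, Units.val_one,
      ← ZMod.natCast_eq_natCast_iff, Nat.cast_one, ZMod.cast_eq_val]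
  refine ⟨univ.filter (fun k : (ZMod R)ˣ => (k : ZMod R).val ≡ 1 [MOD m]), ?_, ?_, ?_, ?_⟩
  · intro k; simp
  · have h1 : (univ.filter (fun k : (ZMod R)ˣ => (k : ZMod R).val ≡ 1 [MOD m])).card =
        Nat.card (ZMod.unitsMap hd).ker := by
      rw [Nat.card_eq_fintype_card, Fintype.card_subtype]
      congr 1
      ext k
      simp only [mem_filter, mem_univ, true_and]
      exact (key k).symm
    rw [h1]
    have h2 := (ZMod.unitsMap hd).ker.card_mul_index
    have h3 : (ZMod.unitsMap hd).ker.index = Nat.card (ZMod m)ˣ := by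
      rw [Subgroup.index_ker, MonoidHom.range_eq_top.2 (ZMod.unitsMap_surjective hd)]
      exact Nat.card_congr (Subgroup.topEquiv.toEquiv)
    have h4 : R.totient = (q - 1) * m.totient := by
      rw [hR, Nat.totient_mul hc, Nat.totient_prime hq, mul_comm]
    rw [h3, Nat.card_eq_fintype_card (α := (ZMod m)ˣ), Nat.card_eq_fintype_card (α := (ZMod R)ˣ),
      ZMod.card_units_eq_totient, ZMod.card_units_eq_totient, h4] at h2
    exact Nat.eq_of_mul_eq_mul_right (Nat.totient_pos.2 hm) h2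
  · intro g k hk k' hk' h
    simp only [mem_filter, mem_univ, true_and] at hk hk'
    have h1 : ((g * k : (ZMod R)ˣ) : ZMod R).val ≡ ((g * k' : (ZMod R)ˣ) : ZMod R).val [MOD m] := by
      rw [Units.val_mul, Units.val_mul, ZMod.val_mul, ZMod.val_mul]
      have e1 : (g : ZMod R).val * (k : ZMod R).val % R ≡ (g : ZMod R).val * (k : ZMod R).val
          [MOD m] := (Nat.mod_modEq _ _).of_dvd hd
      have e2 : (g : ZMod R).val * (k' : ZMod R).val % R ≡ (g : ZMod R).val * (k' : ZMod R).val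
          [MOD m] := (Nat.mod_modEq _ _).of_dvd hd
      exact e1.trans (((hk.trans hk'.symm).mul_left _).trans e2.symm)
    have h2 : ((g * k : (ZMod R)ˣ) : ZMod R).val ≡ ((g * k' : (ZMod R)ˣ) : ZMod R).val [MOD R] := by
      have h3 := (Nat.modEq_and_modEq_iff_modEq_mul hc).1 ⟨h1, h⟩
      rw [← hR] at h3
      exact h3
    have h3 : ((g * k : (ZMod R)ˣ) : ZMod R).val = ((g * k' : (ZMod R)ˣ) : ZMod R).val :=
      Nat.ModEq.eq_of_lt_of_lt h2 (ZMod.val_lt _) (ZMod.val_lt _)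
    have h4 : (g * k : (ZMod R)ˣ) = (g * k' : (ZMod R)ˣ) := Units.ext (ZMod.val_injective R h3)
    exact mul_left_cancel h4
  · intro χ hχ
    by_contra hcon
    push Not at hcon
    have h1 : χ.FactorsThrough m := by
      rw [DirichletCharacter.factorsThrough_iff_ker_unitsMap hd]
      intro k hk
      rw [MonoidHom.mem_ker]
      have h2 := hcon k (by
        simp only [mem_filter, mem_univ, true_and]
        exact (key k).1 hk)
      apply Units.ext
      rw [MulChar.coe_toUnitHom, h2, Units.val_one]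
    have h2 : χ.conductor ∣ m := χ.conductor_dvd_of_mem_conductorSet h1
    have h3 : q ∣ m := hχ.trans h2
    have h4 : q ∣ 1 := by
      have := Nat.dvd_gcd h3 (dvd_refl q)
      rwa [hc] at this
    exact hq.one_lt.ne' (Nat.dvd_one.1 h4)

theorem KerQ_p : KerQStmt := by
  classical
  intro Q P hP hQ hc q hq
  have hqp : q.Prime := hQ q hq
  have e1 : P * ∏ r ∈ Q, r = (P * ∏ r ∈ Q.erase q, r) * q := by
    rw [← Finset.prod_erase_mul Q (fun r => r) hq, mul_assoc]
  have e2 : (P * ∏ r ∈ Q, r) / q = P * ∏ r ∈ Q.erase q, r := by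
    rw [e1, Nat.mul_div_cancel _ hqp.pos]
  have h1 : 0 < P * ∏ r ∈ Q.erase q, r :=
    Nat.mul_pos hP (prod_pos fun r hr => (hQ r (mem_of_mem_erase hr)).pos)
  have h2 : (P * ∏ r ∈ Q.erase q, r).Coprime q := by
    refine Nat.Coprime.mul_left (Nat.Coprime.coprime_dvd_right (dvd_prod_of_mem _ hq) hc) ?_
    refine Nat.Coprime.prod_left fun r hr => ?_
    exact (Nat.coprime_primes (hQ r (mem_of_mem_erase hr)) hqp).2 (ne_of_mem_erase hr)
  rw [e2]
  exact KerQ_aux _ q _ h1 hqp h2 e1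

end Pool.Agent.PTr
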