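import Pool.Agent.Lib.PosProp.Abs

/-!
# Functions of the configuration of bounded level

`CLev Q D f`: `f` is a finite sum of functions, each of which depends only on the primes of a set
`T ⊆ Q` with `∏ T ≤ D`.
-/

set_option autoImplicit false

open Finset Pool.Agent.GapSieve Pool.Agent.PosProp

namespace Pool.Agent.PTr

/-- `f` is a sum of functions of level at most `D` -/
inductive CLev {N : ℕ} (Q : Finset ℕ) (D : ℝ) : ((Fin N → Finset ℕ) → ℝ) → Prop
  | zero : CLev Q D (fun _ => 0)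
  | cons (T : Finset ℕ) (hT : T ⊆ Q) (hD : ((∏ q ∈ T, q : ℕ) : ℝ) ≤ D)
      (g f : (Fin N → Finset ℕ) → ℝ) (hg : ∀ ω, g (fun i => ω i ∩ T) = g ω)
      (h : CLev Q D f) : CLev Q D (fun ω => g ω + f ω)

variable {N : ℕ} {Q : Finset ℕ} {D D' : ℝ}

lemma CLev.congr {f g : (Fin N → Finset ℕ) → ℝ} (h : CLev Q D f) (hfg : ∀ ω, f ω = g ω) :
    CLev Q D g := by
  have : f = g := funext hfg
  rwa [← this]

lemma CLev.mono {f : (Fin N → Finset ℕ) → ℝ} (hD : D ≤ D') (h : CLev Q D f) : CLev Q D' f := by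
  induction h with
  | zero => exact CLev.zero
  | cons T hT hD1 g f hg _ ih => exact CLev.cons T hT (hD1.trans hD) g f hg ih

lemma CLev.atom {T : Finset ℕ} (hT : T ⊆ Q) (hD : ((∏ q ∈ T, q : ℕ) : ℝ) ≤ D)
    {g : (Fin N → Finset ℕ) → ℝ} (hg : ∀ ω, g (fun i => ω i ∩ T) = g ω) : CLev Q D g :=
  (CLev.cons T hT hD g _ hg CLev.zero).congr fun _ => by ring

lemma CLev.const (c : ℝ) (hD : 1 ≤ D) : CLev (N := N) Q D (fun _ => c) :=
  CLev.atom (T := ∅) (empty_subset Q) (by simpa using hD) fun _ => rfl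

lemma CLev.add {f g : (Fin N → Finset ℕ) → ℝ} (hf : CLev Q D f) (hg : CLev Q D g) :
    CLev Q D (fun ω => f ω + g ω) := by
  induction hf with
  | zero => exact hg.congr fun _ => by ring
  | cons T hT hD1 g1 f1 hg1 _ ih =>
    exact (CLev.cons T hT hD1 g1 _ hg1 ih).congr fun _ => by ring

lemma CLev.smul {f : (Fin N → Finset ℕ) → ℝ} (c : ℝ) (hf : CLev Q D f) :
    CLev Q D (fun ω => c * f ω) := by
  induction hf with
  | zero => exact CLev.zero.congr fun _ => by ring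
  | cons T hT hD1 g1 f1 hg1 _ ih =>
    exact (CLev.cons T hT hD1 (fun ω => c * g1 ω) _ (fun ω => by rw [hg1]) ih).congr
      fun _ => by ring

lemma CLev.sum {κ : Type*} (s : Finset κ) (f : κ → (Fin N → Finset ℕ) → ℝ)
    (h : ∀ x ∈ s, CLev Q D (f x)) : CLev Q D (fun ω => ∑ x ∈ s, f x ω) := by
  classical
  induction s using Finset.induction_on with
  | empty => exact CLev.zero.congr fun _ => by simp
  | insert a s ha ih =>
    exact ((h a (mem_insert_self a s)).add (ih fun x hx => h x (mem_insert_of_mem hx))).congr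
      fun _ => by rw [sum_insert ha]

private lemma prod_union_le {T T' : Finset ℕ} (hT : ∀ q ∈ T, 0 < q) :
    ((∏ q ∈ T ∪ T', q : ℕ) : ℝ) ≤ ((∏ q ∈ T, q : ℕ) : ℝ) * ((∏ q ∈ T', q : ℕ) : ℝ) := by
  have h1 : (∏ q ∈ T ∪ T', q) * ∏ q ∈ T ∩ T', q = (∏ q ∈ T, q) * ∏ q ∈ T', q :=
    prod_union_inter
  have h2 : 0 < ∏ q ∈ T ∩ T', q := prod_pos fun q hq => hT q (mem_inter.1 hq).1
  have h3 : (∏ q ∈ T ∪ T', q) ≤ (∏ q ∈ T, q) * ∏ q ∈ T', q := by
    rw [← h1]; exact Nat.le_mul_of_pos_right _ h2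
  exact_mod_cast h3

private lemma one_le_prod' {T : Finset ℕ} (hT : ∀ q ∈ T, 0 < q) :
    (1 : ℝ) ≤ ((∏ q ∈ T, q : ℕ) : ℝ) := by
  have : 0 < ∏ q ∈ T, q := prod_pos hT
  exact_mod_cast this

private lemma CLev.atom_mul (hQ : ∀ q ∈ Q, 0 < q) {T : Finset ℕ} (hT : T ⊆ Q)
    (hD : ((∏ q ∈ T, q : ℕ) : ℝ) ≤ D) {g : (Fin N → Finset ℕ) → ℝ}
    (hg : ∀ ω, g (fun i => ω i ∩ T) = g ω) {f : (Fin N → Finset ℕ) → ℝ} (hf : CLev Q D' f) :
    CLev Q (D * D') (fun ω => g ω * f ω) := by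
  have hT1 := one_le_prod' (T := T) fun q hq => hQ q (hT hq)
  induction hf with
  | zero => exact CLev.zero.congr fun _ => by ring
  | cons T' hT' hD1 g1 f1 hg1 _ ih =>
    have hT1' := one_le_prod' (T := T') fun q hq => hQ q (hT' hq)
    have h1 : ((∏ q ∈ T ∪ T', q : ℕ) : ℝ) ≤ D * D' := by
      refine (prod_union_le fun q hq => hQ q (hT hq)).trans ?_
      exact mul_le_mul hD hD1 (by linarith) (by linarith)
    refine (CLev.cons (T ∪ T') (union_subset hT hT') h1 (fun ω => g ω * g1 ω) _ ?_ ih).congr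
      fun _ => by ring
    intro ω
    have e1 : g (fun i => ω i ∩ (T ∪ T')) = g ω := by
      rw [← hg (fun i => ω i ∩ (T ∪ T')), ← hg ω]
      congr 1
      funext i
      rw [inter_assoc, inter_eq_right.2 subset_union_left]
    have e2 : g1 (fun i => ω i ∩ (T ∪ T')) = g1 ω := by
      rw [← hg1 (fun i => ω i ∩ (T ∪ T')), ← hg1 ω]
      congr 1
      funext i
      rw [inter_assoc, inter_eq_right.2 subset_union_right]
    rw [e1, e2]

lemma CLev.mul (hQ : ∀ q ∈ Q, 0 < q) {f g : (Fin N → Finset ℕ) → ℝ} (hf : CLev Q D f)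
    (hg : CLev Q D' g) : CLev Q (D * D') (fun ω => f ω * g ω) := by
  induction hf with
  | zero => exact CLev.zero.congr fun _ => by ring
  | cons T hT hD1 g1 f1 hg1 _ ih =>
    exact ((CLev.atom_mul hQ hT hD1 hg1 hg).add ih).congr fun _ => by ring

lemma CLev.prod (hQ : ∀ q ∈ Q, 0 < q) {κ : Type*} (s : Finset κ)
    (f : κ → (Fin N → Finset ℕ) → ℝ) (W : κ → ℝ) (h : ∀ x ∈ s, CLev Q (W x) (f x)) :
    CLev Q (∏ x ∈ s, W x) (fun ω => ∏ x ∈ s, f x ω) := by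
  classical
  induction s using Finset.induction_on with
  | empty => exact (CLev.const 1 (by simp)).congr fun _ => by simp
  | insert a s ha ih =>
    have h2 := (h a (mem_insert_self a s)).mul hQ (ih fun x hx => h x (mem_insert_of_mem hx))
    rw [prod_insert ha]
    exact h2.congr fun _ => by rw [prod_insert ha]

lemma CLev.pow (hQ : ∀ q ∈ Q, 0 < q) {f : (Fin N → Finset ℕ) → ℝ} (h : CLev Q D f) (n : ℕ) :
    CLev Q (D ^ n) (fun ω => f ω ^ n) := by
  have h2 := CLev.prod hQ (range n) (fun _ => f) (fun _ => D) (fun _ _ => h)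
  simpa using h2

/-- one-site functions of level `D` -/
def SLev (Q : Finset ℕ) (D : ℝ) (f : Finset ℕ → ℝ) : Prop :=
  ∀ (N : ℕ) (F : (Fin N → Finset ℕ) → Finset ℕ),
    (∀ ω T, F (fun i => ω i ∩ T) = F ω ∩ T) → CLev Q D (fun ω => f (F ω))

lemma SLev.site {f : Finset ℕ → ℝ} (h : SLev Q D f) (i : Fin N) :
    CLev Q D (fun ω : Fin N → Finset ℕ => f (ω i)) := h N (fun ω => ω i) fun _ _ => rfl

lemma site_update (i j : Fin N) : ∀ (ω : Fin N → Finset ℕ) (T : Finset ℕ),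
    Function.update (fun i => ω i ∩ T) i ∅ j = Function.update ω i ∅ j ∩ T := by
  intro ω T
  by_cases hj : j = i
  · subst hj; simp
  · rw [Function.update_of_ne hj, Function.update_of_ne hj]

lemma SLev.upd {f : Finset ℕ → ℝ} (h : SLev Q D f) (i j : Fin N) :
    CLev Q D (fun ω : Fin N → Finset ℕ => f (Function.update ω i ∅ j)) :=
  h N (fun ω => Function.update ω i ∅ j) (site_update i j)

lemma SLev.atom {T : Finset ℕ} (hT : T ⊆ Q) (hD : ((∏ q ∈ T, q : ℕ) : ℝ) ≤ D)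
    {g : Finset ℕ → ℝ} (hg : ∀ ω, g (ω ∩ T) = g ω) : SLev Q D g := fun _ _ hF =>
  CLev.atom hT hD fun ω => by rw [hF, hg]

lemma SLev.zero : SLev Q D (fun _ => 0) := fun _ _ _ => CLev.zero

lemma SLev.congr {f g : Finset ℕ → ℝ} (h : SLev Q D f) (hfg : ∀ ω, f ω = g ω) :
    SLev Q D g := fun N F hF => (h N F hF).congr fun _ => hfg _

lemma SLev.mono {f : Finset ℕ → ℝ} (hD : D ≤ D') (h : SLev Q D f) : SLev Q D' f :=
  fun N F hF => (h N F hF).mono hD

lemma SLev.const (c : ℝ) (hD : 1 ≤ D) : SLev Q D (fun _ => c) := fun _ _ _ => CLev.const c hD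

lemma SLev.add {f g : Finset ℕ → ℝ} (hf : SLev Q D f) (hg : SLev Q D g) :
    SLev Q D (fun ω => f ω + g ω) := fun N F hF => (hf N F hF).add (hg N F hF)

lemma SLev.smul {f : Finset ℕ → ℝ} (c : ℝ) (hf : SLev Q D f) : SLev Q D (fun ω => c * f ω) :=
  fun N F hF => (hf N F hF).smul c

lemma SLev.sum {κ : Type*} (s : Finset κ) (f : κ → Finset ℕ → ℝ) (h : ∀ x ∈ s, SLev Q D (f x)) :
    SLev Q D (fun ω => ∑ x ∈ s, f x ω) := fun N F hF =>
  CLev.sum s (fun x ω => f x (F ω)) fun x hx => h x hx N F hF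

lemma SLev.mul (hQ : ∀ q ∈ Q, 0 < q) {f g : Finset ℕ → ℝ} (hf : SLev Q D f) (hg : SLev Q D' g) :
    SLev Q (D * D') (fun ω => f ω * g ω) := fun N F hF => (hf N F hF).mul hQ (hg N F hF)

lemma SLev.prod (hQ : ∀ q ∈ Q, 0 < q) {κ : Type*} (s : Finset κ) (f : κ → Finset ℕ → ℝ)
    (W : κ → ℝ) (h : ∀ x ∈ s, SLev Q (W x) (f x)) :
    SLev Q (∏ x ∈ s, W x) (fun ω => ∏ x ∈ s, f x ω) := fun N F hF =>
  CLev.prod hQ s (fun x ω => f x (F ω)) W fun x hx => h x hx N F hF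

lemma SLev.pow (hQ : ∀ q ∈ Q, 0 < q) {f : Finset ℕ → ℝ} (h : SLev Q D f) (n : ℕ) :
    SLev Q (D ^ n) (fun ω => f ω ^ n) := fun N F hF => (h N F hF).pow hQ n

/-- level of the truncated product -/
theorem GG_lev {S : Type*} (hQ : ∀ q ∈ Q, 0 < q) {T : Finset S} {e : S → Finset ℕ → ℝ}
    {d : S → ℝ} (F : Fin N → (Fin N → Finset ℕ) → Finset ℕ)
    (he : ∀ i, ∀ s ∈ T, CLev Q (Real.exp (d s)) (fun ω => e s (F i ω))) (L : ℝ) :
    CLev Q (Real.exp L) (fun ω => GG T e d L (fun i => F i ω)) := by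
  classical
  unfold GG ePi
  refine CLev.sum _ (fun (σ : Fin N → S) ω => ∏ i, e (σ i) (F i ω)) fun σ hσ => ?_
  obtain ⟨h1, h2⟩ := mem_filter.1 hσ
  have h3 := CLev.prod hQ univ (fun i ω => e (σ i) (F i ω)) (fun i => Real.exp (d (σ i)))
    fun i _ => he i _ (mem_Pi.1 h1 i)
  refine h3.mono ?_
  rw [← Real.exp_sum]
  exact Real.exp_le_exp.2 h2

end Pool.Agent.PTr
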