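import Pool.Agent.Lib.PTr.Defs

/-!
# Level of the beta weight
-/

set_option autoImplicit false

namespace Pool.Agent.PTr

open Finset Pool.Agent.GapSieve Pool.Agent.PosProp

private lemma lev_ind {Q T : Finset ℕ} {D : ℝ} (hT : T ⊆ Q)
    (hD : ((∏ q ∈ T, q : ℕ) : ℝ) ≤ D) (c : ℝ) :
    SLev Q D (fun ω => c * (if T ⊆ ω then (1 : ℝ) else 0)) := by
  refine SLev.atom hT hD fun ω => ?_
  have h : T ⊆ ω ∩ T ↔ T ⊆ ω := by
    rw [subset_inter_iff]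
    exact ⟨fun h => h.1, fun h => ⟨h, Subset.rfl⟩⟩
  simp only [h]

private lemma prod_le_exp {T : Finset ℕ} {y : ℝ} {m : ℕ} (hy : 0 ≤ y) (hT : ∀ q ∈ T, 0 < q)
    (hl : ∀ q ∈ T, Real.log (q : ℕ) ≤ y) (hm : T.card ≤ m) :
    ((∏ q ∈ T, q : ℕ) : ℝ) ≤ Real.exp ((m : ℝ) * y) := by
  have h1 : ((∏ q ∈ T, q : ℕ) : ℝ) ≤ ∏ q ∈ T, Real.exp y := by
    rw [Nat.cast_prod]
    refine prod_le_prod (fun q _ => Nat.cast_nonneg q) fun q hq => ?_
    have h0 : (0 : ℝ) < (q : ℝ) := by exact_mod_cast hT q hq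
    rw [← Real.exp_log h0]
    exact Real.exp_le_exp.2 (hl q hq)
  refine h1.trans ?_
  rw [← Real.exp_sum, sum_const, nsmul_eq_mul]
  refine Real.exp_le_exp.2 ?_
  exact mul_le_mul_of_nonneg_right (by exact_mod_cast hm) hy

private lemma lev_bon {Q I : Finset ℕ} {y : ℝ} (b : ℕ) (hy : 0 ≤ y) (hQ : ∀ q ∈ Q, 0 < q)
    (hI : I ⊆ Q) (hl : ∀ q ∈ I, Real.log (q : ℕ) ≤ y) :
    SLev Q (Real.exp (((2 * b : ℕ) : ℝ) * y)) (fun ω => bon b (ω ∩ I).card) := by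
  classical
  refine (SLev.sum (range (2 * b + 1)) (fun j ω => ∑ T ∈ powersetCard j I,
    (-1) ^ j * (if T ⊆ ω then (1 : ℝ) else 0)) fun j hj => ?_).congr fun ω => ?_
  · refine SLev.sum (powersetCard j I) (fun T ω =>
      (-1) ^ j * (if T ⊆ ω then (1 : ℝ) else 0)) fun T hT => ?_
    obtain ⟨h1, h2⟩ := mem_powersetCard.1 hT
    refine lev_ind (h1.trans hI) ?_ _
    refine prod_le_exp hy (fun q hq => hQ q (hI (h1 hq))) (fun q hq => hl q (h1 hq)) ?_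
    rw [h2]
    have := mem_range.1 hj
    omega
  · rw [bon_card_eq]

private lemma sum_lev (bs n : ℕ) :
    ∑ j ∈ range n, (2 * (bs + j : ℕ) : ℕ) * (1 / 2 : ℝ) ^ j =
      4 * (bs : ℝ) + 4 - (4 * bs + 4 * n + 4) * (1 / 2 : ℝ) ^ n := by
  induction n with
  | zero => simp
  | succ n ih =>
    rw [sum_range_succ, ih]
    push_cast
    ring

theorem LevBet_p : LevBetStmt := by
  classical
  intro Q I n bs l0 hl0 hQ hI hlog
  have h2 := SLev.prod hQ (range n) (fun j ω => bon (bs + j) (ω ∩ I j).card)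
    (fun j => Real.exp (((2 * (bs + j) : ℕ) : ℝ) * ((1 / 2 : ℝ) ^ j * l0))) fun j hj =>
      lev_bon (bs + j) (by positivity) hQ (hI j (mem_range.1 hj)) (hlog j (mem_range.1 hj))
  rw [← Real.exp_sum] at h2
  refine h2.mono (Real.exp_le_exp.2 ?_)
  have h3 : ∑ j ∈ range n, ((2 * (bs + j) : ℕ) : ℝ) * ((1 / 2 : ℝ) ^ j * l0) =
      (4 * (bs : ℝ) + 4 - (4 * bs + 4 * n + 4) * (1 / 2 : ℝ) ^ n) * l0 := by
    rw [← sum_lev, sum_mul]
    exact sum_congr rfl fun j _ => by ring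
  rw [h3]
  have h4 : 0 ≤ (4 * (bs : ℝ) + 4 * n + 4) * (1 / 2 : ℝ) ^ n := by positivity
  have h5 : (4 * (bs : ℝ) + 4 - (4 * bs + 4 * n + 4) * (1 / 2 : ℝ) ^ n) * l0 ≤
      (12 * ((bs : ℝ) + 1)) * l0 := by
    refine mul_le_mul_of_nonneg_right ?_ hl0
    have : (0 : ℝ) ≤ bs := Nat.cast_nonneg bs
    linarith
  linarith

end Pool.Agent.PTr
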