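import Pool.Agent.Lib.PTr.Defs

/-!
# Level of the truncated expansion `Dh`
-/

set_option autoImplicit false

namespace Pool.Agent.PTr

open Finset Pool.Agent.GapSieve Pool.Agent.PosProp

private lemma levDh_exp_lw {Q A : Finset ℕ} (hQ : ∀ q ∈ Q, 0 < q) (hA : A ⊆ Q) :
    ((∏ q ∈ A, q : ℕ) : ℝ) = Real.exp (lw A) := by
  unfold lw
  rw [Real.exp_sum, Nat.cast_prod]
  refine prod_congr rfl fun q hq => ?_
  rw [Real.exp_log]
  exact_mod_cast hQ q (hA hq)

theorem LevDh_p : LevDhStmt := by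
  intro Q Q2 p hh hQ hQ2
  unfold Dh
  refine SLev.sum _ _ fun A hA => ?_
  obtain ⟨h1, h2⟩ := mem_filter.1 hA
  have hAQ : A ⊆ Q := (mem_powerset.1 h1).trans hQ2
  refine SLev.smul _ (SLev.atom (T := A) hAQ ?_ fun ω => chi_inter (Subset.refl A))
  rw [levDh_exp_lw hQ hAQ]
  exact Real.exp_le_exp.2 h2

end Pool.Agent.PTr
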