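import Pool.Agent.Lib.PTr.Defs

/-!
Module mptr/LevEe: levels of the components `ee`.
-/

set_option autoImplicit false

namespace Pool.Agent.PTr

open Finset Pool.Agent.GapSieve Pool.Agent.PosProp

private lemma LevEe_prod {A : Finset ℕ} (hA : ∀ q ∈ A, 0 < q) :
    ((∏ q ∈ A, q : ℕ) : ℝ) ≤ Real.exp (lw A) := by
  unfold lw
  rw [Real.exp_sum, Nat.cast_prod]
  refine le_of_eq (prod_congr rfl fun q hq => ?_)
  rw [Real.exp_log]
  exact_mod_cast hA q hq

theorem LevEe_p : LevEeStmt := by
  intro Q Q1 Q2 p β B J h0 hQ hQ2 h0n hβ s hs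
  cases s with
  | none =>
    refine (SLev.const (Q := Q) (D := Real.exp (dd h0 none))
      (1 - E1 p Q1 β * xh p B J ∅) (by simp [dd])).congr fun ω => ?_
    simp only [ee]
  | some A =>
    have hA : A ⊆ Q2 := by
      simpa [TT] using hs
    have h1 : SLev Q (Real.exp h0) (fun ω => bb p Q1 β A ω) := by
      refine (hβ.add (SLev.const (-(if A = ∅ then E1 p Q1 β else 0))
        (Real.one_le_exp h0n))).congr fun ω => ?_
      unfold bb
      ring
    have h2 : SLev Q (Real.exp (lw A)) (fun ω => xh p B J A * chi p A ω) :=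
      SLev.atom (T := A) (hA.trans hQ2) (LevEe_prod fun q hq => hQ q (hQ2 (hA hq)))
        fun ω => by rw [chi_inter (subset_refl A)]
    have h3 := (h1.mul hQ h2).smul (-1)
    rw [← Real.exp_add] at h3
    refine h3.congr fun ω => ?_
    simp only [ee]
    ring

end Pool.Agent.PTr
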