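import Pool.Agent.Lib.PTr.Defs

set_option autoImplicit false

namespace Pool.Agent.PTr

open Finset Pool.Agent.GapSieve Pool.Agent.PosProp

theorem LevUu_p (h1 : LevDhStmt) : LevUuStmt := by
  intro Q Q2 p β h0 hh hQ hQ2 hβ
  have hD := h1 Q Q2 p hh hQ hQ2
  have h3 := ((hβ.pow hQ 2).mul hQ (hD.pow hQ 2)).smul 4
  refine (h3.mono (le_of_eq ?_)).congr fun ω => rfl
  rw [← Real.exp_nat_mul, ← Real.exp_nat_mul, ← Real.exp_add]
  push_cast
  ring_nf

end Pool.Agent.PTr
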