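import Pool.Agent.Lib.PTr.Defs
import Pool.Agent.Lib.PNT.Theta

set_option autoImplicit false

namespace Pool.Agent.PTr

open Finset Pool.Agent.GapSieve Pool.Agent.PosProp

private lemma lowp_log (x : ℝ) (h1 : 6 / 5 ≤ x) (h2 : x ≤ 12 / 5) :
    1 / 10 ≤ Real.log x ∧ Real.log x ≤ 9 / 10 := by
  have hx : 0 < x := by linarith
  constructor
  · have h3 : Real.log (6 / 5) ≤ Real.log x := Real.log_le_log (by norm_num) h1
    have h4 := Real.one_sub_inv_le_log_of_pos (show (0 : ℝ) < 6 / 5 by norm_num)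
    norm_num at h4
    norm_num at h3
    linarith
  · have h3 : Real.log x ≤ Real.log (2 * (6 / 5)) := Real.log_le_log hx (by linarith)
    rw [Real.log_mul (by norm_num) (by norm_num)] at h3
    have h4 := Real.log_le_sub_one_of_pos (show (0 : ℝ) < 6 / 5 by norm_num)
    have h5 := Real.log_two_lt_d9
    linarith

theorem Low_p : LowStmt := by
  intro φ hφ
  obtain ⟨x0, hx0⟩ : ∃ x0 : ℝ, ∀ x : ℝ, x0 ≤ x → |Chebyshev.theta x / x - 1| < 1 / 20 := by
    have h := _root_.PNT.theta_tendsto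
    rw [Metric.tendsto_atTop] at h
    obtain ⟨x0, h0⟩ := h (1 / 20) (by norm_num)
    exact ⟨x0, fun x hx => by simpa [Real.dist_eq] using h0 x hx⟩
  refine ⟨1, max x0 10, one_pos, fun X hX => ?_⟩
  have hX0 : x0 ≤ X := le_trans (le_max_left _ _) hX
  have hX1 : (10 : ℝ) ≤ X := le_trans (le_max_right _ _) hX
  have hXp : (0 : ℝ) < X := by linarith
  have hA := hx0 (12 / 5 * X) (by linarith)
  have hB := hx0 (6 / 5 * X) (by linarith)
  rw [abs_lt] at hA hB
  have hA1 : 57 / 25 * X ≤ Chebyshev.theta (12 / 5 * X) := by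
    have h1 : (19 : ℝ) / 20 < Chebyshev.theta (12 / 5 * X) / (12 / 5 * X) := by linarith [hA.1]
    rw [lt_div_iff₀ (by positivity)] at h1
    linarith
  have hB1 : Chebyshev.theta (6 / 5 * X) ≤ 63 / 50 * X := by
    have h1 : Chebyshev.theta (6 / 5 * X) / (6 / 5 * X) < (21 : ℝ) / 20 := by linarith [hB.2]
    rw [div_lt_iff₀ (by positivity)] at h1
    linarith
  -- the primes of the interval
  set N1 : ℕ := ⌊6 / 5 * X⌋₊ with hN1
  set N2 : ℕ := ⌊12 / 5 * X⌋₊ with hN2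
  have hle : N1 ≤ N2 := Nat.floor_le_floor (by linarith)
  have hsub : (Ioc N1 N2).filter Nat.Prime ⊆ PA X := by
    intro n hn
    rw [mem_filter, mem_Ioc] at hn
    obtain ⟨⟨h1, h2⟩, hp⟩ := hn
    have h3 : 6 / 5 * X < n := (Nat.floor_lt (by positivity)).1 h1
    have h4 : (n : ℝ) ≤ 12 / 5 * X := (Nat.le_floor_iff (by positivity)).1 h2
    unfold PA NX
    rw [mem_filter, mem_Icc]
    exact ⟨⟨hp.one_le, Nat.le_floor (by linarith)⟩, hp, by linarith⟩
  have hnn : ∀ n ∈ PA X, n ∉ (Ioc N1 N2).filter Nat.Prime → 0 ≤ wp φ X n := by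
    intro n _ _
    unfold wp
    split_ifs with h
    · exact mul_nonneg (Real.log_natCast_nonneg n) (hφ.nonneg _)
    · exact le_rfl
  have hsum : ∑ n ∈ (Ioc N1 N2).filter Nat.Prime, Real.log n =
      Chebyshev.theta (12 / 5 * X) - Chebyshev.theta (6 / 5 * X) := by
    have e1 : ∀ x : ℝ, Chebyshev.theta x = ∑ n ∈ (Ioc 0 ⌊x⌋₊).filter Nat.Prime, Real.log n :=
      fun x => rfl
    rw [e1, e1, ← hN1, ← hN2]
    have e2 : (Ioc 0 N2).filter Nat.Prime =
        (Ioc 0 N1).filter Nat.Prime ∪ (Ioc N1 N2).filter Nat.Prime := by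
      rw [← filter_union, Ioc_union_Ioc_eq_Ioc (Nat.zero_le _) hle]
    have e3 : Disjoint ((Ioc 0 N1).filter Nat.Prime) ((Ioc N1 N2).filter Nat.Prime) := by
      rw [disjoint_left]
      intro n h1 h2
      rw [mem_filter, mem_Ioc] at h1 h2
      omega
    rw [e2, sum_union e3]
    ring
  calc 1 * X ≤ Chebyshev.theta (12 / 5 * X) - Chebyshev.theta (6 / 5 * X) := by linarith
    _ = ∑ n ∈ (Ioc N1 N2).filter Nat.Prime, Real.log n := hsum.symm
    _ = ∑ n ∈ (Ioc N1 N2).filter Nat.Prime, wp φ X n := by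
        refine sum_congr rfl fun n hn => ?_
        rw [mem_filter, mem_Ioc] at hn
        obtain ⟨⟨h1, h2⟩, hp⟩ := hn
        have h3 : 6 / 5 * X < n := (Nat.floor_lt (by positivity)).1 h1
        have h4 : (n : ℝ) ≤ 12 / 5 * X := (Nat.le_floor_iff (by positivity)).1 h2
        have h5 : 6 / 5 ≤ (n : ℝ) / X := by rw [le_div_iff₀ hXp]; exact h3.le
        have h6 : (n : ℝ) / X ≤ 12 / 5 := by rw [div_le_iff₀ hXp]; exact h4
        obtain ⟨h7, h8⟩ := lowp_log _ h5 h6
        unfold wp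
        rw [if_pos hp, hφ.one _ h7 h8, mul_one]
    _ ≤ ∑ n ∈ PA X, wp φ X n := sum_le_sum_of_subset_of_nonneg hsub hnn

end Pool.Agent.PTr
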