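import Pool.Agent.Lib.PTr.Defs

/-!
# The eighth moment of the absolute sum of the one-site system
-/

set_option autoImplicit false

namespace Pool.Agent.PTr

open Finset Pool.Agent.GapSieve Pool.Agent.PosProp

private lemma pow_le_add {z : ℝ} (hz : 0 ≤ z) {k : ℕ} (hk : 1 ≤ k) (hk8 : k ≤ 8) :
    z ^ k ≤ z + z ^ 8 := by
  rcases le_total z 1 with h | h
  · have h1 : z ^ k ≤ z ^ 1 := pow_le_pow_of_le_one hz h hk
    have h2 : 0 ≤ z ^ 8 := by positivity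
    rw [pow_one] at h1
    linarith
  · have h1 : z ^ k ≤ z ^ 8 := pow_le_pow_right₀ h hk8
    linarith

private lemma pow_eight_le {z : ℝ} (hz : 0 ≤ z) : (1 + z) ^ 8 ≤ 1 + 255 * (z + z ^ 8) := by
  have h2 := pow_le_add hz (k := 2) (by norm_num) (by norm_num)
  have h3 := pow_le_add hz (k := 3) (by norm_num) (by norm_num)
  have h4 := pow_le_add hz (k := 4) (by norm_num) (by norm_num)
  have h5 := pow_le_add hz (k := 5) (by norm_num) (by norm_num)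
  have h6 := pow_le_add hz (k := 6) (by norm_num) (by norm_num)
  have h7 := pow_le_add hz (k := 7) (by norm_num) (by norm_num)
  have h8 : 0 ≤ z ^ 8 := by positivity
  have e : (1 + z) ^ 8 = 1 + 8 * z + 28 * z ^ 2 + 56 * z ^ 3 + 70 * z ^ 4 + 56 * z ^ 5 +
    28 * z ^ 6 + 8 * z ^ 7 + z ^ 8 := by ring
  rw [e]
  linarith

private lemma mom8 {p : ℕ → ℝ} {Q1 Q2 : Finset ℕ} {β : Finset ℕ → ℝ} {B : ℕ → Finset ℕ} {J : ℕ}
    {α : ℝ} (h : SD p Q1 Q2 β B J α) (h8 : E1 p Q1 (fun ω => β ω ^ 8) ≤ α) :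
    E1 p (Q1 ∪ Q2) (fun ω => (∑ s ∈ TT Q2, |ee p Q1 β B J s ω|) ^ 8) ≤
      Real.exp (510 * (α * Real.exp (255 * ∑ q ∈ Q2, p q))) := by
  have hP : ∀ y : ℝ, 1 ≤ y → y ≤ 256 →
      E1 p Q2 (fun ω => y ^ (ω ∩ Q2).card) ≤ Real.exp (255 * ∑ q ∈ Q2, p q) := by
    intro y hy1 hy
    have h1 : E1 p Q2 (fun ω => y ^ (ω ∩ Q2).card) = E1 p Q2 (fun ω => y ^ ω.card) :=
      E1_congr fun ω hω => by rw [inter_eq_left.2 hω]
    rw [h1, E1_pow_card]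
    refine (prod_one_add_mul_le_exp h.p0' (by linarith)).trans (Real.exp_le_exp.2 ?_)
    exact mul_le_mul_of_nonneg_right (by linarith) (sum_nonneg h.p0')
  have h1 : E1 p (Q1 ∪ Q2) (fun ω => (∑ s ∈ TT Q2, |ee p Q1 β B J s ω|) ^ 8) ≤
      E1 p (Q1 ∪ Q2) (fun ω => 1 + 255 * (β ω * 2 ^ (ω ∩ Q2).card +
        β ω ^ 8 * 256 ^ (ω ∩ Q2).card)) := by
    refine E1_mono h.p0 h.p1 fun ω _ => ?_
    have hz : 0 ≤ β ω * 2 ^ (ω ∩ Q2).card := mul_nonneg (h.b0 ω) (by positivity)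
    calc (∑ s ∈ TT Q2, |ee p Q1 β B J s ω|) ^ 8
        ≤ (1 + β ω * 2 ^ (ω ∩ Q2).card) ^ 8 :=
          pow_le_pow_left₀ (sum_nonneg fun _ _ => abs_nonneg _) (sum_abs_ee h ω) 8
      _ ≤ _ := pow_eight_le hz
      _ = _ := by
          rw [mul_pow, ← pow_mul, mul_comm (ω ∩ Q2).card 8, pow_mul]
          norm_num
  refine h1.trans ?_
  have hint : ∀ (y : ℝ) (ω : Finset ℕ), y ^ (ω ∩ Q2 ∩ Q2).card = y ^ (ω ∩ Q2).card := by
    intro y ω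
    rw [inter_assoc, inter_self]
  have e2 : E1 p (Q1 ∪ Q2) (fun ω => β ω * 2 ^ (ω ∩ Q2).card) =
      E1 p Q1 β * E1 p Q2 (fun ω => 2 ^ (ω ∩ Q2).card) :=
    E1_ind (f := β) (g := fun ω => (2 : ℝ) ^ (ω ∩ Q2).card) h.disj h.bint (hint 2)
  have e3 : E1 p (Q1 ∪ Q2) (fun ω => β ω ^ 8 * 256 ^ (ω ∩ Q2).card) =
      E1 p Q1 (fun ω => β ω ^ 8) * E1 p Q2 (fun ω => 256 ^ (ω ∩ Q2).card) :=
    E1_ind (f := fun ω => β ω ^ 8) (g := fun ω => (256 : ℝ) ^ (ω ∩ Q2).card) h.disj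
      (fun ω => by rw [h.bint]) (hint 256)
  rw [E1_add, E1_const, E1_mul_left, E1_add, e2, e3]
  have hα := h.al0
  have h4 : E1 p Q1 β * E1 p Q2 (fun ω => (2 : ℝ) ^ (ω ∩ Q2).card) ≤
      α * Real.exp (255 * ∑ q ∈ Q2, p q) :=
    mul_le_mul h.m1 (hP 2 (by norm_num) (by norm_num))
      (E1_nonneg h.p0' h.p1' fun _ _ => by positivity) hα
  have h5 : E1 p Q1 (fun ω => β ω ^ 8) * E1 p Q2 (fun ω => (256 : ℝ) ^ (ω ∩ Q2).card) ≤
      α * Real.exp (255 * ∑ q ∈ Q2, p q) :=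
    mul_le_mul h8 (hP 256 (by norm_num) (by norm_num))
      (E1_nonneg h.p0' h.p1' fun _ _ => by positivity) hα
  have h6 := Real.add_one_le_exp (510 * (α * Real.exp (255 * ∑ q ∈ Q2, p q)))
  linarith

theorem Mom8_p : Mom8Stmt := fun _ _ _ _ _ _ _ h h8 => mom8 h h8

end Pool.Agent.PTr
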