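import Pool.Agent.Lib.PTr.Defs

/-!
# The size of the presieving modulus (module PXle)
-/

set_option autoImplicit false

namespace Pool.Agent.PTr

open Finset

/-- **PXle** -/
theorem PXle_p : PXleStmt := by
  intro X hX
  have hlog : 0 ≤ Real.log X := Real.log_nonneg hX
  unfold PX
  set z := ⌊Real.log X / 64⌋₊ with hz
  have h1 : (z : ℝ) ≤ Real.log X / 64 := Nat.floor_le (by positivity)
  have h2 : (primorial z : ℝ) ≤ (4 : ℝ) ^ z := by
    exact_mod_cast primorial_le_four_pow z
  have h3 : Real.log 4 ≤ 2 := by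
    have : (4 : ℝ) = 2 ^ 2 := by norm_num
    rw [this, Real.log_pow]
    have := Real.log_two_lt_d9
    push_cast
    linarith
  have h4 : (4 : ℝ) ^ z = Real.exp (Real.log 4 * z) := by
    rw [mul_comm, Real.exp_nat_mul, Real.exp_log (by norm_num)]
  rw [h4] at h2
  refine h2.trans ?_
  rw [Real.rpow_def_of_pos (by linarith)]
  apply Real.exp_le_exp.2
  have h5 : (0 : ℝ) ≤ z := Nat.cast_nonneg z
  nlinarith

end Pool.Agent.PTr
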