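import Pool.Agent.Lib.PTr.Defs

set_option autoImplicit false

namespace Pool.Agent.PTr

open Finset Pool.Agent.GapSieve Pool.Agent.PosProp

/-- the level condition -/
private lemma PosDensT_lev {g ε C2 LX : ℝ} (hLX : 10 ≤ LX) (hgε : g ≤ ε) (hε100 : ε ≤ 1 / 100)
    (hεC : (2 * C2 + 1) * ε ≤ 1 / 100) :
    2 * (LX / 100) + 2 * (g * LX + 1) + 2 * ((2 * C2 + 1) * (ε * LX)) ≤ LX / 2 := by
  have hLX0 : 0 ≤ LX := by linarith
  have h1 : g * LX ≤ 1 / 100 * LX := mul_le_mul_of_nonneg_right (hgε.trans hε100) hLX0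
  have h2 : (2 * C2 + 1) * ε * LX ≤ 1 / 100 * LX := mul_le_mul_of_nonneg_right hεC hLX0
  have h3 : (2 * C2 + 1) * (ε * LX) = (2 * C2 + 1) * ε * LX := by ring
  rw [h3]
  linarith

/-- the error conditions -/
private lemma PosDensT_err {κ M LX N lam R1 R2 E1 K4 η : ℝ} (hκ : 0 ≤ κ) (hM : 0 ≤ M)
    (hLX1 : 1 ≤ LX) (hNLX : N ≤ lam * LX) (hR1 : 0 ≤ R1) (hR2 : 0 < R2)
    (hlam : 1 ≤ lam)
    (h : κ * LX ≤ η * M) (h1 : η * (R1 + lam * R2) ≤ E1) (h2 : η * R2 ≤ K4) :
    κ * (R1 + N * R2) ≤ M * E1 ∧ κ * R2 ≤ M * K4 := by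
  constructor
  · have a1 : R1 + N * R2 ≤ LX * (R1 + lam * R2) := by
      have b1 : R1 ≤ LX * R1 := le_mul_of_one_le_left hR1 hLX1
      have b2 : N * R2 ≤ lam * LX * R2 := mul_le_mul_of_nonneg_right hNLX hR2.le
      nlinarith
    have a2 : 0 ≤ R1 + lam * R2 := by
      have : 0 ≤ lam * R2 := mul_nonneg (by linarith) hR2.le
      linarith
    calc κ * (R1 + N * R2) ≤ κ * (LX * (R1 + lam * R2)) := mul_le_mul_of_nonneg_left a1 hκ
      _ = (κ * LX) * (R1 + lam * R2) := by ring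
      _ ≤ (η * M) * (R1 + lam * R2) := mul_le_mul_of_nonneg_right h a2
      _ = M * (η * (R1 + lam * R2)) := by ring
      _ ≤ M * E1 := mul_le_mul_of_nonneg_left h1 hM
  · have a1 : κ * R2 ≤ (κ * LX) * R2 :=
      mul_le_mul_of_nonneg_right (le_mul_of_one_le_right hκ hLX1) hR2.le
    calc κ * R2 ≤ (κ * LX) * R2 := a1
      _ ≤ (η * M) * R2 := mul_le_mul_of_nonneg_right h hR2.le
      _ = M * (η * R2) := by ring
      _ ≤ M * K4 := mul_le_mul_of_nonneg_left h2 hM

open Classical in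
/-- **Positive proportion theorem** for weighted families. -/
theorem PosDensT_p (h1 : CoreTStmt) : PosDensTStmt := by
  intro C1 C2 lam hC1 hC2 hlam
  -- parameters
  obtain ⟨J, hJdef⟩ : ∃ J : ℕ, J = ⌈51200 * (C1 ^ 2 * C2 * Real.exp (4 * C2) * lam)⌉₊ := ⟨_, rfl⟩
  have hJ : 51200 * (C1 ^ 2 * C2 * Real.exp (4 * C2) * lam) ≤ J := by
    rw [hJdef]; exact Nat.le_ceil _
  have hJ0 : 0 < J := by
    have h1 : (0 : ℝ) < 51200 * (C1 ^ 2 * C2 * Real.exp (4 * C2) * lam) := by positivity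
    have h2 : (0 : ℝ) < J := h1.trans_le hJ
    exact_mod_cast h2
  obtain ⟨bs, hbsdef⟩ : ∃ bs : ℕ, bs = ⌈1026 * C2⌉₊ := ⟨_, rfl⟩
  have hbs' : Real.exp (1026 * C2) ≤ 4 ^ bs := by
    have h1 : 1026 * C2 ≤ bs := by rw [hbsdef]; exact Nat.le_ceil _
    calc Real.exp (1026 * C2) ≤ Real.exp bs := Real.exp_le_exp.2 h1
      _ = Real.exp 1 ^ bs := by rw [← Real.exp_nat_mul, mul_one]
      _ ≤ 4 ^ bs := by
          refine pow_le_pow_left₀ (Real.exp_pos _).le ?_ bs
          have := Real.exp_one_lt_d9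
          linarith
  have hbs : Real.exp (66 * C2) ≤ 4 ^ bs :=
    (Real.exp_le_exp.2 (by linarith)).trans hbs'
  have hK : 1 ≤ C1 ^ 2 * lam := one_le_mul_of_one_le_of_one_le (one_le_pow₀ hC1) hlam
  set D : ℝ := C1 ^ 2 * lam * (Real.exp (8 * C2) + 1) with hD
  have hD1 : 2 * C2 + 1 ≤ D := by
    have h1 := Real.add_one_le_exp (8 * C2)
    have h2 : 2 * C2 + 1 ≤ Real.exp (8 * C2) + 1 := by linarith
    have h3 : 0 ≤ Real.exp (8 * C2) + 1 := by positivity
    have h4 := mul_le_mul_of_nonneg_right hK h3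
    linarith
  have hD0 : 0 < D := by linarith
  set ε : ℝ := 1 / (327680000 * D) with hεdef
  have hε0 : 0 < ε := by positivity
  have hε1 : 327680000 * D * ε ≤ 1 := by
    rw [hεdef]
    rw [mul_one_div_cancel (by positivity)]
  have hεC : (2 * C2 + 1) * ε ≤ 1 / 100 := by
    have h1 : (2 * C2 + 1) * ε ≤ D * ε := mul_le_mul_of_nonneg_right hD1 hε0.le
    linarith
  have hε100 : ε ≤ 1 / 100 := by
    have h1 : 1 * ε ≤ (2 * C2 + 1) * ε := mul_le_mul_of_nonneg_right (by linarith) hε0.le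
    linarith
  set g : ℝ := ε / 2 ^ (J - 1) with hg
  have hg0 : 0 < g := by positivity
  have hgε : g ≤ ε := div_le_self hε0.le (one_le_pow₀ (by norm_num))
  set δ0 : ℝ := g / (12 * (bs + 1)) with hδ
  have hδ0 : 0 < δ0 := by positivity
  have hδg : 12 * ((bs : ℝ) + 1) * δ0 = g := by
    rw [hδ]; field_simp
  set Λ : ℝ := 16 * (C1 ^ 2 * lam / ε * 2 ^ (J - 1)) with hΛ
  have hΛ0 : 0 ≤ Λ := by positivity
  set K4 : ℝ := Real.exp (120 * (C1 * lam / δ0 * Real.exp (15 * (C2 * ε / δ0)))) with hK4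
  have hK40 : 0 < K4 := Real.exp_pos _
  obtain ⟨Kb, hKb⟩ : ∃ Kb : ℝ, Kb = 128 * Real.exp (15 * (C2 * ε / δ0)) *
      Real.exp (2040 * (C1 * lam / δ0 * Real.exp (255 * (C2 * ε / δ0)))) := ⟨_, rfl⟩
  have hKb0 : 0 < Kb := by rw [hKb]; positivity
  have hR2 : 0 < √Kb := Real.sqrt_pos.2 hKb0
  have hR1 : 0 ≤ √(2 * K4) := Real.sqrt_nonneg _
  have hRR : 0 < √(2 * K4) + lam * √Kb := by
    have : 0 < lam * √Kb := mul_pos (by linarith) hR2
    linarith
  set X0 : ℝ := 1 / g + lam / g ^ 2 + 1250 * lam * Real.exp (6 + Λ) with hX0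
  have hX00 : 0 < X0 := by positivity
  obtain ⟨η, hη⟩ : ∃ η : ℝ, η = min (min (δ0 / (16 * C1)) (Real.exp (-(2 * Λ)) / (256 * K4)))
      (min (1 / X0) (min ((Real.exp (-Λ) / 16) / (√(2 * K4) + lam * √Kb)) (K4 / √Kb))) :=
    ⟨_, rfl⟩
  have hη0 : 0 < η := by
    rw [hη]
    refine lt_min (lt_min ?_ ?_) (lt_min ?_ (lt_min ?_ ?_)) <;> positivity
  have hηa : η ≤ δ0 / (16 * C1) := by
    rw [hη]; exact (min_le_left _ _).trans (min_le_left _ _)
  have hηb : η ≤ Real.exp (-(2 * Λ)) / (256 * K4) := by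
    rw [hη]; exact (min_le_left _ _).trans (min_le_right _ _)
  have hηc : η ≤ 1 / X0 := by
    rw [hη]; exact (min_le_right _ _).trans (min_le_left _ _)
  have hηd : η * (√(2 * K4) + lam * √Kb) ≤ Real.exp (-Λ) / 16 := by
    rw [← le_div_iff₀ hRR]
    rw [hη]
    exact (min_le_right _ _).trans ((min_le_right _ _).trans (min_le_left _ _))
  have hηe : η * √Kb ≤ K4 := by
    rw [← le_div_iff₀ hR2]
    rw [hη]
    exact (min_le_right _ _).trans ((min_le_right _ _).trans (min_le_right _ _))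
  refine ⟨ε, hε0, hε100, (Real.exp (-Λ) / 2) ^ 2 / (16 * 3 * K4), by positivity, η, hη0, ?_⟩
  intro N Q k hit LX lq hsys hN hLXη hlq1 hlqη hNlq hlo hhi hph hV hS hinv hsm ι I W τ M κ hM hκ
    hW hτ hFam hκM
  have hLXX : X0 ≤ LX := by
    refine le_trans ?_ hLXη
    rw [le_div_iff₀ hη0]
    have := mul_le_mul_of_nonneg_left hηc hX00.le
    rw [mul_one_div_cancel hX00.ne'] at this
    exact this
  have hLX0 : 0 < LX := hX00.trans_le hLXX
  have hNR : (1 : ℝ) ≤ N := by exact_mod_cast hN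
  have hNLX : (N : ℝ) ≤ lam * LX := by
    refine le_trans ?_ hNlq
    exact le_mul_of_one_le_right (by linarith) hlq1
  have hLa : 1 ≤ g * LX := by
    have h1 : 1 / g ≤ LX := by
      refine le_trans ?_ hLXX
      rw [hX0]
      have : 0 ≤ lam / g ^ 2 + 1250 * lam * Real.exp (6 + Λ) := by positivity
      linarith
    rw [div_le_iff₀ hg0] at h1
    linarith
  have hLb : lam ≤ g ^ 2 * LX := by
    have h1 : lam / g ^ 2 ≤ LX := by
      refine le_trans ?_ hLXX
      rw [hX0]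
      have : 0 ≤ 1 / g + 1250 * lam * Real.exp (6 + Λ) := by positivity
      linarith
    rw [div_le_iff₀ (by positivity)] at h1
    linarith
  have hLc : 1250 * lam * Real.exp (6 + Λ) ≤ LX := by
    refine le_trans ?_ hLXX
    rw [hX0]
    have : 0 ≤ 1 / g + lam / g ^ 2 := by positivity
    linarith
  have hlqδ : 16 * C1 * lq ≤ δ0 * LX := by
    have h1 := mul_le_mul_of_nonneg_right hηa hLX0.le
    have h2 : lq ≤ δ0 / (16 * C1) * LX := hlqη.trans h1
    have h3 := mul_le_mul_of_nonneg_left h2 (show 0 ≤ 16 * C1 by positivity)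
    have h4 : 16 * C1 * (δ0 / (16 * C1) * LX) = δ0 * LX := by field_simp
    linarith
  have hlqδ' : lq ≤ δ0 * LX := by
    refine le_trans ?_ hlqδ
    exact le_mul_of_one_le_left (by linarith) (by linarith)
  have hp0 : ∀ q ∈ Q, 0 ≤ pp N k q := fun q hq => pp_nonneg hsys hN hq
  -- the two sets of primes
  set Q1 := Q.filter fun q : ℕ => Real.log q ≤ δ0 * LX with hQ1
  set Q2 := Q.filter fun q : ℕ => ¬ Real.log q ≤ δ0 * LX with hQ2
  have hU : Q1 ∪ Q2 = Q := filter_union_filter_not_eq _ _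
  have hδε : δ0 * LX ≤ ε * LX := by
    refine mul_le_mul_of_nonneg_right ?_ hLX0.le
    have h1 : δ0 ≤ 12 * ((bs : ℝ) + 1) * δ0 := by
      have : (1 : ℝ) ≤ 12 * ((bs : ℝ) + 1) := by
        have : (0 : ℝ) ≤ bs := Nat.cast_nonneg bs
        linarith
      exact le_mul_of_one_le_left hδ0.le this
    linarith
  have hhz : hz δ0 LX bs = g * LX + 1 := by
    unfold hz
    rw [← hδg]
    ring
  have hPar : Par Q1 Q2 k hit C1 C2 lam LX lq ε δ0 J bs :=
    { sys := by rw [hU]; exact hsys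
      N0 := hN
      hC1 := hC1
      hC2 := hC2
      hlam := hlam
      hlq := hlq1
      hLX := hLX0
      hε := hε0
      hδ := hδ0
      Nlq := hNlq
      lo1 := fun q hq => hlo q (mem_filter.1 hq).1
      hi1 := fun q hq => (mem_filter.1 hq).2
      lo2 := fun q hq => not_le.1 (mem_filter.1 hq).2
      hi2 := fun q hq => hhi q (mem_filter.1 hq).1
      ph := by rw [hU]; exact hph
      V1 := by
        have h1 := hV lq (δ0 * LX) (le_refl _) hlqδ' hδε
        have h2 : Q.filter (fun q : ℕ => lq < Real.log q ∧ Real.log q ≤ δ0 * LX) = Q1 := by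
          rw [hQ1]
          refine filter_congr fun q hq => ?_
          exact ⟨fun h => h.2, fun h => ⟨hlo q hq, h⟩⟩
        rw [h2] at h1
        exact h1
      V2 := by
        intro v hv hv'
        have h1 := hV (δ0 * LX) v hlqδ' hv hv'
        have h2 : Q2.filter (fun q : ℕ => Real.log q ≤ v) =
            Q.filter (fun q : ℕ => δ0 * LX < Real.log q ∧ Real.log q ≤ v) := by
          rw [hQ2, filter_filter]
          refine filter_congr fun q _ => ?_
          rw [not_le]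
        rw [h2]
        exact h1
      S1 := by
        intro v hv hv'
        refine le_trans (sum_le_sum_of_subset_of_nonneg ?_ fun q hq _ => ?_) (hS v hv hv')
        · exact filter_subset_filter _ (filter_subset _ _)
        · exact mul_nonneg (hp0 q (mem_filter.1 hq).1) (Real.log_natCast_nonneg q)
      S2 := by
        intro v hv hv'
        refine le_trans (sum_le_sum_of_subset_of_nonneg ?_ fun q hq _ => ?_) (hS v hv hv')
        · exact filter_subset_filter _ (filter_subset _ _)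
        · exact mul_nonneg (hp0 q (mem_filter.1 hq).1) (Real.log_natCast_nonneg q)
      inv := by rw [hU]; exact hinv
      hbs := hbs
      hJ0 := hJ0
      hJ := hJ
      hδJ := by
        have h1 : δ0 ≤ g := by
          have : (1 : ℝ) ≤ 12 * ((bs : ℝ) + 1) := by
            have : (0 : ℝ) ≤ bs := Nat.cast_nonneg bs
            linarith
          rw [← hδg]
          exact le_mul_of_one_le_left hδ0.le this
        calc δ0 * 2 ^ (J - 1) ≤ g * 2 ^ (J - 1) := by gcongr
          _ = ε := by rw [hg]; field_simp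
      hα := by
        have hl0 : 0 < δ0 * LX := mul_pos hδ0 hLX0
        rw [← mul_div_assoc, div_le_iff₀ hl0]
        linarith
      hh0 := by
        have h1 : 12 * ((bs : ℝ) + 1) * (δ0 * LX) = g * LX := by rw [← hδg]; ring
        have h2 : ε * LX / 2 ^ (J - 1) = g * LX := by rw [hg]; ring
        rw [h1, h2]
        have h3 : 1 * (g * LX) ≤ C2 * (g * LX) := mul_le_mul_of_nonneg_right hC2 (by linarith)
        linarith }
  have hLX1250 : 1250 ≤ LX := by
    have h1 : 1 ≤ Real.exp (6 + Λ) := Real.one_le_exp (by linarith)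
    have : 1 ≤ lam * Real.exp (6 + Λ) := one_le_mul_of_one_le_of_one_le hlam h1
    linarith
  have herr := PosDensT_err hκ hM (by linarith : (1 : ℝ) ≤ LX) hNLX hR1 hR2 hlam hκM hηd hηe
  have hcore := h1 N Q1 Q2 k hit C1 C2 lam LX lq ε δ0 J bs hPar hbs' Λ K4 Kb hΛ hK4 hKb hε1
    (by rw [hU]; exact hsm.trans hηb)
    (by rw [hhz]; exact PosDensT_lev (by linarith) hgε hε100 hεC)
    ι I W τ M κ hM hκ hW (by rw [hU]; exact hτ) (by rw [hU]; exact hFam) herr.1 herr.2
  exact hcore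

end Pool.Agent.PTr
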