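import Pool.Agent.Lib.PTr.Defs
import Pool.Agent.Lib.MP_5b0a7e_nt.Wtrick

/-!
# Module Surv: the number of surviving sites on average over the classes
-/

set_option autoImplicit false

namespace Pool.Agent.PTr

open Finset Pool.Agent.GapSieve Pool.Agent.PosProp

private lemma Surv_sp_one (z : ℕ) : (range (z + 1)).filter Nat.Prime = LPAP.sp z 1 := by
  ext p
  rw [LPAP.mem_sp, Finset.mem_filter, Finset.mem_range]
  constructor
  · rintro ⟨h1, h2⟩
    exact ⟨by omega, h2, fun h => h2.one_lt.ne' (Nat.dvd_one.mp h)⟩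
  · rintro ⟨h1, h2, _⟩
    exact ⟨by omega, h2⟩

private lemma Surv_primorial (z : ℕ) : primorial z = LPAP.Wp z 1 := by
  unfold primorial LPAP.Wp
  rw [Surv_sp_one]

/-- the local indicator -/
private noncomputable def SurvF (b s : ℤ) (q t : ℕ) : ℝ :=
  if ¬ q ∣ t ∧ ¬ (q : ℤ) ∣ b + s * t then 1 else 0

private lemma SurvF_nonneg (b s : ℤ) (q t : ℕ) : 0 ≤ SurvF b s q t := by
  unfold SurvF
  split_ifs <;> norm_num

private lemma SurvF_le_one (b s : ℤ) (q t : ℕ) : SurvF b s q t ≤ 1 := by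
  unfold SurvF
  split_ifs <;> norm_num

private lemma SurvF_per (b s : ℤ) (q t : ℕ) : SurvF b s q (t + q) = SurvF b s q t := by
  unfold SurvF
  have h1 : q ∣ t + q ↔ q ∣ t := Nat.dvd_add_self_right
  have h2 : (q : ℤ) ∣ b + s * ((t + q : ℕ) : ℤ) ↔ (q : ℤ) ∣ b + s * t := by
    have h3 : b + s * ((t + q : ℕ) : ℤ) = (b + s * t) + s * q := by push_cast; ring
    rw [h3]
    exact dvd_add_left (Dvd.intro_left s rfl)
  simp only [h1, h2]

private lemma SurvF_zero (b s : ℤ) (q : ℕ) : SurvF b s q 0 = 0 := by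
  unfold SurvF
  rw [if_neg]
  simp

private lemma Surv_local (b s : ℤ) (q : ℕ) (hq : q.Prime) :
    ∑ a ∈ range q, SurvF b s q a ≤
      ((q : ℝ) - 1) * (if q ∣ (b * s).natAbs then 1 else 1 - 1 / (q : ℝ)) := by
  have hq0 : (0 : ℝ) < q := by exact_mod_cast hq.pos
  have h0 : (0 : ℕ) ∈ range q := mem_range.mpr hq.pos
  have h1 : ∑ a ∈ range q, SurvF b s q a = ∑ a ∈ (range q).erase 0, SurvF b s q a := by
    rw [← Finset.add_sum_erase _ _ h0, SurvF_zero, zero_add]
  rw [h1]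
  have hc1 : (((range q).erase 0).card : ℝ) = (q : ℝ) - 1 := by
    rw [Finset.card_erase_of_mem h0, card_range, Nat.cast_sub hq.one_lt.le]
    norm_num
  by_cases hd : q ∣ (b * s).natAbs
  · rw [if_pos hd, mul_one]
    calc ∑ a ∈ (range q).erase 0, SurvF b s q a ≤ ∑ a ∈ (range q).erase 0, (1 : ℝ) :=
          Finset.sum_le_sum fun a _ => SurvF_le_one b s q a
      _ = (q : ℝ) - 1 := by rw [Finset.sum_const, nsmul_eq_mul, mul_one, hc1]
  · rw [if_neg hd]
    have hd' : ¬ (q : ℤ) ∣ b * s := fun h => hd (Int.natCast_dvd.mp h)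
    have := Fact.mk hq
    have hs : ((s : ℤ) : ZMod q) ≠ 0 := by
      intro h
      rw [ZMod.intCast_zmod_eq_zero_iff_dvd] at h
      exact hd' (Dvd.dvd.mul_left h b)
    have hb : ((b : ℤ) : ZMod q) ≠ 0 := by
      intro h
      rw [ZMod.intCast_zmod_eq_zero_iff_dvd] at h
      exact hd' (Dvd.dvd.mul_right h s)
    set a1 : ℕ := (-(b : ZMod q) * (s : ZMod q)⁻¹).val with ha1
    have ha1c : ((a1 : ℕ) : ZMod q) = -(b : ZMod q) * (s : ZMod q)⁻¹ := by
      rw [ha1, ZMod.natCast_val, ZMod.cast_id]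
    have ha1ne : a1 ≠ 0 := by
      intro h
      rw [h] at ha1c
      have h2 : -(b : ZMod q) * (s : ZMod q)⁻¹ ≠ 0 := mul_ne_zero (neg_ne_zero.mpr hb) (inv_ne_zero hs)
      exact h2 (by rw [← ha1c]; simp)
    have ha1lt : a1 < q := ZMod.val_lt _
    have ha1m : a1 ∈ (range q).erase 0 := Finset.mem_erase.mpr ⟨ha1ne, mem_range.mpr ha1lt⟩
    have hF : SurvF b s q a1 = 0 := by
      unfold SurvF
      rw [if_neg]
      rintro ⟨_, h2⟩
      apply h2
      rw [← ZMod.intCast_zmod_eq_zero_iff_dvd]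
      push_cast
      rw [ha1c]
      field_simp
      ring
    rw [← Finset.add_sum_erase _ _ ha1m, hF, zero_add]
    have hc2 : ((((range q).erase 0).erase a1).card : ℝ) = (q : ℝ) - 2 := by
      rw [Finset.card_erase_of_mem ha1m, Nat.cast_sub, hc1]
      · norm_num; ring
      · exact Finset.card_pos.mpr ⟨a1, ha1m⟩
    calc ∑ a ∈ ((range q).erase 0).erase a1, SurvF b s q a
        ≤ ∑ a ∈ ((range q).erase 0).erase a1, (1 : ℝ) :=
          Finset.sum_le_sum fun a _ => SurvF_le_one b s q a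
      _ = (q : ℝ) - 2 := by rw [Finset.sum_const, nsmul_eq_mul, mul_one, hc2]
      _ ≤ ((q : ℝ) - 1) * (1 - 1 / (q : ℝ)) := by
          have h3 : ((q : ℝ) - 1) * (1 - 1 / (q : ℝ)) = (q : ℝ) - 2 + 1 / q := by
            field_simp
            ring
          rw [h3]
          have : (0 : ℝ) ≤ 1 / q := by positivity
          linarith

private lemma Surv_count (b s : ℤ) (z : ℕ) :
    (((range (primorial z)).filter (fun c : ℕ => c.Coprime (primorial z) ∧
      Int.gcd (b + s * c) (primorial z) = 1)).card : ℝ) ≤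
      ((primorial z).totient : ℝ) * ∏ p ∈ LPAP.sp z (b * s).natAbs, (1 - 1 / (p : ℝ)) := by
  set Q := (range (z + 1)).filter Nat.Prime with hQ
  have hP : primorial z = ∏ q ∈ Q, q := rfl
  have hpr : ∀ q ∈ Q, q.Prime := fun q hq => (Finset.mem_filter.mp hq).2
  have hdv : ∀ q ∈ Q, q ∣ primorial z := fun q hq => by
    rw [hP]; exact Finset.dvd_prod_of_mem (fun x => x) hq
  have h1 : (((range (primorial z)).filter (fun c : ℕ => c.Coprime (primorial z) ∧
      Int.gcd (b + s * c) (primorial z) = 1)).card : ℝ) ≤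
      ∑ c ∈ range (primorial z), ∏ q ∈ Q, SurvF b s q c := by
    rw [Finset.card_filter, Nat.cast_sum]
    refine Finset.sum_le_sum fun c _ => ?_
    split_ifs with h
    · rw [Nat.cast_one]
      refine le_of_eq (Finset.prod_eq_one fun q hq => ?_).symm
      unfold SurvF
      rw [if_pos]
      constructor
      · intro h2
        have h3 : q ∣ Nat.gcd c (primorial z) := Nat.dvd_gcd h2 (hdv q hq)
        rw [h.1] at h3
        exact (hpr q hq).one_lt.ne' (Nat.dvd_one.mp h3)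
      · intro h2
        have h3 : (q : ℤ) ∣ (Int.gcd (b + s * c) (primorial z) : ℤ) :=
          Int.dvd_coe_gcd h2 (Int.natCast_dvd_natCast.mpr (hdv q hq))
        rw [h.2] at h3
        have h4 : q ∣ 1 := by exact_mod_cast h3
        exact (hpr q hq).one_lt.ne' (Nat.dvd_one.mp h4)
    · rw [Nat.cast_zero]
      exact Finset.prod_nonneg fun q _ => SurvF_nonneg b s q c
  refine h1.trans ?_
  have h2 : ∑ c ∈ range (primorial z), ∏ q ∈ Q, SurvF b s q c =
      ∏ q ∈ Q, ∑ a ∈ range q, SurvF b s q a := by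
    rw [hP]
    refine crt_prod Q (fun q hq => (hpr q hq).pos) ?_ (fun q t => SurvF b s q t)
      (fun q _ t => SurvF_per b s q t)
    intro q hq q' hq' hne
    exact (Nat.coprime_primes (hpr q hq) (hpr q' hq')).mpr hne
  rw [h2]
  have h3 : ∏ q ∈ Q, ∑ a ∈ range q, SurvF b s q a ≤
      ∏ q ∈ Q, (((q : ℝ) - 1) * (if q ∣ (b * s).natAbs then 1 else 1 - 1 / (q : ℝ))) :=
    Finset.prod_le_prod (fun q _ => Finset.sum_nonneg fun a _ => SurvF_nonneg b s q a)
      (fun q hq => Surv_local b s q (hpr q hq))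
  refine h3.trans (le_of_eq ?_)
  rw [Finset.prod_mul_distrib]
  have h4 : ∏ q ∈ Q, ((q : ℝ) - 1) = ((primorial z).totient : ℝ) := by
    have h5 := LPAP.totient_Wp z 1
    rw [← Surv_primorial, ← Surv_sp_one] at h5
    have hPpos : (0 : ℝ) < (primorial z : ℕ) := by exact_mod_cast primorial_pos z
    rw [div_eq_iff hPpos.ne'] at h5
    rw [h5, hP, Nat.cast_prod, ← Finset.prod_mul_distrib]
    refine Finset.prod_congr rfl fun q hq => ?_
    have : (0 : ℝ) < q := by exact_mod_cast (hpr q hq).pos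
    field_simp
  have h6 : ∏ q ∈ Q, (if q ∣ (b * s).natAbs then (1 : ℝ) else 1 - 1 / (q : ℝ)) =
      ∏ p ∈ LPAP.sp z (b * s).natAbs, (1 - 1 / (p : ℝ)) := by
    rw [Finset.prod_ite, Finset.prod_const_one, one_mul]
    refine Finset.prod_congr ?_ fun _ _ => rfl
    ext p
    rw [LPAP.mem_sp, Finset.mem_filter, hQ, Finset.mem_filter, Finset.mem_range]
    constructor
    · rintro ⟨⟨h1, h2⟩, h3⟩; exact ⟨by omega, h2, h3⟩
    · rintro ⟨h1, h2, h3⟩; exact ⟨⟨by omega, h2⟩, h3⟩
  rw [h4, h6]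

/-- `a / φ(a)` as a product -/
private lemma Surv_ratio (a : ℕ) (ha : a ≠ 0) :
    (a : ℝ) / a.totient = ∏ p ∈ a.primeFactors, (1 + 1 / ((p : ℝ) - 1)) := by
  have h1 := LPAP.totient_div a ha
  have h2 : (a : ℝ) / a.totient = ((a.totient : ℝ) / a)⁻¹ := (inv_div _ _).symm
  rw [h2, h1, ← Finset.prod_inv_distrib]
  refine Finset.prod_congr rfl fun p hp => ?_
  have hp2 : (2 : ℝ) ≤ p := by exact_mod_cast (Nat.prime_of_mem_primeFactors hp).two_le
  have h3 : (p : ℝ) ≠ 0 := by linarith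
  have h4 : (p : ℝ) - 1 ≠ 0 := by linarith
  have h5 : 1 - 1 / (p : ℝ) ≠ 0 := by
    have : (1 : ℝ) / p ≤ 1 / 2 := one_div_le_one_div_of_le (by norm_num) hp2
    linarith
  field_simp
  ring

private lemma Surv_tele (K : ℕ) :
    ∑ n ∈ Finset.Ico 2 (K + 2), 1 / ((n : ℝ) * ((n : ℝ) - 1)) ≤ 1 := by
  have h : ∑ n ∈ Finset.Ico 2 (K + 2), 1 / ((n : ℝ) * ((n : ℝ) - 1)) = 1 - 1 / ((K : ℝ) + 1) := by
    induction K with
    | zero => simp
    | succ K ih =>
      rw [Finset.sum_Ico_succ_top (by omega), ih]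
      have h1 : ((K : ℝ) + 1) ≠ 0 := by positivity
      have h2 : ((K : ℝ) + 2) ≠ 0 := by positivity
      push_cast
      have h3 : ((K : ℝ) + 1 + 1) ≠ 0 := by positivity
      have h4 : ((K : ℝ) + 2 - 1) ≠ 0 := by
        have : ((K : ℝ) + 2 - 1) = K + 1 := by ring
        rw [this]; exact h1
      field_simp
      ring
  rw [h]
  have : (0 : ℝ) ≤ 1 / ((K : ℝ) + 1) := by positivity
  linarith

/-- `∑_{s ≤ K} s / φ(s) ≤ e K` -/
private lemma Surv_sum (K : ℕ) :
    ∑ s ∈ Finset.Icc 1 K, (s : ℝ) / (s.totient : ℝ) ≤ Real.exp 1 * K := by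
  set PP := (Finset.Icc 1 K).filter Nat.Prime with hPP
  have hpr : ∀ p ∈ PP, p.Prime := fun p hp => (Finset.mem_filter.mp hp).2
  have hsub : ∀ s ∈ Finset.Icc 1 K, s.primeFactors ⊆ PP := by
    intro s hs p hp
    obtain ⟨h1, h2⟩ := Finset.mem_Icc.mp hs
    have hp1 := Nat.prime_of_mem_primeFactors hp
    have hp2 := Nat.le_of_dvd (by omega) (Nat.dvd_of_mem_primeFactors hp)
    exact Finset.mem_filter.mpr ⟨Finset.mem_Icc.mpr ⟨hp1.pos, by omega⟩, hp1⟩
  have hfn : ∀ p ∈ PP, (0 : ℝ) ≤ 1 / ((p : ℝ) - 1) := by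
    intro p hp
    have hp2 : (2 : ℝ) ≤ p := by exact_mod_cast (hpr p hp).two_le
    have : (0 : ℝ) < (p : ℝ) - 1 := by linarith
    positivity
  have h1 : ∀ s ∈ Finset.Icc 1 K, (s : ℝ) / (s.totient : ℝ) =
      ∑ T ∈ PP.powerset, (if T ⊆ s.primeFactors then ∏ p ∈ T, 1 / ((p : ℝ) - 1) else 0) := by
    intro s hs
    rw [Surv_ratio s (by have := (Finset.mem_Icc.mp hs).1; omega), Finset.prod_one_add,
      ← Finset.sum_filter]
    refine Finset.sum_congr ?_ fun _ _ => rfl
    ext T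
    rw [Finset.mem_filter, Finset.mem_powerset, Finset.mem_powerset]
    exact ⟨fun h => ⟨h.trans (hsub s hs), h⟩, fun h => h.2⟩
  rw [Finset.sum_congr rfl h1, Finset.sum_comm]
  have h2 : ∀ T ∈ PP.powerset, ∑ s ∈ Finset.Icc 1 K,
      (if T ⊆ s.primeFactors then ∏ p ∈ T, 1 / ((p : ℝ) - 1) else 0) ≤
      K * ∏ p ∈ T, 1 / ((p : ℝ) * ((p : ℝ) - 1)) := by
    intro T hT
    rw [Finset.mem_powerset] at hT
    have hT0 : ∀ p ∈ T, (0 : ℝ) < p := fun p hp => by exact_mod_cast (hpr p (hT hp)).pos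
    rw [← Finset.sum_filter, Finset.sum_const, nsmul_eq_mul]
    have hDpos : 0 < ∏ p ∈ T, p := Finset.prod_pos fun p hp => (hpr p (hT hp)).pos
    have hcard : (((Finset.Icc 1 K).filter (fun s => T ⊆ s.primeFactors)).card : ℝ) ≤
        (K : ℝ) / (∏ p ∈ T, p : ℕ) := by
      have h3 : (Finset.Icc 1 K).filter (fun s => T ⊆ s.primeFactors) ⊆
          (Finset.Ioc 0 K).filter (fun s => (∏ p ∈ T, p) ∣ s) := by
        intro s hs
        obtain ⟨h4, h5⟩ := Finset.mem_filter.mp hs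
        obtain ⟨h6, h7⟩ := Finset.mem_Icc.mp h4
        refine Finset.mem_filter.mpr ⟨Finset.mem_Ioc.mpr ⟨by omega, h7⟩, ?_⟩
        refine Finset.prod_primes_dvd s (fun p hp => (hpr p (hT hp)).prime) fun p hp => ?_
        exact Nat.dvd_of_mem_primeFactors (h5 hp)
      have h8 := Finset.card_le_card h3
      rw [Nat.Ioc_filter_dvd_card_eq_div] at h8
      calc (((Finset.Icc 1 K).filter (fun s => T ⊆ s.primeFactors)).card : ℝ)
          ≤ ((K / ∏ p ∈ T, p : ℕ) : ℝ) := by exact_mod_cast h8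
        _ ≤ (K : ℝ) / (∏ p ∈ T, p : ℕ) := Nat.cast_div_le
    have hnn : (0 : ℝ) ≤ ∏ p ∈ T, 1 / ((p : ℝ) - 1) := Finset.prod_nonneg fun p hp => hfn p (hT hp)
    refine (mul_le_mul_of_nonneg_right hcard hnn).trans (le_of_eq ?_)
    rw [Nat.cast_prod, div_mul_eq_mul_div, mul_div_assoc, ← Finset.prod_div_distrib]
    congr 1
    refine Finset.prod_congr rfl fun p hp => ?_
    have := hT0 p hp
    have hp2 : (2 : ℝ) ≤ p := by exact_mod_cast (hpr p (hT hp)).two_le
    have h4 : (p : ℝ) - 1 ≠ 0 := by linarith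
    field_simp
  refine (Finset.sum_le_sum h2).trans ?_
  rw [← Finset.mul_sum, ← Finset.prod_one_add, mul_comm]
  refine mul_le_mul_of_nonneg_right ?_ (Nat.cast_nonneg K)
  have h5 : ∏ p ∈ PP, (1 + 1 / ((p : ℝ) * ((p : ℝ) - 1))) ≤
      ∏ p ∈ PP, Real.exp (1 / ((p : ℝ) * ((p : ℝ) - 1))) := by
    refine Finset.prod_le_prod ?_ ?_
    · intro p hp
      have hp2 : (2 : ℝ) ≤ p := by exact_mod_cast (hpr p hp).two_le
      have h4 : (0 : ℝ) < (p : ℝ) - 1 := by linarith
      positivity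
    · intro p _
      rw [add_comm]
      exact Real.add_one_le_exp _
  refine h5.trans ?_
  rw [← Real.exp_sum]
  refine Real.exp_le_exp.mpr ?_
  refine le_trans ?_ (Surv_tele K)
  refine Finset.sum_le_sum_of_subset_of_nonneg ?_ ?_
  · intro p hp
    obtain ⟨h6, h7⟩ := Finset.mem_filter.mp hp
    exact Finset.mem_Ico.mpr ⟨h7.two_le, by have := (Finset.mem_Icc.mp h6).2; omega⟩
  · intro p hp _
    have hp2 : (2 : ℝ) ≤ p := by exact_mod_cast (Finset.mem_Ico.mp hp).1
    have h4 : (0 : ℝ) < (p : ℝ) - 1 := by linarith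
    positivity

private lemma Surv_one (b s : ℤ) (hb : b ≠ 0) (hs : s ≠ 0) (z : ℕ) (hz : 1 ≤ z) :
    (((range (primorial z)).filter (fun c : ℕ => c.Coprime (primorial z) ∧
      Int.gcd (b + s * c) (primorial z) = 1)).card : ℝ) ≤
      ((primorial z).totient : ℝ) / Real.log (z + 1) *
        ((b.natAbs : ℝ) / (b.natAbs.totient : ℝ)) * ((s.natAbs : ℝ) / (s.natAbs.totient : ℝ)) := by
  refine (Surv_count b s z).trans ?_
  have ha : (b * s).natAbs ≠ 0 := Int.natAbs_ne_zero.mpr (mul_ne_zero hb hs)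
  have h1 := LPAP.totient_Wp_le (w := z) (a := (b * s).natAbs) hz ha
  rw [LPAP.totient_Wp] at h1
  set PI := ∏ p ∈ LPAP.sp z (b * s).natAbs, (1 - 1 / (p : ℝ)) with hPI
  have hb0 : (0 : ℝ) < b.natAbs := by exact_mod_cast Int.natAbs_pos.mpr hb
  have hs0 : (0 : ℝ) < s.natAbs := by exact_mod_cast Int.natAbs_pos.mpr hs
  have hbt : (0 : ℝ) < (b.natAbs.totient : ℝ) := by
    exact_mod_cast Nat.totient_pos.mpr (Int.natAbs_pos.mpr hb)
  have hst : (0 : ℝ) < (s.natAbs.totient : ℝ) := by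
    exact_mod_cast Nat.totient_pos.mpr (Int.natAbs_pos.mpr hs)
  have hat : (0 : ℝ) < ((b * s).natAbs.totient : ℝ) := by
    exact_mod_cast Nat.totient_pos.mpr (Nat.pos_of_ne_zero ha)
  have ha0 : (0 : ℝ) < ((b * s).natAbs : ℝ) := by exact_mod_cast Nat.pos_of_ne_zero ha
  have hlog : (0 : ℝ) < Real.log (z + 1) := by
    apply Real.log_pos
    have : (1 : ℝ) ≤ z := by exact_mod_cast hz
    linarith
  have hsm : (b.natAbs.totient : ℝ) * (s.natAbs.totient : ℝ) ≤ ((b * s).natAbs.totient : ℝ) := by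
    rw [Int.natAbs_mul]
    exact_mod_cast Nat.totient_super_multiplicative _ _
  have hnm : ((b * s).natAbs : ℝ) = (b.natAbs : ℝ) * (s.natAbs : ℝ) := by
    rw [Int.natAbs_mul]; push_cast; ring
  -- PI ≤ (1/log) * (a / φ a)
  have h2 : PI ≤ 1 / Real.log (z + 1) * (((b * s).natAbs : ℝ) / ((b * s).natAbs.totient : ℝ)) := by
    have h3 : PI = (PI * (((b * s).natAbs.totient : ℝ) / ((b * s).natAbs : ℝ))) *
        (((b * s).natAbs : ℝ) / ((b * s).natAbs.totient : ℝ)) := by
      field_simp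
    rw [h3]
    exact mul_le_mul_of_nonneg_right h1 (by positivity)
  have h4 : ((b * s).natAbs : ℝ) / ((b * s).natAbs.totient : ℝ) ≤
      ((b.natAbs : ℝ) / (b.natAbs.totient : ℝ)) * ((s.natAbs : ℝ) / (s.natAbs.totient : ℝ)) := by
    rw [hnm, div_mul_div_comm]
    exact div_le_div_of_nonneg_left (by positivity) (by positivity) hsm
  have hφ : (0 : ℝ) ≤ ((primorial z).totient : ℝ) := Nat.cast_nonneg _
  calc ((primorial z).totient : ℝ) * PI
      ≤ ((primorial z).totient : ℝ) * (1 / Real.log (z + 1) *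
          (((b.natAbs : ℝ) / (b.natAbs.totient : ℝ)) *
            ((s.natAbs : ℝ) / (s.natAbs.totient : ℝ)))) := by
        refine mul_le_mul_of_nonneg_left (h2.trans ?_) hφ
        exact mul_le_mul_of_nonneg_left h4 (by positivity)
    _ = _ := by ring

private lemma Surv_swap (b : ℤ) (K P : ℕ) :
    ∑ c ∈ (range P).filter (fun c => c.Coprime P), ((sites b K P c).card : ℝ) =
      ∑ s ∈ (Icc (-(K : ℤ)) K).filter (fun s => s ≠ 0),
        (((range P).filter (fun c : ℕ => c.Coprime P ∧ Int.gcd (b + s * c) P = 1)).card : ℝ) := by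
  unfold sites
  have h1 : ∀ c ∈ (range P).filter (fun c => c.Coprime P),
      ((((Icc (-(K : ℤ)) K).filter (fun s => s ≠ 0 ∧ Int.gcd (b + s * c) P = 1)).card : ℕ) : ℝ) =
      ∑ s ∈ (Icc (-(K : ℤ)) K).filter (fun s => s ≠ 0),
        if Int.gcd (b + s * c) P = 1 then (1 : ℝ) else 0 := by
    intro c _
    rw [← Finset.sum_filter, Finset.filter_filter, Finset.sum_const, nsmul_eq_mul, mul_one]
  rw [Finset.sum_congr rfl h1, Finset.sum_comm]
  refine Finset.sum_congr rfl fun s _ => ?_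
  rw [← Finset.sum_filter, Finset.filter_filter, Finset.sum_const, nsmul_eq_mul, mul_one]

private lemma Surv_sym (K : ℕ) (f : ℕ → ℝ) :
    ∑ s ∈ (Icc (-(K : ℤ)) K).filter (fun s => s ≠ 0), f s.natAbs =
      2 * ∑ s ∈ Finset.Icc 1 K, f s := by
  have h1 : (Icc (-(K : ℤ)) K).filter (fun s => s ≠ 0) =
      ((Finset.Icc 1 K).image (fun n : ℕ => (n : ℤ))) ∪
        ((Finset.Icc 1 K).image (fun n : ℕ => -(n : ℤ))) := by
    ext s
    simp only [Finset.mem_filter, Finset.mem_Icc, Finset.mem_union, Finset.mem_image]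
    constructor
    · rintro ⟨⟨h1, h2⟩, h3⟩
      rcases lt_or_gt_of_ne h3 with h | h
      · right; exact ⟨s.natAbs, by omega, by omega⟩
      · left; exact ⟨s.natAbs, by omega, by omega⟩
    · rintro (⟨n, h1, h2⟩ | ⟨n, h1, h2⟩)
      · omega
      · omega
  rw [h1, Finset.sum_union, Finset.sum_image, Finset.sum_image, two_mul]
  · congr 1
    refine Finset.sum_congr rfl fun n _ => ?_
    simp
  · intro x _ y _ h
    simpa using h
  · intro x _ y _ h
    simpa using h
  · rw [Finset.disjoint_left]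
    intro s hs hs'
    simp only [Finset.mem_image, Finset.mem_Icc] at hs hs'
    obtain ⟨n, h1, h2⟩ := hs
    obtain ⟨m, h3, h4⟩ := hs'
    omega

theorem Surv_p : SurvStmt := by
  intro b hb
  have hbt : (0 : ℝ) < (b.natAbs.totient : ℝ) := by
    exact_mod_cast Nat.totient_pos.mpr (Int.natAbs_pos.mpr hb)
  have hb0 : (0 : ℝ) < b.natAbs := by exact_mod_cast Int.natAbs_pos.mpr hb
  set B : ℝ := (b.natAbs : ℝ) / (b.natAbs.totient : ℝ) with hB
  have hBpos : 0 < B := by positivity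
  refine ⟨4 * B * Real.exp 1, Real.exp 4096, by positivity, ?_⟩
  intro X hX K
  have hXpos : 0 < X := (Real.exp_pos _).trans_le hX
  have hL : 4096 ≤ Real.log X := by
    rw [← Real.log_exp 4096]
    exact Real.log_le_log (Real.exp_pos _) hX
  set L := Real.log X with hLdef
  set z := ⌊L / 64⌋₊ with hz
  have hz1 : 1 ≤ z := by
    rw [hz, Nat.one_le_floor_iff]
    linarith
  have hPX : PX X = primorial z := rfl
  rw [hPX, Surv_swap]
  have h1 : ∀ s ∈ (Icc (-(K : ℤ)) K).filter (fun s => s ≠ 0),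
      (((range (primorial z)).filter (fun c : ℕ => c.Coprime (primorial z) ∧
        Int.gcd (b + s * c) (primorial z) = 1)).card : ℝ) ≤
      ((primorial z).totient : ℝ) / Real.log (z + 1) * B *
        ((s.natAbs : ℝ) / (s.natAbs.totient : ℝ)) := by
    intro s hs
    exact Surv_one b s hb (Finset.mem_filter.mp hs).2 z hz1
  refine (Finset.sum_le_sum h1).trans ?_
  rw [← Finset.mul_sum, Surv_sym K (fun n => (n : ℝ) / (n.totient : ℝ))]
  have h2 := Surv_sum K
  have hφ : (0 : ℝ) ≤ ((primorial z).totient : ℝ) := Nat.cast_nonneg _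
  have hlogz : Real.log L / 2 ≤ Real.log (z + 1) := by
    have h3 : √L ≤ (z : ℝ) + 1 := by
      have h4 : L / 64 < (z : ℝ) + 1 := Nat.lt_floor_add_one _
      have h5 : √L ≤ L / 64 := by
        have h6 : √L * √L = L := Real.mul_self_sqrt (by linarith)
        have h7 : 64 ≤ √L := by
          apply Real.le_sqrt_of_sq_le
          norm_num
          exact hL
        nlinarith
      linarith
    have h8 : Real.log (√L) = Real.log L / 2 := Real.log_sqrt (by linarith)
    rw [← h8]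
    exact Real.log_le_log (Real.sqrt_pos.mpr (by linarith)) h3
  have hLL : 0 < Real.log L := Real.log_pos (by linarith)
  have hlz : 0 < Real.log ((z : ℝ) + 1) := by linarith
  have hinv : 1 / Real.log ((z : ℝ) + 1) ≤ 2 / Real.log L := by
    rw [div_le_div_iff₀ hlz hLL]
    linarith
  calc ((primorial z).totient : ℝ) / Real.log (z + 1) * B *
        (2 * ∑ s ∈ Finset.Icc 1 K, (s : ℝ) / (s.totient : ℝ))
      ≤ ((primorial z).totient : ℝ) / Real.log (z + 1) * B * (2 * (Real.exp 1 * K)) := by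
        refine mul_le_mul_of_nonneg_left ?_ (by positivity)
        linarith
    _ = (2 * B * Real.exp 1 * K * ((primorial z).totient : ℝ)) * (1 / Real.log ((z : ℝ) + 1)) := by
        ring
    _ ≤ (2 * B * Real.exp 1 * K * ((primorial z).totient : ℝ)) * (2 / Real.log L) :=
        mul_le_mul_of_nonneg_left hinv (by positivity)
    _ = 4 * B * Real.exp 1 * K * ((primorial z).totient : ℝ) / Real.log L := by ring

end Pool.Agent.PTr
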