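import Pool.Agent.Lib.PTr.Defs

/-!
# The mean value of the weighted prime sums over all primitive characters
-/

set_option autoImplicit false

namespace Pool.Agent.PTr

open Finset Pool.Agent.GapSieve Pool.Agent.PosProp

private lemma tB_zero {φ : ℝ → ℝ} (hφ : Hoh.Bump φ) {X : ℝ} (hX : 0 < X) {n : ℕ} (hn : 1 ≤ n)
    (h : (n : ℝ) ≤ X / 4 ∨ 3 * X < n) : φ (Real.log (n / X)) = 0 := by
  have hn0 : (0 : ℝ) < n := by exact_mod_cast hn
  apply hφ.zero
  rcases h with h | h
  · left
    have h1 : Real.log ((n : ℝ) / X) ≤ 0 := by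
      apply Real.log_nonpos (by positivity)
      rw [div_le_one hX]
      linarith
    linarith
  · right
    have h1 : Real.log 3 ≤ Real.log ((n : ℝ) / X) := by
      apply Real.log_le_log (by norm_num)
      rw [le_div_iff₀ hX]
      exact h.le
    have h2 := Real.log_three_gt_d9
    linarith

private lemma tB_sum {φ : ℝ → ℝ} (hφ : Hoh.Bump φ) {X : ℝ} (hX : 0 < X) (g : ℕ → ℂ) :
    ∑ n ∈ PA X, (wp φ X n : ℂ) * g n =
      ∑ p ∈ (Icc 1 ⌊3 * X⌋₊).filter Nat.Prime,
        ((Real.log p * Pool.PrT.wt φ X p : ℝ) : ℂ) * g p := by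
  have h1 : ∀ n ∈ (Icc 1 (NX X)).filter Nat.Prime, (wp φ X n : ℂ) * g n =
      ((Real.log n * Pool.PrT.wt φ X n : ℝ) : ℂ) * g n := by
    intro n hn
    unfold wp Pool.PrT.wt
    rw [if_pos (mem_filter.1 hn).2]
  have h2 : ∑ n ∈ PA X, (wp φ X n : ℂ) * g n =
      ∑ n ∈ (Icc 1 (NX X)).filter Nat.Prime, (wp φ X n : ℂ) * g n := by
    apply sum_subset
    · intro n hn
      unfold PA at hn
      rw [mem_filter] at hn ⊢
      exact ⟨hn.1, hn.2.1⟩
    · intro n hn hn'
      unfold PA at hn'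
      rw [mem_filter] at hn
      have h3 : (n : ℝ) ≤ X / 4 := by
        by_contra h4
        exact hn' (mem_filter.2 ⟨hn.1, hn.2, not_le.1 h4⟩)
      unfold wp
      rw [if_pos hn.2, tB_zero hφ hX (mem_Icc.1 hn.1).1 (Or.inl h3)]
      simp
  rw [h2, sum_congr rfl h1]
  symm
  apply sum_subset
  · intro n hn
    rw [mem_filter, mem_Icc] at hn ⊢
    refine ⟨⟨hn.1.1, hn.1.2.trans ?_⟩, hn.2⟩
    unfold NX
    apply Nat.floor_le_floor
    linarith
  · intro n hn hn'
    rw [mem_filter, mem_Icc] at hn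
    have h3 : 3 * X < n := by
      by_contra h4
      refine hn' (mem_filter.2 ⟨mem_Icc.2 ⟨hn.1.1, Nat.le_floor (not_lt.1 h4)⟩, hn.2⟩)
    unfold Pool.PrT.wt
    rw [tB_zero hφ hX hn.1.1 (Or.inr h3)]
    simp

private lemma tB_one {φ : ℝ → ℝ} (hφ : Hoh.Bump φ) {X : ℝ} (hX : 0 < X) (g : ℕ → ℂ)
    (hg : ∀ n, ‖g n‖ ≤ 1) : ‖∑ n ∈ PA X, (wp φ X n : ℂ) * g n‖ ≤ 4 * Real.log 4 * X := by
  calc ‖∑ n ∈ PA X, (wp φ X n : ℂ) * g n‖ ≤ ∑ n ∈ PA X, ‖(wp φ X n : ℂ) * g n‖ := norm_sum_le _ _
    _ ≤ ∑ n ∈ PA X, Real.log n := by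
        refine sum_le_sum fun n hn => ?_
        have hp : n.Prime := (mem_filter.1 hn).2.1
        have hl : 0 ≤ Real.log n := Real.log_natCast_nonneg n
        rw [norm_mul, Complex.norm_real, Real.norm_eq_abs]
        unfold wp
        rw [if_pos hp, abs_of_nonneg (mul_nonneg hl (hφ.nonneg _))]
        calc Real.log n * φ (Real.log (n / X)) * ‖g n‖ ≤ Real.log n * 1 * 1 := by
              gcongr
              · exact hφ.le_one _
              · exact hg n
          _ = _ := by ring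
    _ ≤ Chebyshev.theta (4 * X) := by
        unfold Chebyshev.theta
        refine sum_le_sum_of_subset_of_nonneg ?_ fun n _ _ => Real.log_natCast_nonneg n
        intro n hn
        unfold PA at hn
        rw [mem_filter, mem_Icc] at hn
        rw [mem_filter, mem_Ioc]
        exact ⟨⟨hn.1.1, hn.1.2⟩, hn.2.1⟩
    _ ≤ Real.log 4 * (4 * X) := Chebyshev.theta_le_log4_mul_x (by positivity)
    _ = _ := by ring

/-- **TB** -/
theorem TB_p (h1 : Pool.PrT.FinStmt) : TBStmt := by
  intro φ hφ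
  obtain ⟨C, X0, hC, hX0, h⟩ := h1 φ hφ
  have hl4 : 0 < Real.log 4 := Real.log_pos (by norm_num)
  refine ⟨C + 4 * Real.log 4, max X0 3, by positivity, ?_⟩
  intro X hX F hF
  have hX3 : (3 : ℝ) ≤ X := (le_max_right _ _).trans hX
  have hXpos : 0 < X := by linarith
  have hlog : 1 ≤ Real.log X := by
    rw [Real.le_log_iff_exp_le hXpos]
    have := Real.exp_one_lt_d9
    linarith
  have hmain := h X ((le_max_left _ _).trans hX) F hF
  have hPS : PSum (PA X) (wp φ X) F ≤ 4 * Real.log 4 * X + Pool.PrT.PS F (fun r ψ =>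
      ‖∑ p ∈ (Finset.Icc 1 ⌊3 * X⌋₊).filter Nat.Prime,
        ((Real.log p * Pool.PrT.wt φ X p : ℝ) : ℂ) * ψ ((p : ℕ) : ZMod r)‖) := by
    unfold PSum Pool.PrT.PS
    rcases Nat.eq_zero_or_pos F with hF0 | hF0
    · subst hF0
      simp only [show Icc 1 0 = (∅ : Finset ℕ) from rfl, show Icc 2 0 = (∅ : Finset ℕ) from rfl,
        sum_empty]
      positivity
    · have h2 : Icc 1 F = insert 1 (Icc 2 F) := by
        ext n
        rw [mem_insert, mem_Icc, mem_Icc]
        omega
      have h3 : (1 : ℕ) ∉ Icc 2 F := by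
        rw [mem_Icc]
        omega
      rw [h2, sum_insert h3]
      refine add_le_add ?_ (le_of_eq ?_)
      · have hcard : Fintype.card (DirichletCharacter ℂ 1) = 1 := by
          rw [Fintype.card_eq_one_iff]
          exact ⟨1, fun χ => DirichletCharacter.level_one χ⟩
        calc _ ≤ ∑ _ψ : DirichletCharacter ℂ 1, 4 * Real.log 4 * X := by
              refine sum_le_sum fun ψ _ => ?_
              split_ifs
              · exact tB_one hφ hXpos (fun n => ψ ((n : ℕ) : ZMod 1)) fun n => ψ.norm_le_one _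
              · positivity
          _ = _ := by
              rw [sum_const, card_univ, hcard, one_smul]
      · refine sum_congr rfl fun f _ => sum_congr rfl fun ψ _ => ?_
        rw [tB_sum hφ hXpos (fun n => ψ ((n : ℕ) : ZMod f))]
  have h4 : X ≤ X * Real.log X ^ 4 := by
    have h5 : 1 ≤ Real.log X ^ 4 := one_le_pow₀ hlog
    nlinarith
  calc PSum (PA X) (wp φ X) F ≤ _ := hPS
    _ ≤ 4 * Real.log 4 * X + C * X * Real.log X ^ 4 := by linarith
    _ ≤ 4 * Real.log 4 * (X * Real.log X ^ 4) + C * X * Real.log X ^ 4 := by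
        have h6 := mul_le_mul_of_nonneg_left h4 (by positivity : 0 ≤ 4 * Real.log 4)
        linarith
    _ = _ := by ring

end Pool.Agent.PTr
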