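import Pool.Agent.Lib.PTr.Defs

/-!
# Thinning preserves the level
-/

set_option autoImplicit false

namespace Pool.Agent.PTr

open Finset Pool.Agent.GapSieve Pool.Agent.PosProp

theorem ThLev_p : ThLevStmt := by
  intro N Q D Φ h
  induction h with
  | zero =>
    refine CLev.zero.congr fun ω => ?_
    simp [Th]
  | cons T hT hD g f hg _ ih =>
    refine (CLev.cons T hT hD (Th Q g) _ ?_ ih).congr fun ω => ?_
    · intro ω
      unfold Th
      refine sum_congr rfl fun S _ => ?_
      congr 1
      rw [← hg (fun i => ω i ∩ S)]
      congr 1
      funext i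
      rw [inter_right_comm]
    · unfold Th
      rw [← sum_add_distrib]
      exact sum_congr rfl fun S _ => by ring

end Pool.Agent.PTr
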