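import Pool.Agent.Lib.PTr.Defs

/-!
# Cauchy-Schwarz inequality for the thinning
-/

set_option autoImplicit false

namespace Pool.Agent.PTr

open Finset Pool.Agent.GapSieve Pool.Agent.PosProp

private lemma thSq_kp (q : ℕ) (hq : 1 ≤ q) : 0 ≤ kp q ∧ kp q ≤ 1 := by
  unfold kp
  have h1 : (1 : ℝ) ≤ q := by exact_mod_cast hq
  have h2 : (q : ℝ)⁻¹ ≤ 1 := inv_le_one_of_one_le₀ h1
  have h3 : 0 ≤ (q : ℝ)⁻¹ := by positivity
  constructor <;> linarith

private lemma thSq_sum (Q : Finset ℕ) : ∑ S ∈ Q.powerset, mu kp Q S = 1 := by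
  unfold mu
  rw [← prod_add]
  refine prod_eq_one fun q _ => ?_
  ring

/-- **ThSq** -/
theorem ThSq_p : ThSqStmt := by
  intro N Q Φ ω hQ
  unfold Th
  exact Real.pow_arith_mean_le_arith_mean_pow_of_even Q.powerset (fun S => mu kp Q S)
    (fun S => Φ (fun i => ω i ∩ S))
    (fun S hS => mu_nonneg (mem_powerset.1 hS) (fun q hq => (thSq_kp q (hQ q hq)).1)
      (fun q hq => (thSq_kp q (hQ q hq)).2)) (thSq_sum Q) even_two

end Pool.Agent.PTr
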