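import Pool.Agent.Lib.PTr.Defs

set_option autoImplicit false

namespace Pool.Agent.PTr

open Finset Pool.Agent.GapSieve Pool.Agent.PosProp

/-- a form all of whose sites are hit by small primes is not a prime -/
private theorem TheoremT_np (b : ℤ) (K : ℕ) (lam Y : ℝ) (n : ℕ) (hY : √Y + |(b : ℝ)| < Y / 4)
    (hn : Y / 4 < n) (hg : gd b K (√Y) n)
    (hK : ∀ s : ℤ, |(s : ℝ)| ≤ lam * Real.log n → |s| ≤ (K : ℤ)) :
    ∀ s : ℤ, s ≠ 0 → |(s : ℝ)| ≤ lam * Real.log n → ¬ (b + s * n).natAbs.Prime := by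
  intro s hs hsl hp
  obtain ⟨q, hq, hqY, hqd⟩ := hg s hs (hK s hsl)
  have hqd' : q ∣ (b + s * n).natAbs := Int.natCast_dvd.1 hqd
  have hqe : q = (b + s * n).natAbs := (Nat.prime_dvd_prime_iff_eq hq hp).1 hqd'
  have h1 : ((q : ℕ) : ℝ) = |((b + s * n : ℤ) : ℝ)| := by
    rw [hqe, Nat.cast_natAbs, Int.cast_abs]
  have h2 : (1 : ℝ) ≤ |(s : ℝ)| := by
    have h3 : (1 : ℤ) ≤ |s| := Int.one_le_abs hs
    have h4 : ((1 : ℤ) : ℝ) ≤ ((|s| : ℤ) : ℝ) := Int.cast_le.2 h3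
    rw [Int.cast_one, Int.cast_abs] at h4
    exact h4
  have hn0 : (0 : ℝ) ≤ (n : ℝ) := Nat.cast_nonneg n
  have h5 : (n : ℝ) ≤ |(s : ℝ) * (n : ℝ)| := by
    rw [abs_mul, abs_of_nonneg hn0]
    nlinarith
  have h6 : |(s : ℝ) * (n : ℝ)| ≤ |((b + s * n : ℤ) : ℝ)| + |(b : ℝ)| := by
    have h7 : (s : ℝ) * (n : ℝ) = ((b + s * n : ℤ) : ℝ) - (b : ℝ) := by
      push_cast
      ring
    rw [h7]
    exact abs_sub _ _
  rw [← h1] at h6
  linarith

/-- the weights are at most `log (4 Y)` -/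
private theorem TheoremT_wp (φ : ℝ → ℝ) (hφ : Hoh.Bump φ) (X Y : ℝ) (n : ℕ) (hn1 : 1 ≤ n)
    (hn : (n : ℝ) ≤ X) : wp φ Y n ≤ Real.log X := by
  have hn0 : (0 : ℝ) < (n : ℝ) := by
    have : 0 < n := hn1
    exact_mod_cast this
  have h1 : Real.log n ≤ Real.log X := Real.log_le_log hn0 hn
  have h0 : 0 ≤ Real.log (n : ℝ) := Real.log_natCast_nonneg n
  unfold wp
  split_ifs with h
  · have h2 := hφ.le_one (Real.log (n / Y))
    have h3 := hφ.nonneg (Real.log (n / Y))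
    calc Real.log n * φ (Real.log (n / Y)) ≤ Real.log n * 1 :=
          mul_le_mul_of_nonneg_left h2 h0
      _ = Real.log n := mul_one _
      _ ≤ Real.log X := h1
  · exact h0.trans h1

private theorem TheoremT_sqrt (Y B : ℝ) (hB : 0 ≤ B) (hY : 65 + 8 * B ≤ Y) :
    √Y + B < Y / 4 := by
  have h0 : 0 ≤ Y := by linarith
  have h1 : (8 : ℝ) ≤ √Y := by
    apply Real.le_sqrt_of_sq_le
    linarith
  have h2 : √Y * √Y = Y := Real.mul_self_sqrt h0
  have h3 : 8 * √Y ≤ Y := by nlinarith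
  linarith

theorem TheoremT_p (h1 : GoodStmt) (h2 : BumpStmt) : TheoremTStmt := by
  classical
  intro b lam hb hlam
  obtain ⟨φ, hφ⟩ := h2
  obtain ⟨c, X0, hc, hX⟩ := h1 φ hφ b (max lam 1) hb (le_max_right _ _)
  refine ⟨c / 4, max (4 * X0) (4 * (65 + 8 * |(b : ℝ)|)), by positivity, fun X hXX => ?_⟩
  have hB : (0 : ℝ) ≤ |(b : ℝ)| := abs_nonneg _
  have hY0 : X0 ≤ X / 4 := by
    have := (le_max_left _ _).trans hXX
    linarith
  have hY1 : 65 + 8 * |(b : ℝ)| ≤ X / 4 := by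
    have := (le_max_right _ _).trans hXX
    linarith
  have hG := hX (X / 4) hY0
  have h4 : 4 * (X / 4) = X := by ring
  have hX1 : 260 ≤ X := by linarith
  have hlog : 0 < Real.log X := Real.log_pos (by linarith)
  have hmem : ∀ n ∈ PA (X / 4), n.Prime ∧ 1 ≤ n ∧ n ≤ ⌊X⌋₊ ∧ (n : ℝ) ≤ X ∧ X / 4 / 4 < n := by
    intro n hn
    unfold PA NX at hn
    rw [h4, mem_filter, mem_Icc] at hn
    refine ⟨hn.2.1, hn.1.1, hn.1.2, ?_, hn.2.2⟩
    exact (Nat.le_floor_iff (by linarith)).1 hn.1.2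
  have hsub : (PA (X / 4)).filter (fun n => gd b (KX (max lam 1) (X / 4)) (√(X / 4)) n) ⊆
      (Icc 1 ⌊X⌋₊).filter (fun p : ℕ => p.Prime ∧
        ∀ s : ℤ, s ≠ 0 → |(s : ℝ)| ≤ lam * Real.log p → ¬ (b + s * p).natAbs.Prime) := by
    intro n hn
    rw [mem_filter] at hn
    obtain ⟨hnp, hn1, hn2, hn3, hn4⟩ := hmem n hn.1
    rw [mem_filter, mem_Icc]
    refine ⟨⟨hn1, hn2⟩, hnp, ?_⟩
    refine TheoremT_np b _ lam (X / 4) n (TheoremT_sqrt _ _ hB hY1) hn4 hn.2 ?_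
    intro s hs
    have hl0 : 0 ≤ Real.log (n : ℝ) := Real.log_natCast_nonneg n
    have hn0 : (0 : ℝ) < (n : ℝ) := by
      have : 0 < n := hn1
      exact_mod_cast this
    have hl1 : Real.log n ≤ Real.log X := Real.log_le_log hn0 hn3
    have hs1 : ((s.natAbs : ℕ) : ℝ) ≤ max lam 1 * Real.log (4 * (X / 4)) := by
      rw [h4, Nat.cast_natAbs, Int.cast_abs]
      calc |(s : ℝ)| ≤ lam * Real.log n := hs
        _ ≤ max lam 1 * Real.log X :=
          mul_le_mul (le_max_left _ _) hl1 hl0 (hlam.le.trans (le_max_left _ _))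
    have hs2 : s.natAbs ≤ KX (max lam 1) (X / 4) := Nat.le_floor hs1
    rw [Int.abs_eq_natAbs]
    exact_mod_cast hs2
  have hsum : c * (X / 4) ≤
      (((PA (X / 4)).filter (fun n => gd b (KX (max lam 1) (X / 4)) (√(X / 4)) n)).card : ℝ) *
        Real.log X := by
    refine hG.trans ?_
    rw [← nsmul_eq_mul]
    refine Finset.sum_le_card_nsmul _ _ _ fun n hn => ?_
    rw [mem_filter] at hn
    obtain ⟨hnp, hn1, hn2, hn3, hn4⟩ := hmem n hn.1
    exact TheoremT_wp φ hφ X (X / 4) n hn1 hn3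
  have hcard : (((PA (X / 4)).filter
      (fun n => gd b (KX (max lam 1) (X / 4)) (√(X / 4)) n)).card : ℝ) ≤
      (((Icc 1 ⌊X⌋₊).filter (fun p : ℕ => p.Prime ∧
        ∀ s : ℤ, s ≠ 0 → |(s : ℝ)| ≤ lam * Real.log p →
          ¬ (b + s * p).natAbs.Prime)).card : ℝ) := by
    exact_mod_cast card_le_card hsub
  rw [div_le_iff₀ hlog]
  calc c / 4 * X = c * (X / 4) := by ring
    _ ≤ _ := hsum
    _ ≤ _ := mul_le_mul_of_nonneg_right hcard hlog.le

end Pool.Agent.PTr
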