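import Pool.Agent.Lib.PTr.Defs

/-!
# Transfer from the uniform measure to a weighted set

`Transfer_p`: the weighted sums of the thinned configuration functions over a residue class, by
Fourier inversion modulo `P ∏ Q`.
-/

set_option autoImplicit false

namespace Pool.Agent.PTr

open Finset Pool.Agent.GapSieve Pool.Agent.PosProp

private lemma transfer_per {N : ℕ} {Q : Finset ℕ} {hit : ℕ → Fin N → ℕ → Prop}
    (hs : PSys Q hit) (m t : ℕ) (hm : ∀ q ∈ Q, q ∣ m) : conf Q hit (t + m) = conf Q hit t := by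
  classical
  funext i
  unfold conf
  apply filter_congr
  intro q hq
  obtain ⟨k, hk⟩ := hm q hq
  rw [hk]
  clear hk
  induction k with
  | zero => simp
  | succ k ih =>
    rw [Nat.mul_succ, ← add_assoc, hs.sys.per q hq i (t + q * k)]
    exact ih

private lemma transfer_ER_add {N : ℕ} {Q : Finset ℕ} (hit : ℕ → Fin N → ℕ → Prop)
    (hM : 0 < ∏ q ∈ Q, q) (Φ : (Fin N → Finset ℕ) → ℝ) (c : ℝ) :
    ER Q hit (fun ω => Φ ω + c) = ER Q hit Φ + c := by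
  unfold ER
  have hM' : ((∏ q ∈ Q, q : ℕ) : ℝ) ≠ 0 := by exact_mod_cast hM.ne'
  rw [sum_add_distrib, sum_const, card_range, nsmul_eq_mul, add_div, mul_div_cancel_left₀ _ hM']

private lemma transfer_ER_sq {N : ℕ} {Q : Finset ℕ} (hit : ℕ → Fin N → ℕ → Prop)
    (hM : 0 < ∏ q ∈ Q, q) (Φ : (Fin N → Finset ℕ) → ℝ) :
    ER Q hit (fun ω => (Φ ω + -ER Q hit Φ) ^ 2) ≤ ER Q hit (fun ω => Φ ω ^ 2) := by
  have hM' : (0 : ℝ) < ((∏ q ∈ Q, q : ℕ) : ℝ) := by exact_mod_cast hM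
  have hS : ∑ t ∈ range (∏ q ∈ Q, q), Φ (conf Q hit t) =
      ER Q hit Φ * ((∏ q ∈ Q, q : ℕ) : ℝ) := by
    unfold ER
    rw [div_mul_cancel₀ _ hM'.ne']
  generalize ER Q hit Φ = E at hS ⊢
  unfold ER
  apply div_le_div_of_nonneg_right _ hM'.le
  have h1 : ∑ t ∈ range (∏ q ∈ Q, q), (Φ (conf Q hit t) + -E) ^ 2 =
      ∑ t ∈ range (∏ q ∈ Q, q), Φ (conf Q hit t) ^ 2 -
        2 * E * ∑ t ∈ range (∏ q ∈ Q, q), Φ (conf Q hit t) +
        ((∏ q ∈ Q, q : ℕ) : ℝ) * E ^ 2 := by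
    rw [mul_sum, ← sum_sub_distrib]
    have h2 : ((∏ q ∈ Q, q : ℕ) : ℝ) * E ^ 2 = ∑ t ∈ range (∏ q ∈ Q, q), E ^ 2 := by
      rw [sum_const, card_range, nsmul_eq_mul]
    rw [h2, ← sum_add_distrib]
    exact sum_congr rfl fun t _ => by ring
  rw [h1, hS]
  nlinarith [mul_nonneg hM'.le (sq_nonneg E)]

private lemma transfer_Th_add {N : ℕ} (Q : Finset ℕ) (Φ : (Fin N → Finset ℕ) → ℝ) (c : ℝ)
    (ω : Fin N → Finset ℕ) : Th Q (fun ω => Φ ω + c) ω = Th Q Φ ω + c := by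
  unfold Th
  have h := E_one kp Q
  calc ∑ S ∈ Q.powerset, mu kp Q S * (Φ (fun i => ω i ∩ S) + c)
      = ∑ S ∈ Q.powerset, mu kp Q S * Φ (fun i => ω i ∩ S) +
          (∑ S ∈ Q.powerset, mu kp Q S) * c := by
        rw [sum_mul, ← sum_add_distrib]
        exact sum_congr rfl fun S _ => by ring
    _ = ∑ S ∈ Q.powerset, mu kp Q S * Φ (fun i => ω i ∩ S) + c := by rw [h, one_mul]

theorem Transfer_p (h1 : ThLevStmt) (h2 : HatPStmt) (h3 : HatZStmt) (h4 : HatBdStmt)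
    (h5 : FInvStmt) (h6 : CondWStmt) : TransferStmt := by
  intro N Q hit hs P c hP hcop hc hcc q0 hq0 hN A w hA D Φ hD hΦ
  have hMpos : 0 < ∏ q ∈ Q, q := prod_pos fun q hq => (hs.pr q hq).pos
  have hRpos : 0 < P * ∏ q ∈ Q, q := Nat.mul_pos hP hMpos
  have hsq := transfer_ER_sq hit hMpos Φ
  have hER0 : ER Q hit (fun ω => Φ ω + -ER Q hit Φ) = 0 := by
    rw [transfer_ER_add hit hMpos]; ring
  have hTh : ∀ ω, Th Q (fun ω => Φ ω + -ER Q hit Φ) ω = Th Q Φ ω - ER Q hit Φ := fun ω => by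
    rw [transfer_Th_add]; ring
  have hL0 : CLev Q D (fun ω => Φ ω + -ER Q hit Φ) := hΦ.add (CLev.const _ hD)
  generalize hE : ER Q hit Φ = E at hsq hER0 hTh hL0 ⊢
  set Φ0 : (Fin N → Finset ℕ) → ℝ := fun ω => Φ ω + -E with hΦ0
  set f : ℕ → ℝ := fun x => Th Q Φ0 (conf Q hit x) with hf
  have hper : ∀ t, f (t + P * ∏ q ∈ Q, q) = f t := by
    intro t
    simp only [hf]
    rw [transfer_per hs (P * ∏ q ∈ Q, q) t
      (fun q hq => (dvd_prod_of_mem (fun q => q) hq).mul_left P)]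
  have hlhs : ∑ n ∈ A.filter (fun n => n % P = c), w n * Th Q Φ (conf Q hit n) -
      (∑ n ∈ A.filter (fun n => n % P = c), w n) * E =
      ∑ n ∈ A.filter (fun n => n % P = c), w n * f n := by
    rw [sum_mul, ← sum_sub_distrib]
    refine sum_congr rfl fun n _ => ?_
    simp only [hf]
    rw [hTh]; ring
  rw [hlhs]
  have hphi : ((P * ∏ q ∈ Q, q).totient : ℂ) ≠ 0 := by
    exact_mod_cast (Nat.totient_pos.2 hRpos).ne'
  have hcx : ((∑ n ∈ A.filter (fun n => n % P = c), w n * f n : ℝ) : ℂ) =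
      (∑ χ : DirichletCharacter ℂ (P * ∏ q ∈ Q, q), hat (P * ∏ q ∈ Q, q) P c f χ *
        ∑ n ∈ A, (w n : ℂ) * χ ((n : ℕ) : ZMod (P * ∏ q ∈ Q, q))) /
        ((P * ∏ q ∈ Q, q).totient : ℂ) := by
    calc ((∑ n ∈ A.filter (fun n => n % P = c), w n * f n : ℝ) : ℂ)
        = ∑ n ∈ A.filter (fun n => n % P = c), (w n : ℂ) * (f n : ℂ) := by
          rw [Complex.ofReal_sum]
          exact sum_congr rfl fun n _ => Complex.ofReal_mul _ _
      _ = ∑ n ∈ A, (w n : ℂ) * (if n % P = c then (f n : ℂ) else 0) := by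
          rw [sum_filter]
          refine sum_congr rfl fun n _ => ?_
          split_ifs <;> simp
      _ = ∑ n ∈ A, (w n : ℂ) * ((∑ χ : DirichletCharacter ℂ (P * ∏ q ∈ Q, q),
            hat (P * ∏ q ∈ Q, q) P c f χ * χ ((n : ℕ) : ZMod (P * ∏ q ∈ Q, q))) /
            ((P * ∏ q ∈ Q, q).totient : ℂ)) := by
          refine sum_congr rfl fun n hn => ?_
          rw [h5 _ P c f hRpos (dvd_mul_right P _) hper n (hA n hn)]
      _ = _ := by
          rw [sum_div]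
          simp_rw [mul_div_assoc']
          rw [← sum_div, ← sum_div]
          congr 1
          simp_rw [mul_sum]
          rw [sum_comm]
          refine sum_congr rfl fun χ _ => sum_congr rfl fun n _ => ?_
          ring
  have hN0 : 0 ≤ 3 * √((N : ℝ) / ((q0 : ℝ) - 1)) * ((∏ q ∈ Q, q : ℕ).totient : ℝ) *
      √(ER Q hit (fun ω => Φ0 ω ^ 2)) := by positivity
  have hterm : ∀ χ : DirichletCharacter ℂ (P * ∏ q ∈ Q, q),
      ‖hat (P * ∏ q ∈ Q, q) P c f χ *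
        ∑ n ∈ A, (w n : ℂ) * χ ((n : ℕ) : ZMod (P * ∏ q ∈ Q, q))‖ ≤
      3 * √((N : ℝ) / ((q0 : ℝ) - 1)) * ((∏ q ∈ Q, q : ℕ).totient : ℝ) *
        √(ER Q hit (fun ω => Φ0 ω ^ 2)) *
        (if χ.conductor ≤ ⌊(P : ℝ) * D⌋₊ then
          ‖∑ n ∈ A, (w n : ℂ) * χ ((n : ℕ) : ZMod (P * ∏ q ∈ Q, q))‖ else 0) := by
    intro χ
    rw [norm_mul]
    split_ifs with hcd
    · refine mul_le_mul_of_nonneg_right ?_ (norm_nonneg _)
      by_cases hdvd : χ.conductor ∣ P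
      · have h0 : hat (P * ∏ q ∈ Q, q) P c f χ = 0 :=
          h2 N Q hit hs P c hP hcop hc hcc Φ0 hER0 χ hdvd
        rw [h0, norm_zero]
        exact hN0
      · exact h4 N Q hit hs P c hP hcop hc hcc q0 hq0 hN Φ0 χ hdvd
    · have hlt : (P : ℝ) * D < (χ.conductor : ℝ) := by
        have h7 : ⌊(P : ℝ) * D⌋₊ < χ.conductor := not_le.1 hcd
        exact (Nat.floor_lt (by positivity)).1 h7
      have h0 : hat (P * ∏ q ∈ Q, q) P c f χ = 0 :=
        h3 N Q hit hs P c hP hcop hc D (Th Q Φ0) (h1 N Q D Φ0 hL0) χ hlt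
      rw [h0, norm_zero, zero_mul, mul_zero]
  have hsum : ‖∑ χ : DirichletCharacter ℂ (P * ∏ q ∈ Q, q), hat (P * ∏ q ∈ Q, q) P c f χ *
        ∑ n ∈ A, (w n : ℂ) * χ ((n : ℕ) : ZMod (P * ∏ q ∈ Q, q))‖ ≤
      3 * √((N : ℝ) / ((q0 : ℝ) - 1)) * ((∏ q ∈ Q, q : ℕ).totient : ℝ) *
        √(ER Q hit (fun ω => Φ0 ω ^ 2)) * PSum A w ⌊(P : ℝ) * D⌋₊ := by
    refine (norm_sum_le _ _).trans ?_
    refine (sum_le_sum fun χ _ => hterm χ).trans ?_
    rw [← mul_sum]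
    exact mul_le_mul_of_nonneg_left (h6 A w _ _ hRpos hA) hN0
  have hPS : 0 ≤ PSum A w ⌊(P : ℝ) * D⌋₊ := by
    unfold PSum
    refine sum_nonneg fun g _ => sum_nonneg fun ψ _ => ?_
    split_ifs
    · exact norm_nonneg _
    · exact le_refl _
  have habs : |∑ n ∈ A.filter (fun n => n % P = c), w n * f n| =
      ‖((∑ n ∈ A.filter (fun n => n % P = c), w n * f n : ℝ) : ℂ)‖ := by
    rw [Complex.norm_real, Real.norm_eq_abs]
  rw [habs, hcx, norm_div, Complex.norm_natCast]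
  have htot : ((P * ∏ q ∈ Q, q).totient : ℝ) =
      (P.totient : ℝ) * ((∏ q ∈ Q, q : ℕ).totient : ℝ) := by
    rw [Nat.totient_mul hcop]; push_cast; rfl
  have hPt : (0 : ℝ) < (P.totient : ℝ) := by exact_mod_cast Nat.totient_pos.2 hP
  have hMt : (0 : ℝ) < ((∏ q ∈ Q, q : ℕ).totient : ℝ) := by
    exact_mod_cast Nat.totient_pos.2 hMpos
  rw [htot, div_le_iff₀ (mul_pos hPt hMt)]
  refine hsum.trans ?_
  have hsqrt : √(ER Q hit (fun ω => Φ0 ω ^ 2)) ≤ √(ER Q hit (fun ω => Φ ω ^ 2)) :=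
    Real.sqrt_le_sqrt hsq
  have hfin : 3 * √((N : ℝ) / ((q0 : ℝ) - 1)) / (P.totient : ℝ) * PSum A w ⌊(P : ℝ) * D⌋₊ *
        √(ER Q hit (fun ω => Φ ω ^ 2)) *
        ((P.totient : ℝ) * ((∏ q ∈ Q, q : ℕ).totient : ℝ)) =
      3 * √((N : ℝ) / ((q0 : ℝ) - 1)) * ((∏ q ∈ Q, q : ℕ).totient : ℝ) *
        √(ER Q hit (fun ω => Φ ω ^ 2)) * PSum A w ⌊(P : ℝ) * D⌋₊ := by
    field_simp
  rw [hfin]
  refine mul_le_mul_of_nonneg_right ?_ hPS
  exact mul_le_mul_of_nonneg_left hsqrt (by positivity)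

end Pool.Agent.PTr
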