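import Pool.Agent.Lib.PTr.Defs

/-!
# The thinned configuration at a random unit has the law of the configuration at a random residue
-/

set_option autoImplicit false

namespace Pool.Agent.PTr

open Finset Pool.Agent.GapSieve Pool.Agent.PosProp

private lemma totient_eq {Q : Finset ℕ} (hpr : ∀ q ∈ Q, q.Prime) :
    ((∏ q ∈ Q, q : ℕ).totient : ℝ) = ((∏ q ∈ Q, q : ℕ) : ℝ) * ∏ q ∈ Q, kp q := by
  have h := Nat.totient_eq_mul_prod_factors (∏ q ∈ Q, q)
  rw [Nat.primeFactors_prod hpr] at h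
  have h2 : (((∏ q ∈ Q, q : ℕ).totient : ℚ) : ℝ) =
      ((((∏ q ∈ Q, q : ℕ) : ℚ) * ∏ p ∈ Q, (1 - (p : ℚ)⁻¹) : ℚ) : ℝ) := by rw [h]
  rw [Rat.cast_natCast, Rat.cast_mul, Rat.cast_natCast, Rat.cast_prod] at h2
  rw [h2]
  congr 1
  refine prod_congr rfl fun q _ => ?_
  unfold kp
  push_cast
  rfl

open Classical in
private lemma ind_split {N : ℕ} {Q S : Finset ℕ} {hit : ℕ → Fin N → ℕ → Prop} (hS : S ⊆ Q)
    {ω : Fin N → Finset ℕ} (hω : ω ∈ Om N Q) (t : ℕ) :
    (if (fun i => conf Q hit t i ∩ S) = ω then (1 : ℝ) else 0) =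
      (∏ q ∈ S, (if ∀ i, (hit q i t ↔ i ∈ univ.filter fun i => q ∈ ω i) then (1 : ℝ) else 0)) *
      ∏ q ∈ Q \ S, (if (univ.filter fun i => q ∈ ω i) = ∅ then (1 : ℝ) else 0) := by
  rw [mem_Om] at hω
  by_cases h : (fun i => conf Q hit t i ∩ S) = ω
  · rw [if_pos h, prod_eq_one, prod_eq_one, one_mul]
    · intro q hq
      rw [if_pos]
      rw [filter_eq_empty_iff]
      intro i _ hi
      rw [← h] at hi
      exact (mem_sdiff.1 hq).2 (mem_inter.1 hi).2
    · intro q hq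
      rw [if_pos]
      intro i
      rw [← h]
      simp only [mem_filter, mem_univ, true_and, mem_inter, conf]
      exact ⟨fun h1 => ⟨⟨hS hq, h1⟩, hq⟩, fun h1 => h1.1.2⟩
  · rw [if_neg h]
    symm
    by_contra hne
    obtain ⟨h1, h2⟩ := mul_ne_zero_iff.1 hne
    rw [prod_ne_zero_iff] at h1 h2
    apply h
    funext i
    ext q
    rw [mem_inter]
    constructor
    · rintro ⟨hq1, hq2⟩
      have h3 := h1 q hq2
      have h4 : ∀ i, (hit q i t ↔ i ∈ univ.filter fun i => q ∈ ω i) := by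
        by_contra h5
        exact h3 (if_neg h5)
      have h5 := (h4 i).1 (mem_filter.1 hq1).2
      exact (mem_filter.1 h5).2
    · intro hq
      have hqQ := hω i hq
      have hqS : q ∈ S := by
        by_contra hqS
        have h3 := h2 q (mem_sdiff.2 ⟨hqQ, hqS⟩)
        have h4 : (univ.filter fun i => q ∈ ω i) = ∅ := by
          by_contra h5
          exact h3 (if_neg h5)
        rw [filter_eq_empty_iff] at h4
        exact h4 (mem_univ i) hq
      refine ⟨?_, hqS⟩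
      have h3 := h1 q hqS
      have h4 : ∀ i, (hit q i t ↔ i ∈ univ.filter fun i => q ∈ ω i) := by
        by_contra h5
        exact h3 (if_neg h5)
      exact mem_filter.2 ⟨hqQ, (h4 i).2 (mem_filter.2 ⟨mem_univ i, hq⟩)⟩

open Classical in
private lemma thin_ind {N : ℕ} {Q : Finset ℕ} {hit : ℕ → Fin N → ℕ → Prop}
    {ω : Fin N → Finset ℕ} (hω : ω ∈ Om N Q) (t : ℕ) :
    ∑ S ∈ Q.powerset, mu kp Q S *
      (if (fun i => conf Q hit t i ∩ S) = ω then (1 : ℝ) else 0) =
    ∏ q ∈ Q, (kp q *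
      (if ∀ i, (hit q i t ↔ i ∈ univ.filter fun i => q ∈ ω i) then (1 : ℝ) else 0) +
      (1 - kp q) * (if (univ.filter fun i => q ∈ ω i) = ∅ then (1 : ℝ) else 0)) := by
  rw [prod_add]
  refine sum_congr rfl fun S hS => ?_
  rw [ind_split (mem_powerset.1 hS) hω t, prod_mul_distrib, prod_mul_distrib]
  unfold mu
  ring

open Classical in
private lemma local_sum {N : ℕ} {Q : Finset ℕ} {hit : ℕ → Fin N → ℕ → Prop} (h : PSys Q hit)
    {q : ℕ} (hq : q ∈ Q) (T : Finset (Fin N)) :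
    ∑ a ∈ range q, (if ¬ q ∣ a then (1 : ℝ) else 0) *
      (kp q * (if ∀ i, (hit q i a ↔ i ∈ T) then (1 : ℝ) else 0) +
        (1 - kp q) * (if T = ∅ then (1 : ℝ) else 0)) =
      kp q * (if T.card = 0 then (q : ℝ) - N * ((1 : ℕ) : ℝ) else
        if T.card = 1 then ((1 : ℕ) : ℝ) else 0) := by
  have hss := site_sum h.sys hq T
  have hq0 : (0 : ℝ) < q := by exact_mod_cast (h.pr q hq).pos
  by_cases hT : T = ∅
  · have h1 : ∀ a ∈ range q, (if ¬ q ∣ a then (1 : ℝ) else 0) *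
      (kp q * (if ∀ i, (hit q i a ↔ i ∈ T) then (1 : ℝ) else 0) +
        (1 - kp q) * (if T = ∅ then (1 : ℝ) else 0)) =
        kp q * (if ∀ i, (hit q i a ↔ i ∈ T) then (1 : ℝ) else 0) + (1 - kp q) -
        (if a = 0 then (1 : ℝ) else 0) := by
      intro a ha
      rw [mem_range] at ha
      rw [if_pos hT]
      by_cases ha0 : a = 0
      · have h2 : ∀ i, (hit q i a ↔ i ∈ T) := by
          intro i
          rw [hT]
          constructor
          · intro h3
            exact absurd (by rw [ha0]; exact dvd_zero q) (h.un q hq i a h3)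
          · intro h3
            exact absurd h3 (notMem_empty i)
        rw [if_pos h2, if_pos ha0, if_neg]
        · ring
        · rw [ha0]
          exact fun h3 => h3 (dvd_zero q)
      · rw [if_neg ha0, if_pos]
        · ring
        · intro h3
          exact ha0 (Nat.eq_zero_of_dvd_of_lt h3 ha)
    rw [sum_congr rfl h1, sum_sub_distrib, sum_add_distrib, ← mul_sum, hss, sum_ite_eq',
      if_pos (mem_range.2 (h.pr q hq).pos), sum_const, card_range, nsmul_eq_mul]
    have h2 : (q : ℝ) * (1 - kp q) = 1 := by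
      unfold kp
      field_simp
      ring
    rw [h2]
    ring
  · have h1 : ∀ a ∈ range q, (if ¬ q ∣ a then (1 : ℝ) else 0) *
      (kp q * (if ∀ i, (hit q i a ↔ i ∈ T) then (1 : ℝ) else 0) +
        (1 - kp q) * (if T = ∅ then (1 : ℝ) else 0)) =
        kp q * (if ∀ i, (hit q i a ↔ i ∈ T) then (1 : ℝ) else 0) := by
      intro a _
      rw [if_neg hT]
      by_cases h2 : ∀ i, (hit q i a ↔ i ∈ T)
      · obtain ⟨i, hi⟩ := nonempty_iff_ne_empty.2 hT
        have h3 := h.un q hq i a ((h2 i).2 hi)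
        rw [if_pos h2, if_pos h3]
        ring
      · rw [if_neg h2]
        ring
    rw [sum_congr rfl h1, ← mul_sum, hss]

open Classical in
private lemma unit_count {N : ℕ} {Q : Finset ℕ} {hit : ℕ → Fin N → ℕ → Prop} (h : PSys Q hit)
    {ω : Fin N → Finset ℕ} (hω : ω ∈ Om N Q) :
    ∑ t ∈ (range (∏ q ∈ Q, q)).filter (fun t => t.Coprime (∏ q ∈ Q, q)),
      ∑ S ∈ Q.powerset, mu kp Q S *
        (if (fun i => conf Q hit t i ∩ S) = ω then (1 : ℝ) else 0) =
    (∏ q ∈ Q, kp q) *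
      ∑ t ∈ range (∏ q ∈ Q, q), (if conf Q hit t = ω then (1 : ℝ) else 0) := by
  rw [conf_count h.sys hω, ← prod_mul_distrib, sum_filter]
  have h1 : ∀ t ∈ range (∏ q ∈ Q, q), (if t.Coprime (∏ q ∈ Q, q) then
      ∑ S ∈ Q.powerset, mu kp Q S *
        (if (fun i => conf Q hit t i ∩ S) = ω then (1 : ℝ) else 0) else 0) =
      ∏ q ∈ Q, ((if ¬ q ∣ t then (1 : ℝ) else 0) * (kp q *
      (if ∀ i, (hit q i t ↔ i ∈ univ.filter fun i => q ∈ ω i) then (1 : ℝ) else 0) +
      (1 - kp q) * (if (univ.filter fun i => q ∈ ω i) = ∅ then (1 : ℝ) else 0))) := by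
    intro t _
    rw [thin_ind hω t, prod_mul_distrib]
    by_cases hc : t.Coprime (∏ q ∈ Q, q)
    · rw [if_pos hc]
      rw [Nat.coprime_prod_right_iff] at hc
      have h2 : ∏ q ∈ Q, (if ¬ q ∣ t then (1 : ℝ) else 0) = 1 := by
        refine prod_eq_one fun q hq => if_pos ?_
        rw [← (h.pr q hq).coprime_iff_not_dvd]
        exact (hc q hq).symm
      rw [h2, one_mul]
    · rw [if_neg hc]
      rw [Nat.coprime_prod_right_iff] at hc
      push Not at hc
      obtain ⟨q, hq, hqt⟩ := hc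
      have h2 : ∏ q ∈ Q, (if ¬ q ∣ t then (1 : ℝ) else 0) = 0 := by
        refine prod_eq_zero hq (if_neg ?_)
        rw [not_not]
        by_contra h3
        exact hqt ((h.pr q hq).coprime_iff_not_dvd.2 h3).symm
      rw [h2, zero_mul]
  rw [sum_congr rfl h1, crt_prod Q h.sys.pos h.sys.co]
  · exact prod_congr rfl fun q hq => local_sum h hq _
  · intro q hq t
    have h2 : (∀ i, (hit q i (t + q) ↔ i ∈ univ.filter fun i => q ∈ ω i)) ↔
        ∀ i, (hit q i t ↔ i ∈ univ.filter fun i => q ∈ ω i) := by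
      refine forall_congr' fun i => ?_
      rw [h.sys.per q hq i t]
    have h3 : q ∣ t + q ↔ q ∣ t := Nat.dvd_add_self_right
    simp only [h2, h3]

private lemma expand {N : ℕ} {Q : Finset ℕ} (Φ : (Fin N → Finset ℕ) → ℝ)
    {ω' : Fin N → Finset ℕ} (hω' : ω' ∈ Om N Q) : open Classical in
    Φ ω' = ∑ ω ∈ Om N Q, Φ ω * (if ω' = ω then (1 : ℝ) else 0) := by
  classical
  simp only [mul_ite, mul_one, mul_zero]
  rw [sum_ite_eq, if_pos hω']

theorem Units_p : UnitsStmt := by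
  classical
  intro N Q hit h Φ
  have hP : (0 : ℝ) < ((∏ q ∈ Q, q : ℕ) : ℝ) := by
    exact_mod_cast prod_pos fun q hq => (h.pr q hq).pos
  have h1 : ∀ t ∈ (range (∏ q ∈ Q, q)).filter (fun t => t.Coprime (∏ q ∈ Q, q)),
      Th Q Φ (conf Q hit t) = ∑ ω ∈ Om N Q, Φ ω * ∑ S ∈ Q.powerset, mu kp Q S *
        (if (fun i => conf Q hit t i ∩ S) = ω then (1 : ℝ) else 0) := by
    intro t _
    unfold Th
    have h2 : ∀ S ∈ Q.powerset, mu kp Q S * Φ (fun i => conf Q hit t i ∩ S) =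
        ∑ ω ∈ Om N Q, Φ ω * (mu kp Q S *
          (if (fun i => conf Q hit t i ∩ S) = ω then (1 : ℝ) else 0)) := by
      intro S _
      have h3 : (fun i => conf Q hit t i ∩ S) ∈ Om N Q := by
        rw [mem_Om]
        intro i
        exact inter_subset_left.trans (mem_Om.1 (conf_mem t) i)
      rw [expand Φ h3, mul_sum]
      refine sum_congr rfl fun ω _ => ?_
      ring
    rw [sum_congr rfl h2, sum_comm]
    refine sum_congr rfl fun ω _ => ?_
    rw [mul_sum]
  rw [sum_congr rfl h1, sum_comm]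
  have h2 : ∀ ω ∈ Om N Q, ∑ t ∈ (range (∏ q ∈ Q, q)).filter (fun t => t.Coprime (∏ q ∈ Q, q)),
      Φ ω * ∑ S ∈ Q.powerset, mu kp Q S *
        (if (fun i => conf Q hit t i ∩ S) = ω then (1 : ℝ) else 0) =
      (∏ q ∈ Q, kp q) * (Φ ω *
        ∑ t ∈ range (∏ q ∈ Q, q), (if conf Q hit t = ω then (1 : ℝ) else 0)) := by
    intro ω hω
    rw [← mul_sum, unit_count h hω]
    ring
  rw [sum_congr rfl h2, ← mul_sum]
  have h3 : ∑ t ∈ range (∏ q ∈ Q, q), Φ (conf Q hit t) =
      ∑ ω ∈ Om N Q, Φ ω * ∑ t ∈ range (∏ q ∈ Q, q), (if conf Q hit t = ω then (1 : ℝ) else 0) := by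
    have h4 : ∀ t ∈ range (∏ q ∈ Q, q), Φ (conf Q hit t) =
        ∑ ω ∈ Om N Q, Φ ω * (if conf Q hit t = ω then (1 : ℝ) else 0) :=
      fun t _ => expand Φ (conf_mem t)
    rw [sum_congr rfl h4, sum_comm]
    refine sum_congr rfl fun ω _ => ?_
    rw [mul_sum]
  rw [← h3, totient_eq h.pr]
  unfold ER
  field_simp

end Pool.Agent.PTr
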