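import Pool.Agent.Lib.PTr.Defs

/-!
# UuSq: second moment of the test function
-/

set_option autoImplicit false

namespace Pool.Agent.PTr

open Finset Pool.Agent.GapSieve Pool.Agent.PosProp

private lemma uuSq_Dh {p : ℕ → ℝ} {Q2 : Finset ℕ} (h0 : ∀ q ∈ Q2, 0 ≤ p q)
    (h1 : ∀ q ∈ Q2, p q ≤ 1) (hh : ℝ) (ω : Finset ℕ) :
    |Dh p Q2 hh ω| ≤ 2 ^ (ω ∩ Q2).card := by
  have hx : ∀ A : Finset ℕ, xh p (fun _ => Q2) 1 A = dco p (fun _ => Q2) 0 A := by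
    intro A
    unfold xh
    rw [Finset.sum_range_one, Nat.cast_one, div_one]
  have h2 := sum_abs_xh_chi (p := p) (B := fun _ => Q2) (J := 1) (Q := Q2) Nat.one_pos
    (fun m _ => Finset.Subset.refl Q2) h0 h1 ω
  refine le_trans ?_ h2
  unfold Dh
  refine (Finset.abs_sum_le_sum_abs _ _).trans ?_
  refine le_trans ?_ (Finset.sum_le_sum_of_subset_of_nonneg (Finset.filter_subset
    (fun A => lw A ≤ hh) Q2.powerset) fun A _ _ => mul_nonneg (abs_nonneg _) (abs_nonneg _))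
  refine Finset.sum_le_sum fun A _ => ?_
  rw [abs_mul, hx]

theorem UuSq_p : UuSqStmt := by
  intro p Q1 Q2 β B J α hh h
  have hP : E1 p Q2 (fun ω => (16 : ℝ) ^ (ω ∩ Q2).card) ≤ Real.exp (15 * ∑ q ∈ Q2, p q) := by
    have h1 : E1 p Q2 (fun ω => (16 : ℝ) ^ (ω ∩ Q2).card) =
        E1 p Q2 (fun ω => (16 : ℝ) ^ ω.card) :=
      E1_congr fun ω hω => by rw [inter_eq_left.2 hω]
    rw [h1, E1_pow_card]
    refine (prod_one_add_mul_le_exp h.p0' (by norm_num)).trans (Real.exp_le_exp.2 ?_)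
    exact mul_le_mul_of_nonneg_right (by norm_num) (sum_nonneg h.p0')
  have h1 : E1 p (Q1 ∪ Q2) (fun ω => uu p Q2 β hh ω ^ 2) ≤
      E1 p (Q1 ∪ Q2) (fun ω => 16 * (β ω ^ 4 * 16 ^ (ω ∩ Q2).card)) := by
    refine E1_mono h.p0 h.p1 fun ω _ => ?_
    have h2 : Dh p Q2 hh ω ^ 4 ≤ 16 ^ (ω ∩ Q2).card := by
      have h3 := pow_le_pow_left₀ (abs_nonneg _) (uuSq_Dh h.p0' h.p1' hh ω) 4
      rw [← abs_pow, abs_of_nonneg (by positivity : (0 : ℝ) ≤ Dh p Q2 hh ω ^ 4), ← pow_mul,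
        mul_comm (ω ∩ Q2).card 4, pow_mul] at h3
      norm_num at h3
      exact h3
    have h4 : uu p Q2 β hh ω ^ 2 = 16 * (β ω ^ 4 * Dh p Q2 hh ω ^ 4) := by
      unfold uu
      ring
    rw [h4]
    exact mul_le_mul_of_nonneg_left (mul_le_mul_of_nonneg_left h2 (by positivity)) (by norm_num)
  refine h1.trans ?_
  have e3 : E1 p (Q1 ∪ Q2) (fun ω => β ω ^ 4 * 16 ^ (ω ∩ Q2).card) =
      E1 p Q1 (fun ω => β ω ^ 4) * E1 p Q2 (fun ω => 16 ^ (ω ∩ Q2).card) :=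
    E1_ind (f := fun ω => β ω ^ 4) (g := fun ω => (16 : ℝ) ^ (ω ∩ Q2).card) h.disj
      (fun ω => by rw [h.bint]) (fun ω => by rw [inter_assoc, inter_self])
  rw [E1_mul_left, e3]
  exact mul_le_mul_of_nonneg_left (mul_le_mul h.m4 hP
    (E1_nonneg h.p0' h.p1' fun _ _ => by positivity) h.al0) (by norm_num)

end Pool.Agent.PTr
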