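import Pool.Agent.Lib.PTr.LevBet
import Pool.Agent.Lib.PTr.LevDh
import Pool.Agent.Lib.PTr.LevEe
import Pool.Agent.Lib.PTr.LevUu
import Pool.Agent.Lib.PTr.BetM8
import Pool.Agent.Lib.PTr.Mom8
import Pool.Agent.Lib.PTr.UuSq
import Pool.Agent.Lib.PTr.GGM
import Pool.Agent.Lib.PTr.CountT
import Pool.Agent.Lib.PTr.CoreT
import Pool.Agent.Lib.PTr.PosDensT
import Pool.Agent.Lib.PTr.Units
import Pool.Agent.Lib.PTr.Coset
import Pool.Agent.Lib.PTr.KerQ
import Pool.Agent.Lib.PTr.HatBd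
import Pool.Agent.Lib.PTr.HatZ
import Pool.Agent.Lib.PTr.HatP
import Pool.Agent.Lib.PTr.ClassSum
import Pool.Agent.Lib.PTr.ThLev
import Pool.Agent.Lib.PTr.ThSq
import Pool.Agent.Lib.PTr.FInv
import Pool.Agent.Lib.PTr.CondW
import Pool.Agent.Lib.PTr.Transfer
import Pool.Agent.Lib.PTr.TB
import Pool.Agent.Lib.PTr.HitB
import Pool.Agent.Lib.PTr.Surv
import Pool.Agent.Lib.PTr.PXle
import Pool.Agent.Lib.PTr.BTc
import Pool.Agent.Lib.PTr.Low
import Pool.Agent.Lib.PTr.Fam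
import Pool.Agent.Lib.PTr.Class
import Pool.Agent.Lib.PTr.Good
import Pool.Agent.Lib.PTr.TheoremT
import Pool.Agent.Lib.PTr.Cor
import Pool.Agent.Lib.PrT.LMain
import Pool.Agent.Lib.Linnik.BTq
import Pool.Agent.Lib.MP_0bb3d8_nt.HohFinal

/-!
# Theorem T, assembly
-/

set_option autoImplicit false

namespace Pool.Agent.PTr

/-- For every integer `b ≠ 0` and every `lam > 0` a positive proportion of the primes `p` have
`|b + s p|` not prime for all integers `s` with `1 ≤ |s| ≤ lam log p`. -/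
theorem theoremT : TheoremTStmt :=
  TheoremT_p (Good_p (Class_p (PosDensT_p (CoreT_p LevBet_p LevEe_p (LevUu_p LevDh_p) BetM8_p
    Mom8_p UuSq_p GGM_p CountT_p)) (Fam_p (Transfer_p ThLev_p (HatP_p Units_p ClassSum_p) HatZ_p
      (HatBd_p Coset_p KerQ_p Units_p ClassSum_p ThSq_p) FInv_p CondW_p)) (TB_p Pool.PrT.FIN)
      HitB_p PXle_p) Surv_p (BTc_p Lnk.btq PXle_p) Low_p PXle_p) Hoh.exists_bump

end Pool.Agent.PTr
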